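import Pool.Agent.Helper98.Cop.FiniteVol

set_option autoImplicit false

/-! # The main finite volume inequality -/

namespace H98Cop

open MeasureTheory ProbabilityTheory Filter Topology Matrix

variable {ι : Type*} [Fintype ι] [DecidableEq ι]

/-- scales -/
noncomputable def sc (δ : ℝ) (j : ℕ) : ℝ := 2^j * δ

theorem sc_pos {δ : ℝ} (hδ : 0 < δ) (j : ℕ) : 0 < sc δ j := by unfold sc; positivity

/-- the multiscale field -/
noncomputable def SF (p : Finset ι → ℝ) (β v0 δ c : ℝ) (J : ℕ) (x : ι → ℝ) : ι → ℝ :=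
  fun i => ∑ j ∈ Finset.range J, c * avgP p i (sc δ j) (bs β v0 x)

/-- its derivative -/
noncomputable def AF (p : Finset ι → ℝ) (β v0 δ c : ℝ) (J : ℕ) (x : ι → ℝ) : Matrix ι ι ℝ :=
  Matrix.of fun i m => ∑ j ∈ Finset.range J, (c * β) * avgC p i m (sc δ j) (bs β v0 x)

namespace PW

variable {p : Finset ι → ℝ} (hp : PW p)
include hp

theorem SF_hasFDerivAt (β v0 δ c : ℝ) (J : ℕ) (x : ι → ℝ) (i : ι) :
    HasFDerivAt (fun x => SF p β v0 δ c J x i) (∑ m, AF p β v0 δ c J x i m • pj m) x := by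
  unfold SF AF
  simp only [Matrix.of_apply]
  have h1 : ∀ j, HasFDerivAt (fun x => c * avgP p i (sc δ j) (bs β v0 x))
      (∑ m, ((c * β) * avgC p i m (sc δ j) (bs β v0 x)) • pj m) x := by
    intro j
    have h := ((hp.hasFDerivAt_avgP i (sc δ j) (bs β v0 x)).comp x (hasFDerivAt_bs β v0 x)).const_mul c
    refine h.congr_fderiv ?_
    ext w
    simp only [ContinuousLinearMap.comp_apply, ContinuousLinearMap.smul_apply, ContinuousLinearMap.id_apply]
    simp
    rw [Finset.mul_sum, Finset.mul_sum]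
    apply Finset.sum_congr rfl
    intro j _; ring
  have h2 := HasFDerivAt.fun_sum (fun j (_ : j ∈ Finset.range J) => h1 j)
  refine h2.congr_fderiv ?_
  rw [Finset.sum_comm]
  apply Finset.sum_congr rfl
  intro m _
  rw [Finset.sum_smul]

theorem SF_le {β v0 δ c : ℝ} (hδ : 0 < δ) (hc : 0 ≤ c) (J : ℕ) (x : ι → ℝ) (i : ι) :
    SF p β v0 δ c J x i ≤ J * c * Pr p i (bs β (v0 + sc δ J) x) := by
  unfold SF
  have h : ∀ j ∈ Finset.range J, c * avgP p i (sc δ j) (bs β v0 x) ≤ c * Pr p i (bs β (v0 + sc δ J) x) := by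
    intro j hj
    apply mul_le_mul_of_nonneg_left _ hc
    refine (hp.avgP_le i (sc_pos hδ j) _).trans ?_
    rw [sh_bs]
    apply hp.Pr_mono
    intro k
    unfold bs
    have : 2 * sc δ j ≤ sc δ J := by
      unfold sc
      have h1 : (2:ℝ)^(j+1) ≤ 2^J := pow_le_pow_right₀ (by norm_num) (Finset.mem_range.1 hj)
      calc 2 * (2^j * δ) = 2^(j+1) * δ := by ring
        _ ≤ 2^J * δ := mul_le_mul_of_nonneg_right h1 hδ.le
    linarith
  calc _ ≤ ∑ j ∈ Finset.range J, c * Pr p i (bs β (v0 + sc δ J) x) := Finset.sum_le_sum h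
    _ = _ := by rw [Finset.sum_const, Finset.card_range, nsmul_eq_mul]; ring

theorem SF_nonneg {β v0 δ c : ℝ} (hδ : 0 < δ) (hc : 0 ≤ c) (J : ℕ) (x : ι → ℝ) (i : ι) :
    0 ≤ SF p β v0 δ c J x i :=
  Finset.sum_nonneg fun j _ => mul_nonneg hc (hp.avgP_nonneg i (sc_pos hδ j) _)

theorem le_SF {β v0 δ c : ℝ} (hδ : 0 < δ) (hc : 0 ≤ c) (J : ℕ) (x : ι → ℝ) (i : ι) :
    J * c * Pr p i (bs β (v0 + δ) x) ≤ SF p β v0 δ c J x i := by
  unfold SF
  have h : ∀ j ∈ Finset.range J, c * Pr p i (bs β (v0 + δ) x) ≤ c * avgP p i (sc δ j) (bs β v0 x) := by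
    intro j _
    apply mul_le_mul_of_nonneg_left _ hc
    refine le_trans ?_ (hp.le_avgP i (sc_pos hδ j) _)
    rw [sh_bs]
    apply hp.Pr_mono
    intro k
    unfold bs
    have : δ ≤ sc δ j := by
      unfold sc
      have h1 : (1:ℝ) ≤ 2^j := one_le_pow₀ (by norm_num)
      nlinarith
    linarith
  calc _ = ∑ j ∈ Finset.range J, c * Pr p i (bs β (v0 + δ) x) := by
        rw [Finset.sum_const, Finset.card_range, nsmul_eq_mul]; ring
    _ ≤ _ := Finset.sum_le_sum h

theorem AF_nonneg {β v0 δ c : ℝ} (hδ : 0 < δ) (hc : 0 ≤ c) (hβ : 0 ≤ β) (J : ℕ) (x : ι → ℝ) (i m : ι) :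
    0 ≤ AF p β v0 δ c J x i m := by
  unfold AF
  simp only [Matrix.of_apply]
  exact Finset.sum_nonneg fun j _ => mul_nonneg (mul_nonneg hc hβ) (hp.avgC_nonneg i m (sc_pos hδ j) _)

theorem AF_le {β v0 δ c : ℝ} (hδ : 0 < δ) (hc : 0 ≤ c) (hβ : 0 ≤ β) (J : ℕ) (x : ι → ℝ) (i m : ι) :
    AF p β v0 δ c J x i m ≤ J * (c * β) := by
  unfold AF
  simp only [Matrix.of_apply]
  calc _ ≤ ∑ j ∈ Finset.range J, (c * β) := by
        apply Finset.sum_le_sum
        intro j _
        exact mul_le_of_le_one_right (mul_nonneg hc hβ) (hp.avgC_le_one i m (sc_pos hδ j) _)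
    _ = _ := by rw [Finset.sum_const, Finset.card_range, nsmul_eq_mul]

theorem AF_psd {β v0 δ c : ℝ} (hδ : 0 < δ) (hc : 0 ≤ c) (hβ : 0 ≤ β) (J : ℕ) (x : ι → ℝ) :
    (AF p β v0 δ c J x).PosSemidef := by
  apply Matrix.PosSemidef.of_dotProduct_mulVec_nonneg
  · rw [Matrix.IsHermitian]
    ext i m
    unfold AF
    simp only [Matrix.conjTranspose_apply, Matrix.of_apply, star_trivial]
    simp_rw [avgC_symm i m]
  · intro w
    have e : star w ⬝ᵥ (AF p β v0 δ c J x *ᵥ w)
        = ∑ j ∈ Finset.range J, (c * β) * ∑ i, ∑ m, w i * w m * avgC p i m (sc δ j) (bs β v0 x) := by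
      unfold AF
      simp only [dotProduct, mulVec, Matrix.of_apply, star_trivial]
      have h1 : ∀ i : ι, w i * ∑ m, (∑ j ∈ Finset.range J, (c * β) * avgC p i m (sc δ j) (bs β v0 x)) * w m
          = ∑ j ∈ Finset.range J, ∑ m, (c * β) * (w i * w m * avgC p i m (sc δ j) (bs β v0 x)) := by
        intro i
        rw [Finset.sum_comm, Finset.mul_sum]
        apply Finset.sum_congr rfl
        intro m _
        rw [Finset.sum_mul, Finset.mul_sum]
        apply Finset.sum_congr rfl
        intro j _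
        ring
      rw [Finset.sum_congr rfl (fun i _ => h1 i), Finset.sum_comm]
      apply Finset.sum_congr rfl
      intro j _
      rw [Finset.mul_sum]
      apply Finset.sum_congr rfl
      intro i _
      rw [Finset.mul_sum]
    rw [e]
    exact Finset.sum_nonneg fun j _ => mul_nonneg (mul_nonneg hc hβ) (hp.avgC_psd (sc_pos hδ j) _ _)

theorem AF_continuous (β v0 δ c : ℝ) (J : ℕ) (i m : ι) : Continuous (fun x => AF p β v0 δ c J x i m) := by
  unfold AF
  simp only [Matrix.of_apply]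
  exact continuous_finsetSum _ fun j _ => ((hp.continuous_avgC i m (sc δ j)).comp (continuous_bs β v0)).const_mul _

theorem SF_mono {β v0 δ c : ℝ} (hδ : 0 < δ) (hc : 0 ≤ c) (hβ : 0 < β) (J : ℕ) (x y : ι → ℝ) :
    0 ≤ ∑ i, (SF p β v0 δ c J x i - SF p β v0 δ c J y i) * (x i - y i) := by
  have e : ∑ i, (SF p β v0 δ c J x i - SF p β v0 δ c J y i) * (x i - y i)
      = ∑ j ∈ Finset.range J, (c / β) * ∑ i, (avgP p i (sc δ j) (bs β v0 x) - avgP p i (sc δ j) (bs β v0 y))
          * (bs β v0 x i - bs β v0 y i) := by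
    unfold SF
    simp_rw [← Finset.sum_sub_distrib, Finset.sum_mul]
    rw [Finset.sum_comm]
    apply Finset.sum_congr rfl
    intro j _
    rw [Finset.mul_sum]
    apply Finset.sum_congr rfl
    intro i _
    unfold bs
    field_simp
    ring
  rw [e]
  exact Finset.sum_nonneg fun j _ => mul_nonneg (div_nonneg hc hβ.le) (hp.avgP_mono_grad (sc_pos hδ j) _ _)

/-- pointwise bound on the trace of the square -/
theorem AF_trace {β v0 δ c : ℝ} (hδ : 0 < δ) (J : ℕ) (x : ι → ℝ) :
    (AF p β v0 δ c J x * AF p β v0 δ c J x).trace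
      ≤ (c * β)^2 * ∑ j ∈ Finset.range J, 4 * (((∑ i, Pr p i (bs β (v0 + 2 * sc δ j) x)) / δ) * ((1:ℝ)/2)^j) := by
  set y := bs β v0 x with hy
  set T : ℕ → ℕ → ℝ := fun j k => ∑ i, ∑ m, avgC p i m (sc δ j) y * avgC p i m (sc δ k) y with hT
  have e : (AF p β v0 δ c J x * AF p β v0 δ c J x).trace
      = (c * β)^2 * ∑ j ∈ Finset.range J, ∑ k ∈ Finset.range J, T j k := by
    unfold Matrix.trace
    simp only [Matrix.diag_apply, Matrix.mul_apply]
    have h1 : ∀ i m : ι, AF p β v0 δ c J x i m * AF p β v0 δ c J x m i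
        = (c * β)^2 * ∑ j ∈ Finset.range J, ∑ k ∈ Finset.range J, avgC p i m (sc δ j) y * avgC p i m (sc δ k) y := by
      intro i m
      unfold AF
      simp only [Matrix.of_apply]
      rw [← Finset.mul_sum, ← Finset.mul_sum]
      simp_rw [avgC_symm m i]
      rw [← Finset.sum_mul_sum]
      ring
    have h1' : ∑ i, ∑ m, AF p β v0 δ c J x i m * AF p β v0 δ c J x m i
        = (c * β)^2 * ∑ i, ∑ m, ∑ j ∈ Finset.range J, ∑ k ∈ Finset.range J, avgC p i m (sc δ j) y * avgC p i m (sc δ k) y := by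
      rw [Finset.mul_sum]
      apply Finset.sum_congr rfl; intro i _
      rw [Finset.mul_sum]
      apply Finset.sum_congr rfl; intro m _
      exact h1 i m
    rw [h1']
    congr 1
    have h2 : ∀ i : ι, ∑ m, ∑ j ∈ Finset.range J, ∑ k ∈ Finset.range J, avgC p i m (sc δ j) y * avgC p i m (sc δ k) y
        = ∑ j ∈ Finset.range J, ∑ k ∈ Finset.range J, ∑ m, avgC p i m (sc δ j) y * avgC p i m (sc δ k) y := by
      intro i
      rw [Finset.sum_comm]
      apply Finset.sum_congr rfl
      intro j _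
      rw [Finset.sum_comm]
    rw [Finset.sum_congr rfl (fun i _ => h2 i), Finset.sum_comm]
    apply Finset.sum_congr rfl
    intro j _
    rw [Finset.sum_comm]
  rw [e]
  apply mul_le_mul_of_nonneg_left _ (sq_nonneg _)
  apply double_sum_le J T (fun j => (∑ i, Pr p i (bs β (v0 + 2 * sc δ j) x)) / δ)
  · intro j
    exact div_nonneg (Finset.sum_nonneg fun i _ => hp.Pr_nonneg i _) hδ.le
  · intro j k
    rw [hT]; simp only
    apply Finset.sum_congr rfl; intro i _
    apply Finset.sum_congr rfl; intro m _; ring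
  · intro j k _
    rw [hT]; simp only
    have hj := sc_pos hδ j
    have hk := sc_pos hδ k
    have a1 : ∑ i, ∑ m, avgC p i m (sc δ j) y * avgC p i m (sc δ k) y
        ≤ ∑ i, ∑ m, (avgC p i i (sc δ j) y * avgC p i m (sc δ k) y / 2
            + avgC p m m (sc δ j) y * avgC p i m (sc δ k) y / 2) := by
      apply Finset.sum_le_sum; intro i _
      apply Finset.sum_le_sum; intro m _
      have h1 := hp.avgC_le_half i m hj y
      have h2 := hp.avgC_nonneg i m hk y
      nlinarith
    have a2 : ∑ i, ∑ m, (avgC p i i (sc δ j) y * avgC p i m (sc δ k) y / 2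
            + avgC p m m (sc δ j) y * avgC p i m (sc δ k) y / 2)
        = ∑ i, avgC p i i (sc δ j) y * ∑ m, avgC p i m (sc δ k) y := by
      simp_rw [Finset.sum_add_distrib]
      have h3 : ∑ i, ∑ m, avgC p m m (sc δ j) y * avgC p i m (sc δ k) y / 2
          = ∑ i, ∑ m, avgC p i i (sc δ j) y * avgC p i m (sc δ k) y / 2 := by
        rw [Finset.sum_comm]
        apply Finset.sum_congr rfl; intro i _
        apply Finset.sum_congr rfl; intro m _
        rw [avgC_symm m i]
      rw [h3, ← Finset.sum_add_distrib]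
      apply Finset.sum_congr rfl; intro i _
      rw [← Finset.sum_add_distrib, Finset.mul_sum]
      apply Finset.sum_congr rfl; intro m _; ring
    have a3 : ∑ i, avgC p i i (sc δ j) y * ∑ m, avgC p i m (sc δ k) y
        ≤ ∑ i, Pr p i (bs β (v0 + 2 * sc δ j) x) * (sc δ k)⁻¹ := by
      apply Finset.sum_le_sum; intro i _
      apply mul_le_mul _ (hp.avgC_rowsum i hk y) (Finset.sum_nonneg fun m _ => hp.avgC_nonneg i m hk y)
        (hp.Pr_nonneg i _)
      have := hp.avgC_self_le i hj y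
      rw [hy, sh_bs] at this
      exact this
    calc _ ≤ _ := a1
      _ = _ := a2
      _ ≤ _ := a3
      _ = (∑ i, Pr p i (bs β (v0 + 2 * sc δ j) x)) / δ * (1 / 2) ^ k := by
          rw [← Finset.sum_mul]
          unfold sc
          rw [one_div, inv_pow, mul_inv]
          ring

/-- **Main finite volume inequality.** -/
theorem fv_main {β θ δ κ v0 : ℝ} (hβ : 0 < β) (hθ : 0 < θ) (hδ : 0 < δ) (hκ : 0 < κ) {J : ℕ}
    (hJ : 1 ≤ J) (hov : δ * R1 p β (v0 + δ) ≤ β * κ * R2 p β (v0 + δ)) :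
    θ * L p β (v0 + δ) ≤ Real.log (∫ x, Real.exp (θ * Real.log (Zq p (bs β v0 x))) ∂(gm ι))
      + (κ / J * β)^2 / 2 * (∑ j ∈ Finset.range J, 4 * ((R1 p β (v0 + 2 * sc δ j) / δ) * ((1:ℝ)/2)^j))
      + κ^2 / 2 * R1 p β (v0 + sc δ J) := by
  have hJ' : (0:ℝ) < J := by exact_mod_cast hJ
  set c := κ / J with hc
  have hc0 : 0 < c := div_pos hκ hJ'
  have hJc : J * c = κ := by rw [hc]; field_simp
  set S := SF p β v0 δ c J with hS
  set A := AF p β v0 δ c J with hA
  have hScont : ∀ i, Continuous (fun x => S x i) := fun i =>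
    continuous_iff_continuousAt.2 fun x => (hp.SF_hasFDerivAt β v0 δ c J x i).continuousAt
  have hScont' : Continuous S := continuous_pi hScont
  have hgcont : Continuous (fun x => θ * Real.log (Zq p (bs β v0 x))) :=
    (hp.continuous_logZ.comp (continuous_bs β v0)).const_mul θ
  have hSle : ∀ x i, S x i ≤ κ * Pr p i (bs β (v0 + sc δ J) x) := by
    intro x i; rw [← hJc]; exact hp.SF_le hδ hc0.le J x i
  have hS0 : ∀ x i, 0 ≤ S x i := fun x i => hp.SF_nonneg hδ hc0.le J x i
  have hSκ : ∀ x i, S x i ≤ κ := fun x i =>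
    (hSle x i).trans (mul_le_of_le_one_right hκ.le (hp.Pr_le_one i _))
  have hgT : Integrable (fun x => θ * Real.log (Zq p (bs β v0 (x + S x)))) (gm ι) := by
    apply Integrable.const_mul
    refine integrable_of_le_lin _ ((hp.continuous_logZ.comp
      ((continuous_bs β v0).comp (continuous_id.add hScont'))).aestronglyMeasurable)
      ((|Real.log (Zq p 0)| + Fintype.card ι * |v0|) + β * (Fintype.card ι * κ)) β (by positivity) hβ.le
      (fun x => ?_)
    have h1 := hp.abs_logZ_bs β v0 (x + S x)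
    have h2 : ∑ i, |(x + S x) i| ≤ ∑ i, |x i| + Fintype.card ι * κ := by
      rw [← nsmul_eq_mul, ← Finset.card_univ, ← Finset.sum_const, ← Finset.sum_add_distrib]
      apply Finset.sum_le_sum
      intro i _
      calc |(x + S x) i| ≤ |x i| + |S x i| := abs_add_le _ _
        _ ≤ |x i| + κ := by rw [abs_of_nonneg (hS0 x i)]; linarith [hSκ x i]
    rw [abs_of_pos hβ] at h1
    have h3 := mul_le_mul_of_nonneg_left h2 hβ.le
    calc _ ≤ _ := h1
      _ ≤ _ := by linarith
  have htr := transport S A (κ + κ * β) (fun x i => hp.SF_hasFDerivAt β v0 δ c J x i)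
    (fun x => hp.AF_psd hδ hc0.le hβ.le J x) (fun x y => hp.SF_mono hδ hc0.le hβ J x y)
    (fun x i => by
      rw [abs_of_nonneg (hS0 x i)]; have := hSκ x i; have := mul_pos hκ hβ; linarith)
    (fun x i j => by
      rw [abs_of_nonneg (hp.AF_nonneg hδ hc0.le hβ.le J x i j)]
      have := hp.AF_le (v0 := v0) hδ hc0.le hβ.le J x i j
      rw [← mul_assoc, hJc] at this
      linarith)
    (fun i j => hp.AF_continuous β v0 δ c J i j)
    (fun x => θ * Real.log (Zq p (bs β v0 x))) hgcont (hp.integrable_exp_logZ θ β v0) hgT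
  -- gain
  have hgain : θ * L p β (v0 + δ) ≤ ∫ x, θ * Real.log (Zq p (bs β v0 (x + S x))) ∂(gm ι) := by
    have hpt : ∀ x : ι → ℝ, Real.log (Zq p (bs β (v0 + δ) x)) + (β * κ * ∑ i, Pr p i (bs β (v0 + δ) x)^2
        - δ * ∑ i, Pr p i (bs β (v0 + δ) x)) ≤ Real.log (Zq p (bs β v0 (x + S x))) := by
      intro x
      have h := hp.log_convex (bs β (v0 + δ) x) (bs β v0 (x + S x))
      have e : β * κ * ∑ i, Pr p i (bs β (v0 + δ) x)^2 - δ * ∑ i, Pr p i (bs β (v0 + δ) x)
          ≤ ∑ i, Pr p i (bs β (v0 + δ) x) * (bs β v0 (x + S x) i - bs β (v0 + δ) x i) := by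
        rw [Finset.mul_sum, Finset.mul_sum, ← Finset.sum_sub_distrib]
        apply Finset.sum_le_sum
        intro i _
        have h1 : κ * Pr p i (bs β (v0 + δ) x) ≤ S x i := by
          rw [← hJc]; exact hp.le_SF hδ hc0.le J x i
        have h2 := hp.Pr_nonneg i (bs β (v0 + δ) x)
        have h3 : bs β v0 (x + S x) i - bs β (v0 + δ) x i = β * S x i - δ := by
          unfold bs; simp only [Pi.add_apply]; ring
        rw [h3]
        have h4 := mul_le_mul_of_nonneg_left (mul_le_mul_of_nonneg_left h1 hβ.le) h2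
        nlinarith
      linarith
    have i1 := hp.integrable_logZ β (v0 + δ)
    have i2 := hp.integrable_sumP β (v0 + δ)
    have i3 := hp.integrable_sumP2 β (v0 + δ)
    have h := integral_mono (i1.add ((i3.const_mul (β * κ)).sub (i2.const_mul δ)))
      ((integrable_const_mul_iff (isUnit_iff_ne_zero.2 hθ.ne') _).1 hgT) hpt
    rw [integral_add' i1 ((i3.const_mul (β * κ)).sub (i2.const_mul δ)),
      integral_sub' (i3.const_mul (β * κ)) (i2.const_mul δ), integral_const_mul, integral_const_mul] at h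
    have h5 : L p β (v0 + δ) + (β * κ * R2 p β (v0 + δ) - δ * R1 p β (v0 + δ))
        ≤ ∫ x, Real.log (Zq p (bs β v0 (x + S x))) ∂(gm ι) := h
    rw [integral_const_mul]
    apply mul_le_mul_of_nonneg_left _ hθ.le
    linarith
  -- cost 1
  have hcost1 : ∫ x, (A x * A x).trace ∂(gm ι)
      ≤ (c * β)^2 * ∑ j ∈ Finset.range J, 4 * ((R1 p β (v0 + 2 * sc δ j) / δ) * ((1:ℝ)/2)^j) := by
    have hint : Integrable (fun x => (c * β)^2 * ∑ j ∈ Finset.range J,
        4 * (((∑ i, Pr p i (bs β (v0 + 2 * sc δ j) x)) / δ) * ((1:ℝ)/2)^j)) (gm ι) :=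
      (integrable_finsetSum _ fun j _ =>
        ((((hp.integrable_sumP β (v0 + 2 * sc δ j)).div_const δ).mul_const _).const_mul 4)).const_mul _
    have h1 : ∫ x, (A x * A x).trace ∂(gm ι) ≤ ∫ x, (c * β)^2 * ∑ j ∈ Finset.range J,
        4 * (((∑ i, Pr p i (bs β (v0 + 2 * sc δ j) x)) / δ) * ((1:ℝ)/2)^j) ∂(gm ι) := by
      apply integral_mono_of_nonneg _ hint (Filter.Eventually.of_forall fun x => hp.AF_trace hδ J x)
      refine Filter.Eventually.of_forall fun x => ?_
      unfold Matrix.trace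
      simp only [Matrix.diag_apply, Matrix.mul_apply, Pi.zero_apply]
      exact Finset.sum_nonneg fun i _ => Finset.sum_nonneg fun m _ =>
        mul_nonneg (hp.AF_nonneg hδ hc0.le hβ.le J x i m) (hp.AF_nonneg hδ hc0.le hβ.le J x m i)
    refine h1.trans (le_of_eq ?_)
    rw [integral_const_mul, integral_finsetSum _ (fun j _ =>
        ((((hp.integrable_sumP β (v0 + 2 * sc δ j)).div_const δ).mul_const _).const_mul 4))]
    congr 1
    apply Finset.sum_congr rfl
    intro j _
    rw [integral_const_mul, integral_mul_const, integral_div]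
    rfl
  have hcost2 : ∫ x, ∑ i, S x i ^ 2 ∂(gm ι) ≤ κ^2 * R1 p β (v0 + sc δ J) := by
    have h1 : ∫ x, ∑ i, S x i ^ 2 ∂(gm ι) ≤ ∫ x, κ^2 * ∑ i, Pr p i (bs β (v0 + sc δ J) x) ∂(gm ι) := by
      apply integral_mono_of_nonneg _ ((hp.integrable_sumP β (v0 + sc δ J)).const_mul _)
      · refine Filter.Eventually.of_forall fun x => ?_
        simp only
        rw [Finset.mul_sum]
        apply Finset.sum_le_sum
        intro i _
        have a1 := hS0 x i
        have a2 := hSle x i
        have a3 := hp.Pr_nonneg i (bs β (v0 + sc δ J) x)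
        have a4 := hp.Pr_le_one i (bs β (v0 + sc δ J) x)
        calc S x i ^ 2 ≤ (κ * Pr p i (bs β (v0 + sc δ J) x))^2 := pow_le_pow_left₀ a1 a2 2
          _ = κ^2 * (Pr p i (bs β (v0 + sc δ J) x))^2 := by ring
          _ ≤ κ^2 * Pr p i (bs β (v0 + sc δ J) x) := by
            apply mul_le_mul_of_nonneg_left _ (sq_nonneg κ); nlinarith
      · exact Filter.Eventually.of_forall fun x => Finset.sum_nonneg fun i _ => sq_nonneg _
    rw [integral_const_mul] at h1
    exact h1
  have hfin := htr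
  linarith

end PW

end H98Cop
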