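import Pool.Agent.Helper98.Cop.Pattern
import Pool.Agent.Helper98.Cop.FVMain
import Pool.Graph.R_seed8.Helper764.Cop_final
import Pool.Graph.R_seed8.Helper764.Cop_int

set_option autoImplicit false

/-! # Bridge between the path model and the finite Gibbs model -/

namespace H98Cop

open MeasureTheory ProbabilityTheory Filter Topology
open Cop764 (Data)

/-- the kernel data -/
structure Ker where
  κ : PMF ℕ
  κ0 : κ 0 = 0
  α : ℝ
  cK : ℝ
  hα : 0 < α
  hcK : 0 < cK
  htail : Tendsto (fun n : ℕ => (n : ℝ) ^ (1 + α) * (κ n).toReal) atTop (𝓝 cK)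
  lc : ∀ n, 1 ≤ n → (κ (n+1)).toReal ^ 2 ≤ (κ n).toReal * (κ (n+2)).toReal

/-- all the data with standard Gaussian disorder -/
noncomputable def Ker.D (k : Ker) (lam : ℝ) (hlam : 0 < lam) : Data where
  κ := k.κ
  κ0 := k.κ0
  α := k.α
  cK := k.cK
  hα := k.hα
  hcK := k.hcK
  htail := k.htail
  ν := gaussianReal 0 1
  hν := inferInstance
  mean := by simp
  var := by
    have h := variance_fun_id_gaussianReal (μ := 0) (v := 1)
    rw [variance_eq_integral (by fun_prop)] at h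
    simpa using h
  expm := fun t => integrable_exp_mul_gaussianReal t
  lam := lam
  hlam := hlam

/-- the halved kernel -/
noncomputable def Ker.f (k : Ker) : ℕ → ℝ := fun n => (k.κ n).toReal / 2

theorem Ker.f_nonneg (k : Ker) (n : ℕ) : 0 ≤ k.f n := by
  unfold Ker.f; positivity

theorem Ker.kpos (k : Ker) (n : ℕ) (hn : 1 ≤ n) : 0 < (k.κ n).toReal := by
  by_contra h
  have h0 : (k.κ n).toReal = 0 := le_antisymm (not_lt.1 h) ENNReal.toReal_nonneg
  -- then all later terms vanish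
  have hz : ∀ m, n ≤ m → (k.κ m).toReal = 0 := by
    intro m hm
    induction m, hm using Nat.le_induction with
    | base => exact h0
    | succ m hm ih =>
      have := k.lc m (by omega)
      rw [ih, zero_mul] at this
      exact pow_eq_zero_iff (two_ne_zero) |>.1 (le_antisymm this (sq_nonneg _))
  have h1 : Tendsto (fun n : ℕ => (n : ℝ) ^ (1 + k.α) * (k.κ n).toReal) atTop (𝓝 0) := by
    apply tendsto_const_nhds.congr'
    filter_upwards [eventually_ge_atTop n] with m hm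
    rw [hz m hm, mul_zero]
  have := tendsto_nhds_unique k.htail h1
  exact absurd this k.hcK.ne'

theorem Ker.f_pos (k : Ker) (n : ℕ) (hn : 1 ≤ n) : 0 < k.f n := by
  unfold Ker.f; have := k.kpos n hn; positivity

theorem Ker.f_lc (k : Ker) (n : ℕ) (hn : 1 ≤ n) : k.f (n+1) ^ 2 ≤ k.f n * k.f (n+2) := by
  unfold Ker.f; have := k.lc n hn; nlinarith

/-- index set of the finite volume model -/
abbrev Ix (ℓ : ℕ) : Type := ↥(Finset.Ioc 0 ℓ)

/-- pattern weights of the finite volume model -/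
noncomputable def Ker.p (k : Ker) (ℓ : ℕ) (A : Finset (Ix ℓ)) : ℝ :=
  W k.f (A.map (Function.Embedding.subtype _)) 0 ℓ

theorem Ker.pw (k : Ker) (ℓ : ℕ) : PW (k.p ℓ) where
  nonneg := fun A => W_nonneg k.f k.f_nonneg _ _ _
  pos := by
    refine ⟨∅, ?_⟩
    unfold Ker.p
    rw [Finset.map_empty, W_block k.f ∅ 0 ℓ ℓ (Nat.zero_le _) le_rfl
      (Or.inr fun n _ => Finset.notMem_empty n) (Or.inl rfl), W_self, mul_one]
    exact ren_pos k.f k.f_pos _
  lsm := fun A B => by
    unfold Ker.p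
    rw [Finset.map_inter, Finset.map_union]
    exact W_lsm k.f k.f_nonneg k.f_pos k.f_lc 0 ℓ (Nat.zero_le _) _ _

/-- pinned partition function as a finite Gibbs partition function -/
theorem Ker.G_eq (k : Ker) (ℓ : ℕ) (w : ℕ → ℝ) :
    Cop764.G (fun n => (k.κ n).toReal) w 0 ℓ = Zq (k.p ℓ) (fun i : Ix ℓ => w i.1) := by
  rw [G_eq_sum _ _ 0 ℓ (Nat.zero_le _)]
  unfold Zq Ker.p
  symm
  apply Finset.sum_nbij' (fun A : Finset (Ix ℓ) => A.map (Function.Embedding.subtype _))
    (fun B : Finset ℕ => B.subtype (fun n => n ∈ Finset.Ioc 0 ℓ))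
  · intro A _
    rw [Finset.mem_powerset]
    intro n hn
    rw [Finset.mem_map] at hn
    obtain ⟨a, _, rfl⟩ := hn
    exact a.2
  · intro B _; exact Finset.mem_univ _
  · intro A _
    ext a
    simp
  · intro B hB
    rw [Finset.mem_powerset] at hB
    rw [Finset.subtype_map]
    apply Finset.filter_true_of_mem
    intro n hn; exact hB hn
  · intro A _
    rw [Finset.sum_map]
    rfl

/-- restriction and sign flip of the disorder -/
noncomputable def flipR (ℓ : ℕ) (ω : ℕ → ℝ) : Ix ℓ → ℝ := fun i => -ω i.1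

theorem flipR_mp (ℓ : ℕ) :
    MeasurePreserving (flipR ℓ) (Cop764.disorder (gaussianReal 0 1)) (gm (Ix ℓ)) := by
  have h1 : MeasurePreserving ((Finset.Ioc 0 ℓ).restrict (π := fun _ : ℕ => ℝ))
      (Cop764.disorder (gaussianReal 0 1)) (Measure.pi fun _ : Ix ℓ => gaussianReal 0 1) := by
    refine ⟨by fun_prop, ?_⟩
    unfold Cop764.disorder
    exact Measure.infinitePi_map_restrict (fun _ : ℕ => gaussianReal 0 1)
  have h2 : MeasurePreserving (fun (x : Ix ℓ → ℝ) (i : Ix ℓ) => -x i)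
      (Measure.pi fun _ : Ix ℓ => gaussianReal 0 1) (Measure.pi fun _ : Ix ℓ => gaussianReal 0 1) := by
    apply measurePreserving_pi _ _ (f := fun (_ : Ix ℓ) (y : ℝ) => -y)
    intro i
    refine ⟨by fun_prop, ?_⟩
    have := gaussianReal_map_neg (μ := 0) (v := 1)
    simpa using this
  exact h2.comp h1

theorem Ker.G_bs (k : Ker) (lam : ℝ) (hlam : 0 < lam) (h : ℝ) (ℓ : ℕ) (ω : ℕ → ℝ) :
    Cop764.G (k.D lam hlam).K ((k.D lam hlam).w h ω) 0 ℓ
      = Zq (k.p ℓ) (bs (2 * lam) (-(2 * lam) * h) (flipR ℓ ω)) := by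
  have e : (k.D lam hlam).K = fun n => (k.κ n).toReal := rfl
  rw [e, k.G_eq]
  congr 1
  funext i
  unfold Cop764.Data.w bs flipR
  have : (k.D lam hlam).lam = lam := rfl
  rw [this]; ring

theorem Ker.integral_bridge (k : Ker) (lam : ℝ) (hlam : 0 < lam) (h : ℝ) (ℓ : ℕ) (φ : ℝ → ℝ)
    (hφ : ContinuousOn φ (Set.Ioi 0)) :
    ∫ ω, φ (Cop764.G (k.D lam hlam).K ((k.D lam hlam).w h ω) 0 ℓ) ∂(k.D lam hlam).P
      = ∫ x, φ (Zq (k.p ℓ) (bs (2 * lam) (-(2 * lam) * h) x)) ∂(gm (Ix ℓ)) := by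
  have hmp := flipR_mp ℓ
  have hc : Continuous (fun x => φ (Zq (k.p ℓ) (bs (2 * lam) (-(2 * lam) * h) x))) := by
    have h1 : Continuous (fun x => Zq (k.p ℓ) (bs (2 * lam) (-(2 * lam) * h) x)) :=
      (continuous_Zq _).comp (continuous_bs _ _)
    exact hφ.comp_continuous h1 fun x => (k.pw ℓ).Zpos _
  rw [← hmp.map_eq, integral_map hmp.measurable.aemeasurable hc.aestronglyMeasurable]
  unfold Cop764.Data.P
  apply integral_congr_ae
  filter_upwards with ω
  rw [k.G_bs]

theorem Ker.integral_lG (k : Ker) (lam : ℝ) (hlam : 0 < lam) (h : ℝ) (ℓ : ℕ) :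
    ∫ ω, (k.D lam hlam).lG h 0 ℓ ω ∂(k.D lam hlam).P = L (k.p ℓ) (2 * lam) (-(2 * lam) * h) := by
  unfold Cop764.Data.lG L
  exact k.integral_bridge lam hlam h ℓ Real.log
    (Real.continuousOn_log.mono fun x hx => (ne_of_gt hx))

end H98Cop
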