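import Pool.Agent.Helper98.Cop.Thermo

set_option autoImplicit false

/-! # Fractional moments at and above the critical point -/

namespace Cop764

open MeasureTheory ProbabilityTheory Filter Topology

/-- tail bound above the critical point -/
theorem h98_tail (D : Data) (c0 : ℝ) (n0 : ℕ) (hK : KHyp D.K D.α c0 n0) (h : ℝ) (hh : 0 ≤ h)
    (hf : D.f h ≤ 0) (ℓ : ℕ) (hℓ : n0 ≤ ℓ) (u0 u : ℝ)
    (hu0 : u0 = Real.exp ((2 * (1 + D.α))⁻¹ * (Real.log (2 / c0) + (1 + D.α) * Real.log ℓ + 1)))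
    (hu : u0 ≤ u) :
    D.P.real {ω | u ≤ Real.exp ((2 * (1 + D.α))⁻¹ * D.lG h 0 ℓ ω)} ≤
      (1 + D.α) * u0 ^ 2 * u ^ (-2 : ℝ) := by
  have hα := D.hα
  have ha : 0 < 1 + D.α := by linarith
  have hn0 := hK.n0_pos
  have hu0p : 0 < u0 := by rw [hu0]; exact Real.exp_pos _
  have hup : 0 < u := lt_of_lt_of_le hu0p hu
  set B0 := Real.log (2 / c0) + (1 + D.α) * Real.log ℓ with hB0
  set s := (2 * (1 + D.α) * Real.log u - B0 - 1) / (1 + D.α) with hs
  have hlu : (2 * (1 + D.α))⁻¹ * (B0 + 1) ≤ Real.log u := by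
    rw [← Real.log_exp ((2 * (1 + D.α))⁻¹ * (B0 + 1))]
    exact Real.log_le_log (Real.exp_pos _) (by rw [← hu0]; exact hu)
  have hs0 : 0 ≤ s := by
    rw [hs]
    apply div_nonneg _ ha.le
    have h1 := mul_le_mul_of_nonneg_left hlu (by positivity : 0 ≤ 2 * (1 + D.α))
    rw [← mul_assoc, mul_inv_cancel₀ (by positivity), one_mul] at h1
    linarith
  set q := Real.exp (-s) with hq
  have hq0 : 0 < q := Real.exp_pos _
  have hq1 : q ≤ 1 := by rw [hq]; exact Real.exp_le_one_iff.2 (by linarith)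
  have hlq : Real.log q⁻¹ = s := by rw [hq, ← Real.exp_neg, neg_neg, Real.log_exp]
  have hstr := M_strE.J_strE D c0 n0 hK h hh ℓ hℓ q hq0 hq1
  rw [hlq] at hstr
  have hstr2 : ∫ ω, max (D.lG h 0 ℓ ω - (Real.log (2 / c0) + (1 + D.α) * (Real.log ℓ + s))) 0 ∂D.P
      ≤ (1 + D.α) * q := by
    have : (ℓ:ℝ) * D.f h ≤ 0 := mul_nonpos_of_nonneg_of_nonpos (Nat.cast_nonneg _) hf
    linarith
  have hint : Integrable (fun ω => max (D.lG h 0 ℓ ω -
      (Real.log (2 / c0) + (1 + D.α) * (Real.log ℓ + s))) 0) D.P :=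
    (((M_int.J_int D c0 n0 hK h hh).2.1 0 ℓ (by omega)).sub (integrable_const _)).sup
      (integrable_const 0)
  have hmk := mul_meas_ge_le_integral_of_nonneg
    (Filter.Eventually.of_forall fun ω => le_max_right _ _) hint 1
  rw [one_mul] at hmk
  have hsub : {ω | u ≤ Real.exp ((2 * (1 + D.α))⁻¹ * D.lG h 0 ℓ ω)} ⊆
      {ω | 1 ≤ max (D.lG h 0 ℓ ω -
      (Real.log (2 / c0) + (1 + D.α) * (Real.log ℓ + s))) 0} := by
    intro ω hω
    rw [Set.mem_ofPred_eq] at hω ⊢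
    have h1 := Real.log_le_log hup hω
    rw [Real.log_exp] at h1
    have h2 := mul_le_mul_of_nonneg_left h1 (by positivity : 0 ≤ 2 * (1 + D.α))
    rw [← mul_assoc, mul_inv_cancel₀ (by positivity), one_mul] at h2
    have h3 : (1 + D.α) * s = 2 * (1 + D.α) * Real.log u - B0 - 1 := by
      rw [hs]; field_simp
    apply le_max_of_le_left
    have h4 : (1 + D.α) * (Real.log ℓ + s) = (1 + D.α) * Real.log ℓ + (1 + D.α) * s := by ring
    rw [h4, h3, hB0]
    linarith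
  have hm := measureReal_mono (μ := D.P) hsub (measure_ne_top _ _)
  have hq2 : q = u0 ^ 2 * u ^ (-2 : ℝ) := by
    rw [Real.rpow_neg hup.le, hu0]
    rw [show u ^ (2:ℝ) = Real.exp (2 * Real.log u) by
      rw [Real.rpow_def_of_pos hup]; ring_nf]
    rw [← Real.exp_neg, ← Real.exp_nat_mul, ← Real.exp_add, hq, hs]
    congr 1
    push_cast
    field_simp
    ring
  calc _ ≤ _ := hm
    _ ≤ _ := hmk
    _ ≤ _ := hstr2
    _ = _ := by rw [hq2]; ring

/-- fractional moments of the pinned partition function at and above criticality -/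
theorem h98_frac (D : Data) (c0 : ℝ) (n0 : ℕ) (hK : KHyp D.K D.α c0 n0) (h : ℝ) (hh : 0 ≤ h)
    (hf : D.f h ≤ 0) (ℓ : ℕ) (hℓ : n0 ≤ ℓ) (u0 : ℝ)
    (hu0 : u0 = Real.exp ((2 * (1 + D.α))⁻¹ * (Real.log (2 / c0) + (1 + D.α) * Real.log ℓ + 1))) :
    ∫ ω, Real.exp ((2 * (1 + D.α))⁻¹ * D.lG h 0 ℓ ω) ∂D.P ≤ (2 + D.α) * u0 := by
  have hα := D.hα
  have ha : 0 < 1 + D.α := by linarith
  have hu0p : 0 < u0 := by rw [hu0]; exact Real.exp_pos _
  have hm : Measurable (fun ω => Real.exp ((2 * (1 + D.α))⁻¹ * D.lG h 0 ℓ ω)) :=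
    ((h98_lG_meas D h 0 ℓ).const_mul _).exp
  have hnn : 0 ≤ᵐ[D.P] (fun ω => Real.exp ((2 * (1 + D.α))⁻¹ * D.lG h 0 ℓ ω)) :=
    Filter.Eventually.of_forall fun ω => (Real.exp_pos _).le
  rw [integral_eq_lintegral_of_nonneg_ae hnn hm.aestronglyMeasurable]
  apply ENNReal.toReal_le_of_le_ofReal (by positivity)
  rw [lintegral_eq_lintegral_meas_le _ hnn hm.aemeasurable]
  rw [← Set.Ioc_union_Ioi_eq_Ioi hu0p.le]
  refine (lintegral_union_le _ _ _).trans ?_
  rw [show (2 + D.α) * u0 = u0 + (1 + D.α) * u0 by ring, ENNReal.ofReal_add hu0p.le (by positivity)]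
  apply add_le_add
  · calc ∫⁻ t in Set.Ioc 0 u0, D.P {a | t ≤ Real.exp ((2 * (1 + D.α))⁻¹ * D.lG h 0 ℓ a)}
        ≤ ∫⁻ t in Set.Ioc 0 u0, 1 := lintegral_mono fun t => prob_le_one
      _ = ENNReal.ofReal u0 := by simp
  · have hint : IntegrableOn (fun t : ℝ => (1 + D.α) * u0 ^ 2 * t ^ (-2 : ℝ)) (Set.Ioi u0) :=
      (integrableOn_Ioi_rpow_of_lt (by norm_num) hu0p).const_mul _
    calc ∫⁻ t in Set.Ioi u0, D.P {a | t ≤ Real.exp ((2 * (1 + D.α))⁻¹ * D.lG h 0 ℓ a)}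
        ≤ ∫⁻ t in Set.Ioi u0, ENNReal.ofReal ((1 + D.α) * u0 ^ 2 * t ^ (-2 : ℝ)) := by
          apply setLIntegral_mono' measurableSet_Ioi
          intro t ht
          have := h98_tail D c0 n0 hK h hh hf ℓ hℓ u0 t hu0 (le_of_lt ht)
          rw [Measure.real] at this
          exact (ENNReal.le_ofReal_iff_toReal_le (measure_ne_top _ _)
            (ENNReal.toReal_nonneg.trans this)).2 this
      _ = ENNReal.ofReal (∫ t in Set.Ioi u0, (1 + D.α) * u0 ^ 2 * t ^ (-2 : ℝ)) := by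
          rw [ofReal_integral_eq_lintegral_ofReal hint]
          rw [EventuallyLE, ae_restrict_iff' measurableSet_Ioi]
          filter_upwards with t ht
          have : 0 < t := hu0p.trans ht
          simp only [Pi.zero_apply]
          positivity
      _ = ENNReal.ofReal ((1 + D.α) * u0) := by
          congr 1
          rw [integral_const_mul, integral_Ioi_rpow_of_lt (by norm_num) hu0p]
          rw [show (-2 + 1 : ℝ) = -1 by norm_num, Real.rpow_neg_one]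
          field_simp
      _ ≤ _ := le_rfl

theorem h98_crit (D : Data) (c0 : ℝ) (n0 : ℕ) (hK : KHyp D.K D.α c0 n0) (h : ℝ) (hh : 0 ≤ h)
    (hf : D.f h ≤ 0) : ∃ C, 0 ≤ C ∧ ∀ ℓ : ℕ, n0 ≤ ℓ →
    Real.log (∫ ω, Real.exp ((2 * (1 + D.α))⁻¹ * D.lG h 0 ℓ ω) ∂D.P) ≤ C * (1 + Real.log ℓ) := by
  have hα := D.hα
  have ha : 0 < 1 + D.α := by linarith
  have hc0 := hK.c0_pos
  have hc1 := hK.c0_le
  have hn0 := hK.n0_pos
  have hl2 : 0 ≤ Real.log (2 / c0) := Real.log_nonneg (by rw [le_div_iff₀ hc0]; linarith)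
  have hlα : 0 ≤ Real.log (2 + D.α) := Real.log_nonneg (by linarith)
  refine ⟨Real.log (2 + D.α) + (2 * (1 + D.α))⁻¹ * (Real.log (2 / c0) + (1 + D.α) + 1),
    by positivity, ?_⟩
  intro ℓ hℓ
  have hℓ1 : (1:ℝ) ≤ ℓ := by exact_mod_cast hn0.trans hℓ
  have hlog : 0 ≤ Real.log ℓ := Real.log_nonneg hℓ1
  have h1 := h98_frac D c0 n0 hK h hh hf ℓ hℓ _ rfl
  set I := ∫ ω, Real.exp ((2 * (1 + D.α))⁻¹ * D.lG h 0 ℓ ω) ∂D.P with hI
  have hpos : 0 ≤ (Real.log (2 + D.α) + (2 * (1 + D.α))⁻¹ * (Real.log (2 / c0) + (1 + D.α) + 1)) *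
      (1 + Real.log ℓ) := by positivity
  rcases lt_or_ge 0 I with hI0 | hI0
  · have h2 := Real.log_le_log hI0 h1
    rw [Real.log_mul (by positivity) (Real.exp_pos _).ne', Real.log_exp] at h2
    refine h2.trans ?_
    have e1 : Real.log (2 + D.α) ≤ Real.log (2 + D.α) * (1 + Real.log ℓ) := by nlinarith
    have e2 : (Real.log (2 / c0) + (1 + D.α) * Real.log ℓ + 1) ≤
        (Real.log (2 / c0) + (1 + D.α) + 1) * (1 + Real.log ℓ) := by nlinarith
    have e3 := mul_le_mul_of_nonneg_left e2 (by positivity : 0 ≤ (2 * (1 + D.α))⁻¹)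
    nlinarith
  · have : I = 0 := le_antisymm hI0 (integral_nonneg fun ω => (Real.exp_pos _).le)
    rw [this, Real.log_zero]
    exact hpos

end Cop764
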