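import Pool.Agent.Helper98.Cop.Mat

set_option autoImplicit false

/-! # Gaussian product measure: density, integration by parts, transport inequality -/

namespace H98Cop

open MeasureTheory ProbabilityTheory Filter Topology Matrix
open scoped ENNReal NNReal

variable {ι : Type*} [Fintype ι]

/-- product standard Gaussian measure -/
noncomputable def gm (ι : Type*) [Fintype ι] : Measure (ι → ℝ) :=
  Measure.pi (fun _ : ι => gaussianReal 0 1)

instance : IsProbabilityMeasure (gm ι) := by unfold gm; infer_instance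

/-- Gaussian density -/
noncomputable def rho (x : ι → ℝ) : ℝ := ∏ i, gaussianPDFReal 0 1 (x i)

theorem rho_eq (x : ι → ℝ) :
    rho x = (√(2 * Real.pi))⁻¹ ^ (Fintype.card ι) * Real.exp (-(∑ i, x i ^ 2) / 2) := by
  unfold rho
  have : ∀ i, gaussianPDFReal 0 1 (x i) = (√(2 * Real.pi))⁻¹ * Real.exp (-(x i)^2 / 2) := by
    intro i; rw [gaussianPDFReal_def]; simp
  simp_rw [this]
  rw [Finset.prod_mul_distrib, Finset.prod_const, ← Real.exp_sum, Finset.card_univ]
  congr 2
  rw [← Finset.sum_neg_distrib, Finset.sum_div]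

theorem rho_pos (x : ι → ℝ) : 0 < rho x :=
  Finset.prod_pos fun i _ => gaussianPDFReal_pos _ _ _ one_ne_zero

theorem continuous_rho : Continuous (rho (ι := ι)) := by
  have : rho (ι := ι) = fun x => (√(2 * Real.pi))⁻¹ ^ (Fintype.card ι) * Real.exp (-(∑ i, x i ^ 2) / 2) := by
    funext x; exact rho_eq x
  rw [this]; fun_prop

theorem rho_add (x s : ι → ℝ) :
    rho (x + s) = rho x * Real.exp (-(∑ i, x i * s i) - (∑ i, s i ^ 2) / 2) := by
  rw [rho_eq, rho_eq, mul_assoc, ← Real.exp_add]
  congr 2
  have : ∑ i, (x + s) i ^ 2 = ∑ i, x i ^ 2 + 2 * ∑ i, x i * s i + ∑ i, s i ^ 2 := by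
    rw [Finset.mul_sum, ← Finset.sum_add_distrib, ← Finset.sum_add_distrib]
    apply Finset.sum_congr rfl; intro i _; simp only [Pi.add_apply]; ring
  rw [this]; ring

theorem gm_eq : gm ι = (volume : Measure (ι → ℝ)).withDensity (fun x => ENNReal.ofReal (rho x)) := by
  unfold gm
  apply Measure.pi_eq
  intro s hs
  rw [withDensity_apply _ (MeasurableSet.univ_pi hs)]
  have hint : ∀ i, Integrable (gaussianPDFReal 0 1) ((volume : Measure ℝ).restrict (s i)) :=
    fun i => (integrable_gaussianPDFReal 0 1).integrableOn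
  have h1 : (volume : Measure (ι → ℝ)).restrict (Set.univ.pi s)
      = Measure.pi (fun i => (volume : Measure ℝ).restrict (s i)) := by
    rw [volume_pi, Measure.restrict_pi_pi]
  rw [h1]
  have h2 : Integrable (fun x : ι → ℝ => rho x) (Measure.pi (fun i => (volume : Measure ℝ).restrict (s i))) := by
    unfold rho
    exact Integrable.fintype_prod (f := fun _ : ι => gaussianPDFReal 0 1) hint
  rw [← ofReal_integral_eq_lintegral_ofReal h2 (Filter.Eventually.of_forall fun x => (rho_pos x).le)]
  unfold rho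
  rw [integral_fintype_prod_eq_prod (fun (_ : ι) => gaussianPDFReal 0 1)]
  rw [ENNReal.ofReal_prod_of_nonneg]
  · apply Finset.prod_congr rfl
    intro i _
    rw [gaussianReal_apply_eq_integral 0 one_ne_zero]
  · intro i _
    exact integral_nonneg fun x => gaussianPDFReal_nonneg _ _ _

theorem measurable_rho : Measurable (rho (ι := ι)) := continuous_rho.measurable

theorem integrable_gm_iff (f : (ι → ℝ) → ℝ) :
    Integrable f (gm ι) ↔ Integrable (fun x => rho x * f x) volume := by
  rw [gm_eq]
  rw [integrable_withDensity_iff_integrable_smul₀' (measurable_rho.ennreal_ofReal.aemeasurable)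
    (Filter.Eventually.of_forall fun x => ENNReal.ofReal_lt_top)]
  apply integrable_congr
  filter_upwards with x
  rw [ENNReal.toReal_ofReal (rho_pos x).le, smul_eq_mul]

theorem integral_gm (f : (ι → ℝ) → ℝ) :
    ∫ x, f x ∂(gm ι) = ∫ x, rho x * f x := by
  rw [gm_eq]
  rw [integral_withDensity_eq_integral_toReal_smul (measurable_rho.ennreal_ofReal)
    (Filter.Eventually.of_forall fun x => ENNReal.ofReal_lt_top)]
  apply integral_congr_ae
  filter_upwards with x
  rw [ENNReal.toReal_ofReal (rho_pos x).le, smul_eq_mul]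

/-- coordinates -/
noncomputable abbrev pj (i : ι) : (ι → ℝ) →L[ℝ] ℝ :=
  ContinuousLinearMap.proj (R := ℝ) (φ := fun _ : ι => ℝ) i

theorem hasFDerivAt_rho (x : ι → ℝ) :
    HasFDerivAt (rho (ι := ι)) (∑ i, (-(rho x * x i)) • pj i) x := by
  have e : rho (ι := ι) = fun x => (√(2 * Real.pi))⁻¹ ^ (Fintype.card ι) * Real.exp (-(∑ i, x i ^ 2) / 2) := by
    funext x; exact rho_eq x
  have h1 : HasFDerivAt (fun x : ι → ℝ => ∑ i, x i ^ 2) (∑ i, (2 * x i) • pj i) x := by
    apply HasFDerivAt.fun_sum
    intro i _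
    have h2 := ((pj i).hasFDerivAt (x := x)).pow 2
    convert! h2 using 1
    simp
  have h3 : HasFDerivAt (fun x : ι → ℝ => -(∑ i, x i ^ 2) / 2) ((-(1:ℝ)/2) • ∑ i, (2 * x i) • pj i) x := by
    have := h1.const_mul (-(1:ℝ)/2)
    refine this.congr_of_eventuallyEq (Filter.Eventually.of_forall fun y => ?_)
    ring
  have h4 := (h3.exp).const_mul ((√(2 * Real.pi))⁻¹ ^ (Fintype.card ι))
  rw [e]
  refine h4.congr_fderiv ?_
  rw [Finset.smul_sum, Finset.smul_sum, Finset.smul_sum]
  apply Finset.sum_congr rfl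
  intro i _
  rw [smul_smul, smul_smul, smul_smul]
  congr 1
  ring

variable [DecidableEq ι]

/-- Gaussian integration by parts -/
theorem gauss_ibp (i : ι) (f : (ι → ℝ) → ℝ) (f' : (ι → ℝ) → ((ι → ℝ) →L[ℝ] ℝ))
    (hf : ∀ x, HasFDerivAt f (f' x) x)
    (h0 : Integrable f (gm ι)) (h1 : Integrable (fun x => x i * f x) (gm ι))
    (h2 : Integrable (fun x => f' x (Pi.single i 1)) (gm ι)) :
    ∫ x, x i * f x ∂(gm ι) = ∫ x, f' x (Pi.single i 1) ∂(gm ι) := by
  rw [integral_gm, integral_gm]
  rw [integrable_gm_iff] at h0 h1 h2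
  have hrho' : ∀ x : ι → ℝ, (∑ j, (-(rho x * x j)) • pj j) (Pi.single i 1) = -(rho x * x i) := by
    intro x
    simp [Pi.single_apply]
  have key := integral_bilinear_hasFDerivAt_right_eq_neg_left_of_integrable
    (μ := (volume : Measure (ι → ℝ))) (B := ContinuousLinearMap.mul ℝ ℝ)
    (f := rho (ι := ι)) (f' := fun x => ∑ j, (-(rho x * x j)) • pj j) (g := f) (g' := f')
    (v := Pi.single i 1) ?_ ?_ ?_ ?_ ?_
  · simp only [ContinuousLinearMap.mul_apply'] at key
    rw [key, ← integral_neg]
    apply integral_congr_ae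
    filter_upwards with x
    rw [hrho']; ring
  · simp only [ContinuousLinearMap.mul_apply']
    refine (h1.neg).congr (Filter.Eventually.of_forall fun x => ?_)
    simp only [Pi.neg_apply]
    rw [hrho']; ring
  · simpa only [ContinuousLinearMap.mul_apply'] using h2
  · simpa only [ContinuousLinearMap.mul_apply'] using h0
  · intro x _; exact hasFDerivAt_rho x
  · intro x _; exact hf x

/-- coordinates have all moments / exponential moments under `gm` -/
theorem integrable_exp_abs (c : ℝ) : Integrable (fun x : ι → ℝ => Real.exp (c * ∑ i, |x i|)) (gm ι) := by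
  have h : Integrable (fun x : ι → ℝ => ∏ i, Real.exp (c * |x i|)) (gm ι) := by
    unfold gm
    apply Integrable.fintype_prod (f := fun (_ : ι) (y : ℝ) => Real.exp (c * |y|))
    intro i
    have h1 := integrable_exp_mul_gaussianReal (μ := 0) (v := 1) c
    have h2 := integrable_exp_mul_gaussianReal (μ := 0) (v := 1) (-c)
    refine (h1.add h2).mono' (by fun_prop) (Filter.Eventually.of_forall fun y => ?_)
    rw [Real.norm_eq_abs, abs_of_pos (Real.exp_pos _)]
    simp only [Pi.add_apply]
    rcases abs_cases y with ⟨h, _⟩ | ⟨h, _⟩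
    · rw [h]; have := Real.exp_pos (-c * y); linarith
    · rw [h]; have := Real.exp_pos (c * y)
      rw [show c * -y = -c * y by ring]; linarith
  refine h.congr (Filter.Eventually.of_forall fun x => ?_)
  simp only
  rw [← Real.exp_sum, Finset.mul_sum]

theorem integrable_of_le_exp (f : (ι → ℝ) → ℝ) (hf : AEStronglyMeasurable f (gm ι)) (C c : ℝ)
    (h : ∀ x, |f x| ≤ C * Real.exp (c * ∑ i, |x i|)) : Integrable f (gm ι) :=
  ((integrable_exp_abs c).const_mul C).mono' hf (Filter.Eventually.of_forall fun x => by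
    rw [Real.norm_eq_abs]; exact h x)

theorem integrable_of_le_lin (f : (ι → ℝ) → ℝ) (hf : AEStronglyMeasurable f (gm ι)) (C D : ℝ)
    (hC : 0 ≤ C) (hD : 0 ≤ D)
    (h : ∀ x, |f x| ≤ C + D * ∑ i, |x i|) : Integrable f (gm ι) := by
  apply integrable_of_le_exp f hf (C + D) 1
  intro x
  have hs : 0 ≤ ∑ i, |x i| := Finset.sum_nonneg fun i _ => abs_nonneg _
  have h1 := Real.add_one_le_exp (∑ i, |x i|)
  have h2 := h x
  rw [one_mul]
  have h3 : 1 ≤ Real.exp (∑ i, |x i|) := by linarith
  nlinarith

/-- **Transport inequality.** -/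
theorem transport (S : (ι → ℝ) → (ι → ℝ)) (A : (ι → ℝ) → Matrix ι ι ℝ) (B : ℝ)
    (hS : ∀ x i, HasFDerivAt (fun x => S x i) (∑ j, A x i j • pj j) x)
    (hpsd : ∀ x, (A x).PosSemidef)
    (hmon : ∀ x y, 0 ≤ ∑ i, (S x i - S y i) * (x i - y i))
    (hSb : ∀ x i, |S x i| ≤ B) (hAb : ∀ x i j, |A x i j| ≤ B)
    (hAc : ∀ i j, Continuous (fun x => A x i j))
    (g : (ι → ℝ) → ℝ) (hg : Continuous g)
    (hgint : Integrable (fun x => Real.exp (g x)) (gm ι))
    (hgT : Integrable (fun x => g (x + S x)) (gm ι)) :
    ∫ x, g (x + S x) ∂(gm ι) - (∫ x, (A x * A x).trace ∂(gm ι)) / 2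
      - (∫ x, ∑ i, S x i ^ 2 ∂(gm ι)) / 2 ≤ Real.log (∫ x, Real.exp (g x) ∂(gm ι)) := by
  have hB : 0 ≤ B ∨ IsEmpty ι := by
    by_cases h : IsEmpty ι
    · exact Or.inr h
    · left
      rw [not_isEmpty_iff] at h
      obtain ⟨i⟩ := h
      exact (abs_nonneg _).trans (hSb 0 i)
  have hSc : ∀ i, Continuous (fun x => S x i) := fun i =>
    continuous_iff_continuousAt.2 fun x => (hS x i).continuousAt
  have hSc' : Continuous S := continuous_pi hSc
  set T : (ι → ℝ) → (ι → ℝ) := fun x => x + S x with hT
  have hTc : Continuous T := continuous_id.add hSc'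
  -- derivative of T
  set T' : (ι → ℝ) → ((ι → ℝ) →L[ℝ] (ι → ℝ)) := fun x =>
    LinearMap.toContinuousLinearMap (Matrix.toLin' (1 + A x)) with hT'
  have hTd : ∀ x, HasFDerivAt T (T' x) x := by
    intro x
    rw [hasFDerivAt_pi']
    intro i
    have h1 : HasFDerivAt (fun x : ι → ℝ => x i + S x i) (pj i + ∑ j, A x i j • pj j) x :=
      ((pj i).hasFDerivAt).add (hS x i)
    refine h1.congr_fderiv ?_
    ext v
    simp only [ContinuousLinearMap.add_apply, ContinuousLinearMap.proj_apply,
      ContinuousLinearMap.coe_comp', Function.comp_apply, hT', LinearMap.coe_toContinuousLinearMap',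
      Matrix.toLin'_apply, Matrix.add_mulVec, Matrix.one_mulVec, Pi.add_apply, Matrix.mulVec, dotProduct]
    simp
  have hdet : ∀ x, (T' x).det = (1 + A x).det := by
    intro x
    rw [hT']
    simp only
    rw [LinearMap.det_toContinuousLinearMap, LinearMap.det_toLin']
  have hinj : Function.Injective T := by
    intro x y hxy
    have h1 := hmon x y
    have h2 : ∀ i, S x i - S y i = -(x i - y i) := by
      intro i
      have := congrFun hxy i
      simp only [hT, Pi.add_apply] at this
      linarith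
    simp_rw [h2] at h1
    have h3 : ∑ i, -(x i - y i) * (x i - y i) = -∑ i, (x i - y i)^2 := by
      rw [← Finset.sum_neg_distrib]; apply Finset.sum_congr rfl; intro i _; ring
    rw [h3] at h1
    have h4 : ∑ i, (x i - y i)^2 = 0 :=
      le_antisymm (by linarith) (Finset.sum_nonneg fun i _ => sq_nonneg _)
    rw [Finset.sum_eq_zero_iff_of_nonneg (fun i _ => sq_nonneg _)] at h4
    funext i
    have := h4 i (Finset.mem_univ i)
    rw [sq_eq_zero_iff] at this
    linarith
  -- change of variables
  have hgv : Integrable (fun x => rho x * Real.exp (g x)) volume := (integrable_gm_iff _).1 hgint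
  have hcv := integral_image_eq_integral_abs_det_fderiv_smul (volume : Measure (ι → ℝ))
    (MeasurableSet.univ) (fun x _ => (hTd x).hasFDerivWithinAt) (hinj.injOn)
    (fun x => rho x * Real.exp (g x))
  have hci := (integrableOn_image_iff_integrableOn_abs_det_fderiv_smul (volume : Measure (ι → ℝ))
    (MeasurableSet.univ) (fun x _ => (hTd x).hasFDerivWithinAt) (hinj.injOn)
    (fun x => rho x * Real.exp (g x))).1 hgv.integrableOn
  rw [integrableOn_univ] at hci
  simp only [Measure.restrict_univ] at hcv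
  set H : (ι → ℝ) → ℝ := fun x => g (x + S x) + (A x).trace - (A x * A x).trace / 2
    - (∑ i, x i * S x i) - (∑ i, S x i ^ 2) / 2 with hH
  have hHc : Continuous H := by
    have c1 : Continuous (fun x => (A x).trace) := by
      unfold Matrix.trace; simp only [Matrix.diag_apply]
      exact continuous_finsetSum _ fun i _ => hAc i i
    have c2 : Continuous (fun x => (A x * A x).trace) := by
      unfold Matrix.trace; simp only [Matrix.diag_apply, Matrix.mul_apply]
      exact continuous_finsetSum _ fun i _ => continuous_finsetSum _ fun j _ => (hAc i j).mul (hAc j i)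
    have c3 : Continuous (fun x : ι → ℝ => ∑ i, x i * S x i) :=
      continuous_finsetSum _ fun i _ => (continuous_apply i).mul (hSc i)
    have c4 : Continuous (fun x => ∑ i, S x i ^ 2) :=
      continuous_finsetSum _ fun i _ => (hSc i).pow 2
    exact ((((hg.comp hTc).add c1).sub (c2.div_const 2)).sub c3).sub (c4.div_const 2)
  have hpt : ∀ x, rho x * Real.exp (H x) ≤ |(T' x).det| • (rho (T x) * Real.exp (g (T x))) := by
    intro x
    obtain ⟨d1, d2⟩ := logdet_ge (A x) (hpsd x)
    rw [hdet, abs_of_pos d1, smul_eq_mul, hT]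
    simp only
    rw [rho_add]
    have e1 : (1 + A x).det = Real.exp (Real.log (1 + A x).det) := (Real.exp_log d1).symm
    rw [e1]
    have e2 : Real.exp (Real.log (1 + A x).det) * (rho x * Real.exp (-(∑ i, x i * S x i) - (∑ i, S x i ^ 2) / 2)
        * Real.exp (g (x + S x)))
        = rho x * Real.exp (Real.log (1 + A x).det + (-(∑ i, x i * S x i) - (∑ i, S x i ^ 2) / 2) + g (x + S x)) := by
      rw [Real.exp_add, Real.exp_add]; ring
    rw [e2]
    apply mul_le_mul_of_nonneg_left _ (rho_pos x).le
    apply Real.exp_le_exp.2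
    rw [hH]
    simp only
    linarith
  have hExpH : Integrable (fun x => Real.exp (H x)) (gm ι) := by
    rw [integrable_gm_iff]
    refine hci.mono' (by
      exact (continuous_rho.mul (Real.continuous_exp.comp hHc)).aestronglyMeasurable)
      (Filter.Eventually.of_forall fun x => ?_)
    rw [Real.norm_eq_abs, abs_of_pos (mul_pos (rho_pos x) (Real.exp_pos _))]
    exact hpt x
  have hineq : ∫ x, Real.exp (H x) ∂(gm ι) ≤ ∫ x, Real.exp (g x) ∂(gm ι) := by
    rw [integral_gm, integral_gm]
    calc ∫ x, rho x * Real.exp (H x) ≤ ∫ x, |(T' x).det| • (rho (T x) * Real.exp (g (T x))) := by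
          apply integral_mono ((integrable_gm_iff _).1 hExpH) hci
          exact hpt
      _ = ∫ x in T '' Set.univ, rho x * Real.exp (g x) := hcv.symm
      _ ≤ ∫ x, rho x * Real.exp (g x) := by
          apply setIntegral_le_integral hgv
          exact Filter.Eventually.of_forall fun x => (mul_pos (rho_pos x) (Real.exp_pos _)).le
  -- integrability of the pieces
  set B' : ℝ := max B 0 with hB'
  have hB'0 : 0 ≤ B' := le_max_right _ _
  have hSb' : ∀ x i, |S x i| ≤ B' := fun x i => (hSb x i).trans (le_max_left _ _)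
  have hAb' : ∀ x i j, |A x i j| ≤ B' := fun x i j => (hAb x i j).trans (le_max_left _ _)
  have i1 : ∀ i j, Integrable (fun x => A x i j) (gm ι) := fun i j =>
    integrable_of_le_lin _ (hAc i j).aestronglyMeasurable B' 0 hB'0 le_rfl (fun x => by
      have := hAb' x i j; simpa using this)
  have i2 : Integrable (fun x => (A x).trace) (gm ι) := by
    unfold Matrix.trace; simp only [Matrix.diag_apply]
    exact integrable_finsetSum _ fun i _ => i1 i i
  have i3 : Integrable (fun x => (A x * A x).trace) (gm ι) := by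
    unfold Matrix.trace; simp only [Matrix.diag_apply, Matrix.mul_apply]
    refine integrable_finsetSum _ fun i _ => integrable_finsetSum _ fun j _ => ?_
    refine integrable_of_le_lin _ ((hAc i j).mul (hAc j i)).aestronglyMeasurable (B' * B') 0
      (mul_nonneg hB'0 hB'0) le_rfl (fun x => ?_)
    rw [abs_mul, zero_mul, add_zero]
    exact mul_le_mul (hAb' x i j) (hAb' x j i) (abs_nonneg _) hB'0
  have i4 : ∀ i, Integrable (fun x : ι → ℝ => x i * S x i) (gm ι) := by
    intro i
    refine integrable_of_le_lin _ ((continuous_apply i).mul (hSc i)).aestronglyMeasurable 0 B'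
      le_rfl hB'0 (fun x => ?_)
    rw [abs_mul, zero_add, mul_comm]
    apply mul_le_mul (hSb' x i) _ (abs_nonneg _) hB'0
    exact Finset.single_le_sum (f := fun i => |x i|) (fun i _ => abs_nonneg _) (Finset.mem_univ i)
  have i5 : Integrable (fun x => ∑ i, S x i ^ 2) (gm ι) := by
    refine integrable_finsetSum _ fun i _ => ?_
    refine integrable_of_le_lin _ ((hSc i).pow 2).aestronglyMeasurable (B' * B') 0
      (mul_nonneg hB'0 hB'0) le_rfl (fun x => ?_)
    rw [abs_pow, sq, zero_mul, add_zero]
    exact mul_le_mul (hSb' x i) (hSb' x i) (abs_nonneg _) hB'0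
  have i6 : Integrable (fun x : ι → ℝ => ∑ i, x i * S x i) (gm ι) :=
    integrable_finsetSum _ fun i _ => i4 i
  have iH : Integrable H (gm ι) :=
    (((hgT.add i2).sub (i3.div_const 2)).sub i6).sub (i5.div_const 2)
  -- Jensen
  have hJ : Real.exp (∫ x, H x ∂(gm ι)) ≤ ∫ x, Real.exp (H x) ∂(gm ι) :=
    convexOn_exp.map_integral_le Real.continuous_exp.continuousOn isClosed_univ
      (Filter.Eventually.of_forall fun x => Set.mem_univ _) iH hExpH
  have hlog : ∫ x, H x ∂(gm ι) ≤ Real.log (∫ x, Real.exp (g x) ∂(gm ι)) := by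
    rw [← Real.log_exp (∫ x, H x ∂(gm ι))]
    exact Real.log_le_log (Real.exp_pos _) (hJ.trans hineq)
  -- integration by parts
  have hibp : ∫ x, ∑ i, x i * S x i ∂(gm ι) = ∫ x, (A x).trace ∂(gm ι) := by
    unfold Matrix.trace; simp only [Matrix.diag_apply]
    rw [integral_finsetSum _ (fun i _ => i4 i), integral_finsetSum _ (fun i _ => i1 i i)]
    apply Finset.sum_congr rfl
    intro i _
    have hval : ∀ x, (∑ j, A x i j • pj j) (Pi.single i 1) = A x i i := by
      intro x; simp [Pi.single_apply]
    have := gauss_ibp i (fun x => S x i) (fun x => ∑ j, A x i j • pj j) (fun x => hS x i)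
      (integrable_of_le_lin _ (hSc i).aestronglyMeasurable B' 0 hB'0 le_rfl (fun x => by
        have := hSb' x i; simpa using this)) (i4 i) (by simp_rw [hval]; exact i1 i i)
    rw [this]; simp_rw [hval]
  have hIH : ∫ x, H x ∂(gm ι) = ∫ x, g (x + S x) ∂(gm ι) - (∫ x, (A x * A x).trace ∂(gm ι)) / 2
      - (∫ x, ∑ i, S x i ^ 2 ∂(gm ι)) / 2 := by
    have e : H = ((((fun x => g (x + S x)) + (fun x => (A x).trace)) - (fun x => (A x * A x).trace / 2))
        - (fun x => ∑ i, x i * S x i)) - (fun x => (∑ i, S x i ^ 2) / 2) := rfl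
    rw [e, integral_sub' (((hgT.add i2).sub (i3.div_const 2)).sub i6) (i5.div_const 2),
      integral_sub' ((hgT.add i2).sub (i3.div_const 2)) i6,
      integral_sub' (hgT.add i2) (i3.div_const 2), integral_add' hgT i2,
      integral_div, integral_div, hibp]
    ring
  rw [← hIH]; exact hlog

end H98Cop
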