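import Pool.Agent.Helper98.Cop.Gibbs
import Pool.Agent.Helper98.Cop.Gauss

set_option autoImplicit false

/-! # Averaged Gibbs fields -/

namespace H98Cop

open MeasureTheory ProbabilityTheory Filter Topology Matrix

variable {ι : Type*} [Fintype ι] [DecidableEq ι]

/-- average of `P_i(y+u)` over `u ∈ [a, 2a]` -/
noncomputable def avgP (p : Finset ι → ℝ) (i : ι) (a : ℝ) (y : ι → ℝ) : ℝ :=
  a⁻¹ * ∫ u in a..(2*a), Pr p i (sh y u)

/-- average of `C_ij(y+u)` over `u ∈ [a, 2a]` -/
noncomputable def avgC (p : Finset ι → ℝ) (i j : ι) (a : ℝ) (y : ι → ℝ) : ℝ :=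
  a⁻¹ * ∫ u in a..(2*a), Cv p i j (sh y u)

omit [Fintype ι] [DecidableEq ι] in
theorem continuous_sh : Continuous (fun q : (ι → ℝ) × ℝ => sh q.1 q.2) := by
  unfold sh; fun_prop

omit [Fintype ι] [DecidableEq ι] in
theorem continuous_sh_right (y : ι → ℝ) : Continuous (fun u : ℝ => sh y u) := by
  unfold sh; fun_prop

theorem le_avg {f : ℝ → ℝ} (hf : Continuous f) {a m : ℝ} (ha : 0 < a)
    (h : ∀ u, a ≤ u → u ≤ 2*a → m ≤ f u) : m ≤ a⁻¹ * ∫ u in a..(2*a), f u := by
  have h1 : ∫ _u in a..(2*a), m ≤ ∫ u in a..(2*a), f u := by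
    apply intervalIntegral.integral_mono_on (by linarith) (by simp) (hf.intervalIntegrable _ _)
    intro u hu; exact h u hu.1 hu.2
  rw [intervalIntegral.integral_const, smul_eq_mul, show 2*a - a = a by ring] at h1
  rw [inv_mul_eq_div, le_div_iff₀ ha]; linarith

theorem avg_le {f : ℝ → ℝ} (hf : Continuous f) {a m : ℝ} (ha : 0 < a)
    (h : ∀ u, a ≤ u → u ≤ 2*a → f u ≤ m) : a⁻¹ * ∫ u in a..(2*a), f u ≤ m := by
  have h1 : ∫ u in a..(2*a), f u ≤ ∫ _u in a..(2*a), m := by
    apply intervalIntegral.integral_mono_on (by linarith) (hf.intervalIntegrable _ _) (by simp)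
    intro u hu; exact h u hu.1 hu.2
  rw [intervalIntegral.integral_const, smul_eq_mul, show 2*a - a = a by ring] at h1
  rw [inv_mul_eq_div, div_le_iff₀ ha]; linarith

namespace PW

variable {p : Finset ι → ℝ} (hp : PW p)
include hp

theorem contP (i : ι) (y : ι → ℝ) : Continuous (fun u => Pr p i (sh y u)) :=
  (hp.continuous_Pr i).comp (continuous_sh_right y)

theorem contC (i j : ι) (y : ι → ℝ) : Continuous (fun u => Cv p i j (sh y u)) :=
  (hp.continuous_Cv i j).comp (continuous_sh_right y)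

theorem le_avgP (i : ι) {a : ℝ} (ha : 0 < a) (y : ι → ℝ) : Pr p i (sh y a) ≤ avgP p i a y :=
  le_avg (hp.contP i y) ha fun u h1 _ => hp.Pr_mono i fun j => by unfold sh; linarith

theorem avgP_le (i : ι) {a : ℝ} (ha : 0 < a) (y : ι → ℝ) : avgP p i a y ≤ Pr p i (sh y (2*a)) :=
  avg_le (hp.contP i y) ha fun u _ h2 => hp.Pr_mono i fun j => by unfold sh; linarith

theorem avgP_nonneg (i : ι) {a : ℝ} (ha : 0 < a) (y : ι → ℝ) : 0 ≤ avgP p i a y :=
  (hp.Pr_nonneg i _).trans (hp.le_avgP i ha y)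

theorem avgP_le_one (i : ι) {a : ℝ} (ha : 0 < a) (y : ι → ℝ) : avgP p i a y ≤ 1 :=
  (hp.avgP_le i ha y).trans (hp.Pr_le_one i _)

theorem avgC_nonneg (i j : ι) {a : ℝ} (ha : 0 < a) (y : ι → ℝ) : 0 ≤ avgC p i j a y :=
  le_avg (hp.contC i j y) ha fun u _ _ => hp.Cv_nonneg i j _

theorem avgC_le_one (i j : ι) {a : ℝ} (ha : 0 < a) (y : ι → ℝ) : avgC p i j a y ≤ 1 :=
  avg_le (hp.contC i j y) ha fun u _ _ => hp.Cv_le_one i j _

omit hp in
theorem avgC_symm (i j : ι) (a : ℝ) (y : ι → ℝ) : avgC p i j a y = avgC p j i a y := by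
  unfold avgC; simp_rw [Cv_symm i j]

theorem avgC_self_le (i : ι) {a : ℝ} (ha : 0 < a) (y : ι → ℝ) :
    avgC p i i a y ≤ Pr p i (sh y (2*a)) :=
  avg_le (hp.contC i i y) ha fun u _ h2 => (hp.Cv_self_le i _).trans
    (hp.Pr_mono i fun j => by unfold sh; linarith)

theorem avgC_le_half (i j : ι) {a : ℝ} (ha : 0 < a) (y : ι → ℝ) :
    2 * avgC p i j a y ≤ avgC p i i a y + avgC p j j a y := by
  unfold avgC
  have h1 : ∫ u in a..(2*a), 2 * Cv p i j (sh y u)
      ≤ ∫ u in a..(2*a), (Cv p i i (sh y u) + Cv p j j (sh y u)) := by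
    apply intervalIntegral.integral_mono_on (by linarith)
      (((hp.contC i j y).const_mul 2).intervalIntegrable _ _)
      (((hp.contC i i y).add (hp.contC j j y)).intervalIntegrable _ _)
    intro u _; exact hp.Cv_le_half i j _
  rw [intervalIntegral.integral_const_mul, intervalIntegral.integral_add
    ((hp.contC i i y).intervalIntegrable _ _) ((hp.contC j j y).intervalIntegrable _ _)] at h1
  have ha' : 0 < a⁻¹ := inv_pos.2 ha
  nlinarith

theorem avgC_rowsum (i : ι) {a : ℝ} (ha : 0 < a) (y : ι → ℝ) : ∑ j, avgC p i j a y ≤ a⁻¹ := by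
  unfold avgC
  rw [← Finset.mul_sum, ← intervalIntegral.integral_finsetSum
    (fun j _ => (hp.contC i j y).intervalIntegrable _ _)]
  have h1 : ∫ u in a..(2*a), ∑ j, Cv p i j (sh y u) = Pr p i (sh y (2*a)) - Pr p i (sh y a) := by
    have h5 := intervalIntegral.integral_eq_sub_of_hasDerivAt (a := a) (b := 2*a)
      (f := fun u => Pr p i (sh y u)) (f' := fun u => ∑ j, Cv p i j (sh y u))
      (fun u _ => hp.hasDerivAt_Pr_sh i y u)
      ((continuous_finsetSum _ fun j _ => hp.contC i j y).intervalIntegrable _ _)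
    exact h5
  rw [h1]
  have h2 := hp.Pr_le_one i (sh y (2*a))
  have h3 := hp.Pr_nonneg i (sh y a)
  have ha' : 0 < a⁻¹ := inv_pos.2 ha
  nlinarith

theorem avgC_psd {a : ℝ} (ha : 0 < a) (y c : ι → ℝ) : 0 ≤ ∑ i, ∑ j, c i * c j * avgC p i j a y := by
  have h1 : ∑ i, ∑ j, c i * c j * avgC p i j a y
      = a⁻¹ * ∫ u in a..(2*a), ∑ i, ∑ j, c i * c j * Cv p i j (sh y u) := by
    unfold avgC
    rw [intervalIntegral.integral_finsetSum]
    · rw [Finset.mul_sum]
      apply Finset.sum_congr rfl; intro i _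
      rw [intervalIntegral.integral_finsetSum]
      · rw [Finset.mul_sum]
        apply Finset.sum_congr rfl; intro j _
        rw [intervalIntegral.integral_const_mul]; ring
      · intro j _
        exact ((hp.contC i j y).const_mul _).intervalIntegrable _ _
    · intro i _
      exact (continuous_finsetSum _ fun j _ => (hp.contC i j y).const_mul _).intervalIntegrable _ _
  rw [h1]
  exact le_avg (continuous_finsetSum _ fun i _ => continuous_finsetSum _ fun j _ =>
    (hp.contC i j y).const_mul _) ha fun u _ _ => hp.Cv_psd _ c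

theorem continuous_avgC (i j : ι) (a : ℝ) : Continuous (avgC p i j a) := by
  unfold avgC
  apply Continuous.const_mul
  apply intervalIntegral.continuous_parametric_intervalIntegral_of_continuous'
    (f := fun (y : ι → ℝ) (u : ℝ) => Cv p i j (sh y u))
  exact (hp.continuous_Cv i j).comp continuous_sh

theorem hasFDerivAt_avgP (i : ι) (a : ℝ) (y : ι → ℝ) :
    HasFDerivAt (avgP p i a) (∑ j, avgC p i j a y • pj j) y := by
  have hsh : ∀ (u : ℝ) (z : ι → ℝ), HasFDerivAt (fun z => Pr p i (sh z u))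
      (∑ j, Cv p i j (sh z u) • pj j) z := by
    intro u z
    have h1 : HasFDerivAt (fun z : ι → ℝ => sh z u) (ContinuousLinearMap.id ℝ (ι → ℝ)) z := by
      have : (fun z : ι → ℝ => sh z u) = fun z => z + (fun _ => u) := by
        funext z j; rfl
      rw [this]
      exact (hasFDerivAt_id z).add_const _
    have h2 := (hp.hasFDerivAt_Pr i (sh z u)).comp z h1
    exact h2
  have hcont' : Continuous (fun u => ∑ j, Cv p i j (sh y u) • (pj j : (ι → ℝ) →L[ℝ] ℝ)) :=
    continuous_finsetSum _ fun j _ => (hp.contC i j y).smul continuous_const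
  have h := intervalIntegral.hasFDerivAt_integral_of_dominated_of_fderiv_le (𝕜 := ℝ)
    (μ := volume) (a := a) (b := 2*a) (s := Set.univ) (x₀ := y)
    (F := fun z u => Pr p i (sh z u)) (F' := fun z u => ∑ j, Cv p i j (sh z u) • pj j)
    (bound := fun _ => ∑ j : ι, ‖(pj j : (ι → ℝ) →L[ℝ] ℝ)‖)
    Filter.univ_mem
    (Filter.Eventually.of_forall fun z => (hp.contP i z).aestronglyMeasurable)
    ((hp.contP i y).intervalIntegrable _ _)
    hcont'.aestronglyMeasurable
    (Filter.Eventually.of_forall fun u _ z _ => by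
      refine (norm_sum_le _ _).trans (Finset.sum_le_sum fun j _ => ?_)
      rw [norm_smul, Real.norm_eq_abs, abs_of_nonneg (hp.Cv_nonneg i j _)]
      exact mul_le_of_le_one_left (norm_nonneg _) (hp.Cv_le_one i j _))
    (by simp)
    (Filter.Eventually.of_forall fun u _ z _ => hsh u z)
  have h2 := h.const_mul a⁻¹
  have e : (a⁻¹ • ∫ u in a..(2*a), ∑ j, Cv p i j (sh y u) • (pj j : (ι → ℝ) →L[ℝ] ℝ))
      = ∑ j, avgC p i j a y • pj j := by
    rw [intervalIntegral.integral_finsetSum]
    · rw [Finset.smul_sum]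
      apply Finset.sum_congr rfl
      intro j _
      rw [intervalIntegral.integral_smul_const, smul_smul]; rfl
    · intro j _
      exact ((hp.contC i j y).smul continuous_const).intervalIntegrable _ _
  rw [e] at h2
  exact h2

theorem avgP_mono_grad {a : ℝ} (ha : 0 < a) (y z : ι → ℝ) :
    0 ≤ ∑ i, (avgP p i a y - avgP p i a z) * (y i - z i) := by
  have h1 : ∑ i, (avgP p i a y - avgP p i a z) * (y i - z i)
      = a⁻¹ * ∫ u in a..(2*a), ∑ i, (Pr p i (sh y u) - Pr p i (sh z u)) * (y i - z i) := by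
    unfold avgP
    rw [intervalIntegral.integral_finsetSum]
    · rw [Finset.mul_sum]
      apply Finset.sum_congr rfl; intro i _
      rw [intervalIntegral.integral_mul_const, intervalIntegral.integral_sub
        ((hp.contP i y).intervalIntegrable _ _) ((hp.contP i z).intervalIntegrable _ _)]
      ring
    · intro i _
      exact (((hp.contP i y).sub (hp.contP i z)).mul_const _).intervalIntegrable _ _
  rw [h1]
  apply le_avg (continuous_finsetSum _ fun i _ => ((hp.contP i y).sub (hp.contP i z)).mul_const _) ha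
  intro u _ _
  have := hp.grad_mono (sh y u) (sh z u)
  have e : ∀ i, sh y u i - sh z u i = y i - z i := by intro i; unfold sh; ring
  simp_rw [e] at this
  exact this

end PW

end H98Cop
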