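import Pool.Agent.Helper98.Cop.Field

set_option autoImplicit false

/-! # The finite volume transport inequality for the pinned copolymer -/

namespace H98Cop

open MeasureTheory ProbabilityTheory Filter Topology Matrix

variable {ι : Type*} [Fintype ι] [DecidableEq ι]

/-- the field `β x + v` -/
def bs (β v : ℝ) (x : ι → ℝ) : ι → ℝ := fun i => β * x i + v

noncomputable def L (p : Finset ι → ℝ) (β v : ℝ) : ℝ := ∫ x, Real.log (Zq p (bs β v x)) ∂(gm ι)
noncomputable def R1 (p : Finset ι → ℝ) (β v : ℝ) : ℝ := ∫ x, ∑ i, Pr p i (bs β v x) ∂(gm ι)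
noncomputable def R2 (p : Finset ι → ℝ) (β v : ℝ) : ℝ := ∫ x, ∑ i, Pr p i (bs β v x) ^ 2 ∂(gm ι)

omit [Fintype ι] [DecidableEq ι] in
theorem sh_bs (β v u : ℝ) (x : ι → ℝ) : sh (bs β v x) u = bs β (v + u) x := by
  funext i; unfold sh bs; ring

omit [Fintype ι] [DecidableEq ι] in
theorem continuous_bs (β v : ℝ) : Continuous (bs (ι := ι) β v) := by
  unfold bs; fun_prop

theorem hasFDerivAt_bs (β v : ℝ) (x : ι → ℝ) :
    HasFDerivAt (bs β v) (β • ContinuousLinearMap.id ℝ (ι → ℝ)) x := by
  have e : bs (ι := ι) β v = fun x => β • x + (fun _ => v) := by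
    funext x i; rfl
  rw [e]
  exact ((hasFDerivAt_id x).const_smul β).add_const _

namespace PW

variable {p : Finset ι → ℝ} (hp : PW p)
include hp

theorem continuous_logZ : Continuous (fun y => Real.log (Zq p y)) :=
  (continuous_Zq p).log fun y => (hp.Zpos y).ne'

theorem abs_logZ_bs (β v : ℝ) (x : ι → ℝ) :
    |Real.log (Zq p (bs β v x))| ≤ (|Real.log (Zq p 0)| + Fintype.card ι * |v|) + |β| * ∑ i, |x i| := by
  have h1 := hp.log_lip 0 (bs β v x)
  have h2 : ∑ i, |bs β v x i - (0 : ι → ℝ) i| ≤ |β| * ∑ i, |x i| + Fintype.card ι * |v| := by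
    rw [Finset.mul_sum, ← nsmul_eq_mul, ← Finset.card_univ, ← Finset.sum_const, ← Finset.sum_add_distrib]
    apply Finset.sum_le_sum
    intro i _
    unfold bs
    simp only [Pi.zero_apply, sub_zero]
    calc |β * x i + v| ≤ |β * x i| + |v| := abs_add_le _ _
      _ = _ := by rw [abs_mul]
  have h3 := abs_sub_abs_le_abs_sub (Real.log (Zq p (bs β v x))) (Real.log (Zq p 0))
  linarith

theorem integrable_logZ (β v : ℝ) : Integrable (fun x => Real.log (Zq p (bs β v x))) (gm ι) :=
  integrable_of_le_lin _ (hp.continuous_logZ.comp (continuous_bs β v)).aestronglyMeasurable _ |β|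
    (by positivity) (abs_nonneg _) (hp.abs_logZ_bs β v)

theorem integrable_exp_logZ (θ β v : ℝ) :
    Integrable (fun x => Real.exp (θ * Real.log (Zq p (bs β v x)))) (gm ι) := by
  refine integrable_of_le_exp _ ?_ (Real.exp (|θ| * (|Real.log (Zq p 0)| + Fintype.card ι * |v|)))
    (|θ| * |β|) (fun x => ?_)
  · exact (Real.continuous_exp.comp ((hp.continuous_logZ.comp (continuous_bs β v)).const_mul θ)).aestronglyMeasurable
  · rw [abs_of_pos (Real.exp_pos _), ← Real.exp_add]
    apply Real.exp_le_exp.2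
    calc θ * Real.log (Zq p (bs β v x)) ≤ |θ * Real.log (Zq p (bs β v x))| := le_abs_self _
      _ = |θ| * |Real.log (Zq p (bs β v x))| := abs_mul _ _
      _ ≤ |θ| * ((|Real.log (Zq p 0)| + Fintype.card ι * |v|) + |β| * ∑ i, |x i|) :=
          mul_le_mul_of_nonneg_left (hp.abs_logZ_bs β v x) (abs_nonneg _)
      _ = _ := by ring

theorem contPbs (i : ι) (β v : ℝ) : Continuous (fun x => Pr p i (bs β v x)) :=
  (hp.continuous_Pr i).comp (continuous_bs β v)

theorem integrable_P (i : ι) (β v : ℝ) : Integrable (fun x => Pr p i (bs β v x)) (gm ι) :=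
  integrable_of_le_lin _ (hp.contPbs i β v).aestronglyMeasurable 1 0 zero_le_one le_rfl (fun x => by
    rw [abs_of_nonneg (hp.Pr_nonneg i _)]; simpa using hp.Pr_le_one i _)

theorem integrable_P2 (i : ι) (β v : ℝ) : Integrable (fun x => Pr p i (bs β v x) ^ 2) (gm ι) :=
  integrable_of_le_lin _ ((hp.contPbs i β v).pow 2).aestronglyMeasurable 1 0 zero_le_one le_rfl (fun x => by
    have h1 := hp.Pr_nonneg i (bs β v x)
    have h2 := hp.Pr_le_one i (bs β v x)
    rw [abs_of_nonneg (sq_nonneg _)]; nlinarith)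

theorem integrable_sumP (β v : ℝ) : Integrable (fun x => ∑ i, Pr p i (bs β v x)) (gm ι) :=
  integrable_finsetSum _ fun i _ => hp.integrable_P i β v

theorem integrable_sumP2 (β v : ℝ) : Integrable (fun x => ∑ i, Pr p i (bs β v x) ^ 2) (gm ι) :=
  integrable_finsetSum _ fun i _ => hp.integrable_P2 i β v

theorem integrable_xP (i : ι) (β v : ℝ) : Integrable (fun x => x i * Pr p i (bs β v x)) (gm ι) :=
  integrable_of_le_lin _ ((continuous_apply i).mul (hp.contPbs i β v)).aestronglyMeasurable 0 1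
    le_rfl zero_le_one (fun x => by
      rw [abs_mul, abs_of_nonneg (hp.Pr_nonneg i _), zero_add, one_mul]
      have h1 : |x i| ≤ ∑ i, |x i| :=
        Finset.single_le_sum (f := fun i => |x i|) (fun i _ => abs_nonneg _) (Finset.mem_univ i)
      have h2 := hp.Pr_le_one i (bs β v x)
      have h3 := abs_nonneg (x i)
      nlinarith)

theorem R1_nonneg (β v : ℝ) : 0 ≤ R1 p β v :=
  integral_nonneg fun x => Finset.sum_nonneg fun i _ => hp.Pr_nonneg i _

theorem hasFDerivAt_P_bs (i : ι) (β v : ℝ) (x : ι → ℝ) :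
    HasFDerivAt (fun x => Pr p i (bs β v x)) (∑ j, (β * Cv p i j (bs β v x)) • pj j) x := by
  have h := (hp.hasFDerivAt_Pr i (bs β v x)).comp x (hasFDerivAt_bs β v x)
  refine h.congr_fderiv ?_
  ext w
  simp only [ContinuousLinearMap.comp_apply, ContinuousLinearMap.smul_apply, ContinuousLinearMap.id_apply]
  simp
  rw [Finset.mul_sum]
  apply Finset.sum_congr rfl
  intro j _; ring

theorem ibp_P (β v : ℝ) : ∫ x, ∑ i, x i * Pr p i (bs β v x) ∂(gm ι) = β * (R1 p β v - R2 p β v) := by
  unfold R1 R2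
  rw [integral_finsetSum _ (fun i _ => hp.integrable_xP i β v),
    integral_finsetSum _ (fun i _ => hp.integrable_P i β v),
    integral_finsetSum _ (fun i _ => hp.integrable_P2 i β v), ← Finset.sum_sub_distrib, Finset.mul_sum]
  apply Finset.sum_congr rfl
  intro i _
  have hval : ∀ x, (∑ j, (β * Cv p i j (bs β v x)) • pj j) (Pi.single i 1)
      = β * (Pr p i (bs β v x) - Pr p i (bs β v x) ^ 2) := by
    intro x
    rw [← hp.Cv_self]
    simp [Pi.single_apply]
  have h := gauss_ibp i (fun x => Pr p i (bs β v x)) (fun x => ∑ j, (β * Cv p i j (bs β v x)) • pj j)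
    (hp.hasFDerivAt_P_bs i β v) (hp.integrable_P i β v) (hp.integrable_xP i β v)
    (by simp_rw [hval]; exact ((hp.integrable_P i β v).sub (hp.integrable_P2 i β v)).const_mul β)
  rw [h]
  simp_rw [hval]
  rw [integral_const_mul, integral_sub (hp.integrable_P i β v) (hp.integrable_P2 i β v)]

/-- supporting hyperplane for the quenched free energy -/
theorem L_hyperplane (β v t v' : ℝ) :
    L p β v + t * (β * (R1 p β v - R2 p β v)) + (v' - v) * R1 p β v ≤ L p (β + t) v' := by
  have hpt : ∀ x : ι → ℝ, Real.log (Zq p (bs β v x)) + t * (∑ i, x i * Pr p i (bs β v x))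
      + (v' - v) * ∑ i, Pr p i (bs β v x) ≤ Real.log (Zq p (bs (β + t) v' x)) := by
    intro x
    have h := hp.log_convex (bs β v x) (bs (β + t) v' x)
    have e : ∑ i, Pr p i (bs β v x) * (bs (β + t) v' x i - bs β v x i)
        = t * (∑ i, x i * Pr p i (bs β v x)) + (v' - v) * ∑ i, Pr p i (bs β v x) := by
      rw [Finset.mul_sum, Finset.mul_sum, ← Finset.sum_add_distrib]
      apply Finset.sum_congr rfl; intro i _; unfold bs; ring
    rw [e] at h; linarith
  have i1 := hp.integrable_logZ β v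
  have i2 : Integrable (fun x => ∑ i, x i * Pr p i (bs β v x)) (gm ι) :=
    integrable_finsetSum _ fun i _ => hp.integrable_xP i β v
  have i3 := hp.integrable_sumP β v
  have h := integral_mono ((i1.add (i2.const_mul t)).add (i3.const_mul (v' - v)))
    (hp.integrable_logZ (β + t) v') hpt
  rw [integral_add' (i1.add (i2.const_mul t)) (i3.const_mul (v' - v)),
    integral_add' i1 (i2.const_mul t), integral_const_mul, integral_const_mul, hp.ibp_P] at h
  exact h

theorem R1_le (β v : ℝ) {b : ℝ} (hb : 0 < b) : R1 p β v ≤ (L p β (v + b) - L p β v) / b := by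
  have h := hp.L_hyperplane β v 0 (v + b)
  simp only [zero_mul, add_zero] at h
  rw [le_div_iff₀ hb]
  have : v + b - v = b := by ring
  rw [this] at h
  linarith

theorem L_mono (β : ℝ) {v v' : ℝ} (hv : v ≤ v') : L p β v ≤ L p β v' := by
  have h := hp.L_hyperplane β v 0 v'
  simp only [zero_mul, add_zero] at h
  have := mul_nonneg (sub_nonneg.2 hv) (hp.R1_nonneg β v)
  linarith

end PW

/-- geometric tail sum -/
theorem geom_tail (J j : ℕ) : ∑ k ∈ Finset.range J, (if j ≤ k then ((1:ℝ)/2)^k else 0) ≤ 2 * ((1:ℝ)/2)^j := by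
  rw [← Finset.sum_filter]
  rcases le_or_gt j J with h | h
  · have e : (Finset.range J).filter (fun k => j ≤ k) = Finset.Ico j J := by
      ext k; simp only [Finset.mem_filter, Finset.mem_range, Finset.mem_Ico]; omega
    rw [e, Finset.sum_Ico_eq_sum_range]
    simp_rw [pow_add]
    rw [← Finset.mul_sum, mul_comm]
    exact mul_le_mul_of_nonneg_right (sum_geometric_two_le _) (by positivity)
  · have e : (Finset.range J).filter (fun k => j ≤ k) = ∅ := by
      ext k; simp only [Finset.mem_filter, Finset.mem_range, Finset.notMem_empty, iff_false]; omega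
    rw [e]; simp

/-- symmetric double sums controlled by the diagonal -/
theorem double_sum_le (J : ℕ) (T : ℕ → ℕ → ℝ) (Q : ℕ → ℝ) (hQ : ∀ j, 0 ≤ Q j)
    (hsym : ∀ j k, T j k = T k j) (hT : ∀ j k, j ≤ k → T j k ≤ Q j * ((1:ℝ)/2)^k) :
    ∑ j ∈ Finset.range J, ∑ k ∈ Finset.range J, T j k ≤ ∑ j ∈ Finset.range J, 4 * (Q j * ((1:ℝ)/2)^j) := by
  have h1 : ∀ j k, T j k ≤ (if j ≤ k then Q j * ((1:ℝ)/2)^k else 0) + (if k ≤ j then Q k * ((1:ℝ)/2)^j else 0) := by
    intro j k
    rcases le_total j k with h | h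
    · rw [if_pos h]
      have h2 := hT j k h
      have : 0 ≤ (if k ≤ j then Q k * ((1:ℝ)/2)^j else 0) := by
        split_ifs
        · exact mul_nonneg (hQ k) (by positivity)
        · exact le_rfl
      linarith
    · rw [if_pos h (c := k ≤ j)]
      have h2 := hT k j h
      rw [hsym j k]
      have : 0 ≤ (if j ≤ k then Q j * ((1:ℝ)/2)^k else 0) := by
        split_ifs
        · exact mul_nonneg (hQ j) (by positivity)
        · exact le_rfl
      linarith
  have h2 : ∀ j, ∑ k ∈ Finset.range J, (if j ≤ k then Q j * ((1:ℝ)/2)^k else 0) ≤ 2 * (Q j * ((1:ℝ)/2)^j) := by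
    intro j
    have e : ∀ k, (if j ≤ k then Q j * ((1:ℝ)/2)^k else 0) = Q j * (if j ≤ k then ((1:ℝ)/2)^k else 0) := by
      intro k; split_ifs <;> simp
    simp_rw [e, ← Finset.mul_sum]
    have := mul_le_mul_of_nonneg_left (geom_tail J j) (hQ j)
    linarith
  calc ∑ j ∈ Finset.range J, ∑ k ∈ Finset.range J, T j k
      ≤ ∑ j ∈ Finset.range J, ∑ k ∈ Finset.range J,
          ((if j ≤ k then Q j * ((1:ℝ)/2)^k else 0) + (if k ≤ j then Q k * ((1:ℝ)/2)^j else 0)) :=
        Finset.sum_le_sum fun j _ => Finset.sum_le_sum fun k _ => h1 j k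
    _ = ∑ j ∈ Finset.range J, ∑ k ∈ Finset.range J, (if j ≤ k then Q j * ((1:ℝ)/2)^k else 0)
        + ∑ j ∈ Finset.range J, ∑ k ∈ Finset.range J, (if k ≤ j then Q k * ((1:ℝ)/2)^j else 0) := by
        simp_rw [Finset.sum_add_distrib]
    _ = 2 * ∑ j ∈ Finset.range J, ∑ k ∈ Finset.range J, (if j ≤ k then Q j * ((1:ℝ)/2)^k else 0) := by
        rw [Finset.sum_comm (f := fun j k => (if k ≤ j then Q k * ((1:ℝ)/2)^j else 0))]
        ring
    _ ≤ 2 * ∑ j ∈ Finset.range J, 2 * (Q j * ((1:ℝ)/2)^j) := by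
        apply mul_le_mul_of_nonneg_left _ (by norm_num)
        exact Finset.sum_le_sum fun j _ => h2 j
    _ = _ := by rw [Finset.mul_sum]; apply Finset.sum_congr rfl; intro j _; ring

end H98Cop
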