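import Pool.Agent.Helper98.Cop.Thermo

set_option autoImplicit false

/-! # Fractional moments at strong disorder -/

namespace Cop764

open MeasureTheory ProbabilityTheory Filter Topology

/-- pointwise subadditive recursion for fractional powers -/
theorem h98_G_rpow_le (K w : ℕ → ℝ) (hK : ∀ n, 0 ≤ K n) (θ : ℝ) (hθ0 : 0 < θ) (hθ1 : θ ≤ 1)
    (i j : ℕ) (hij : i ≠ j) :
    ENNReal.ofReal (G K w i j) ^ θ ≤ ∑ k ∈ Finset.Ioc i j,
      ENNReal.ofReal (K (k - i) / 2) ^ θ * ((1 + ENNReal.ofReal (Real.exp (θ * S w i k))) *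
        ENNReal.ofReal (G K w k j) ^ θ) := by
  have hGnn := (M_G.J_G K w hK).2.1
  have h1 : G K w i j = ∑ k ∈ Finset.Ioc i j, K (k - i) * phi w i k * G K w k j := by
    rw [G_eq, if_neg hij]
  have hphi : ∀ k, 0 ≤ phi w i k := fun k => by
    unfold phi; have := Real.exp_pos (S w i k); positivity
  rw [h1, ENNReal.ofReal_sum_of_nonneg fun k _ =>
    mul_nonneg (mul_nonneg (hK _) (hphi k)) (hGnn _ _)]
  refine (Finset.le_sum_of_subadditive (fun x : ENNReal => x ^ θ) ?_ ?_ _ _).trans ?_
  · simp [hθ0]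
  · intro x y; exact ENNReal.rpow_add_le_add_rpow x y hθ0.le hθ1
  apply Finset.sum_le_sum
  intro k _
  have e : K (k - i) * phi w i k * G K w k j =
      (K (k - i) / 2) * ((1 + Real.exp (S w i k)) * G K w k j) := by unfold phi; ring
  rw [e, ENNReal.ofReal_mul (by have := hK (k - i); positivity),
    ENNReal.ofReal_mul (by have := Real.exp_pos (S w i k); positivity),
    ENNReal.mul_rpow_of_nonneg _ _ hθ0.le, ENNReal.mul_rpow_of_nonneg _ _ hθ0.le]
  gcongr
  rw [ENNReal.ofReal_add zero_le_one (Real.exp_pos _).le]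
  refine (ENNReal.rpow_add_le_add_rpow _ _ hθ0.le hθ1).trans ?_
  rw [ENNReal.ofReal_one, ENNReal.one_rpow, ENNReal.ofReal_rpow_of_pos (Real.exp_pos _),
    ← Real.exp_mul, mul_comm θ]

theorem h98_expS (D : Data) (h θ : ℝ) (c : ENNReal)
    (hc : ∀ n, ∫⁻ ω, ENNReal.ofReal (Real.exp (θ * D.w h ω n)) ∂D.P = c) (i m : ℕ) :
    ∫⁻ ω, ENNReal.ofReal (Real.exp (θ * S (D.w h ω) i (i + m))) ∂D.P = c ^ m := by
  induction m with
  | zero => simp [S]
  | succ m ih =>
    have hS : ∀ ω : ℕ → ℝ, ENNReal.ofReal (Real.exp (θ * S (D.w h ω) i (i + (m + 1)))) =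
        ENNReal.ofReal (Real.exp (θ * S (D.w h ω) i (i + m))) *
        ENNReal.ofReal (Real.exp (θ * D.w h ω (i + m + 1))) := by
      intro ω
      rw [← ENNReal.ofReal_mul (Real.exp_pos _).le, ← Real.exp_add]
      congr 2
      unfold S
      rw [show i + (m + 1) = (i + m) + 1 by ring]
      rw [Finset.sum_Ioc_succ_top (by omega)]
      ring
    simp only [hS]
    have hmS : Measurable (fun ω : ℕ → ℝ => Real.exp (θ * S (D.w h ω) i (i + m))) :=
      (((M_meas.J_meas D h i (i + m)).2.2).const_mul θ).exp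
    have hmw : Measurable (fun ω : ℕ → ℝ => Real.exp (θ * D.w h ω (i + m + 1))) := by
      unfold Data.w; fun_prop
    have hind := M_indep.J_indep D.ν (Finset.Ioc i (i + m)) {i + m + 1} (by
        rw [Finset.disjoint_singleton_right, Finset.mem_Ioc]; omega) _ _ hmS hmw
        (fun ω ω' hω => by
          have : S (D.w h ω) i (i + m) = S (D.w h ω') i (i + m) := by
            unfold S
            apply Finset.sum_congr rfl
            intro n hn
            unfold Data.w
            rw [hω n hn]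
          rw [this])
        (fun ω ω' hω => by
          unfold Data.w
          rw [hω _ (Finset.mem_singleton_self _)])
    have hind2 := hind.comp (φ := ENNReal.ofReal) (ψ := ENNReal.ofReal)
      ENNReal.measurable_ofReal ENNReal.measurable_ofReal
    have hprod := lintegral_mul_eq_lintegral_mul_lintegral_of_indepFun
      (μ := disorder D.ν) (ENNReal.measurable_ofReal.comp hmS) (ENNReal.measurable_ofReal.comp hmw) hind2
    simp only [Function.comp_def, Pi.mul_apply] at hprod
    unfold Data.P at ih hc ⊢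
    rw [hprod, ih, hc (i + m + 1), pow_succ]

theorem h98_fm (D : Data) (h θ : ℝ) (c : ENNReal) (hθ0 : 0 < θ) (hθ1 : θ ≤ 1)
    (hc : ∀ n, ∫⁻ ω, ENNReal.ofReal (Real.exp (θ * D.w h ω n)) ∂D.P = c) (hc1 : c ≤ 1)
    (hsum : ∀ n, ∑ j ∈ Finset.Icc 1 n, ENNReal.ofReal (D.K j / 2) ^ θ * (1 + c) ≤ 1) (m : ℕ) :
    ∀ i, ∫⁻ ω, ENNReal.ofReal (G D.K (D.w h ω) i (i + m)) ^ θ ∂D.P ≤ 1 := by
  have hKnn : ∀ n, 0 ≤ D.K n := fun n => ENNReal.toReal_nonneg
  induction m using Nat.strong_induction_on with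
  | _ m ih =>
    intro i
    rcases Nat.eq_zero_or_pos m with rfl | hm
    · simp [(M_G.J_G D.K (D.w h _) hKnn).1]
    have hmG : ∀ a b, Measurable (fun ω : ℕ → ℝ => ENNReal.ofReal (G D.K (D.w h ω) a b) ^ θ) :=
      fun a b => (ENNReal.measurable_ofReal.comp (M_meas.J_meas D h a b).1).pow_const θ
    have hmE : ∀ a b, Measurable (fun ω : ℕ → ℝ =>
        (1 + ENNReal.ofReal (Real.exp (θ * S (D.w h ω) a b)) : ENNReal)) := fun a b =>
      measurable_const.add (ENNReal.measurable_ofReal.comp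
        (((M_meas.J_meas D h a b).2.2).const_mul θ).exp)
    calc ∫⁻ ω, ENNReal.ofReal (G D.K (D.w h ω) i (i + m)) ^ θ ∂D.P
        ≤ ∫⁻ ω, ∑ k ∈ Finset.Ioc i (i + m),
          ENNReal.ofReal (D.K (k - i) / 2) ^ θ *
            ((1 + ENNReal.ofReal (Real.exp (θ * S (D.w h ω) i k))) *
              ENNReal.ofReal (G D.K (D.w h ω) k (i + m)) ^ θ) ∂D.P :=
          lintegral_mono fun ω => h98_G_rpow_le D.K (D.w h ω) hKnn θ hθ0 hθ1 i (i + m) (by omega)
      _ = ∑ k ∈ Finset.Ioc i (i + m), ENNReal.ofReal (D.K (k - i) / 2) ^ θ *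
            ∫⁻ ω, (1 + ENNReal.ofReal (Real.exp (θ * S (D.w h ω) i k))) *
              ENNReal.ofReal (G D.K (D.w h ω) k (i + m)) ^ θ ∂D.P := by
          have hmEG : ∀ k, Measurable (fun ω : ℕ → ℝ =>
              (1 + ENNReal.ofReal (Real.exp (θ * S (D.w h ω) i k))) *
              ENNReal.ofReal (G D.K (D.w h ω) k (i + m)) ^ θ) := fun k =>
            (hmE i k).mul (hmG k (i + m))
          rw [lintegral_finsetSum _ fun k _ => (hmEG k).const_mul _]
          apply Finset.sum_congr rfl
          intro k _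
          rw [lintegral_const_mul _ (hmEG k)]
      _ ≤ ∑ k ∈ Finset.Ioc i (i + m), ENNReal.ofReal (D.K (k - i) / 2) ^ θ * (1 + c) := by
          apply Finset.sum_le_sum
          intro k hk
          rw [Finset.mem_Ioc] at hk
          gcongr
          have hmS : Measurable (fun ω : ℕ → ℝ => S (D.w h ω) i k) := (M_meas.J_meas D h i k).2.2
          have hmG' : Measurable (fun ω : ℕ → ℝ => G D.K (D.w h ω) k (i + m)) :=
            (M_meas.J_meas D h k (i + m)).1
          have hind := M_indep.J_indep D.ν (Finset.Ioc i k) (Finset.Ioc k (i + m)) (by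
              rw [Finset.disjoint_left]
              intro a ha hb
              rw [Finset.mem_Ioc] at ha hb
              omega) _ _ hmS hmG'
              (fun ω ω' hω => by
                unfold S
                apply Finset.sum_congr rfl
                intro n hn
                unfold Data.w
                rw [hω n hn])
              (fun ω ω' hω => (M_loc.J_loc.2.2.2 D.K _ _ k (i + m) (fun n hn => by
                unfold Data.w
                rw [hω n hn])).1)
          have hind2 := hind.comp (φ := fun x : ℝ => (1 + ENNReal.ofReal (Real.exp (θ * x)) : ENNReal))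
            (ψ := fun x : ℝ => ENNReal.ofReal x ^ θ)
            (by fun_prop) (by fun_prop)
          have hprod := lintegral_mul_eq_lintegral_mul_lintegral_of_indepFun
            (μ := disorder D.ν) (by exact hmE i k) (by exact hmG k (i + m)) hind2
          simp only [Function.comp_def, Pi.mul_apply] at hprod
          unfold Data.P
          rw [hprod]
          have h1 : ∫⁻ ω, ENNReal.ofReal (G D.K (D.w h ω) k (i + m)) ^ θ ∂(disorder D.ν) ≤ 1 := by
            have := ih (i + m - k) (by omega) k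
            rw [show k + (i + m - k) = i + m by omega] at this
            exact this
          have h2 : ∫⁻ ω, (1 + ENNReal.ofReal (Real.exp (θ * S (D.w h ω) i k))) ∂(disorder D.ν)
              ≤ 1 + c := by
            rw [lintegral_add_left measurable_const, lintegral_const, measure_univ, mul_one]
            gcongr
            have h3 := h98_expS D h θ c hc i (k - i)
            rw [show i + (k - i) = k by omega] at h3
            unfold Data.P at h3
            rw [h3]
            exact pow_le_of_le_one (by positivity) hc1 (by omega)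
          calc _ ≤ (1 + c) * 1 := by gcongr
            _ = 1 + c := mul_one _
      _ = ∑ j ∈ Finset.Icc 1 m, ENNReal.ofReal (D.K j / 2) ^ θ * (1 + c) := by
          symm
          apply Finset.sum_nbij' (fun j => i + j) (fun k => k - i)
          · intro j hj
            rw [Finset.mem_Icc] at hj
            rw [Finset.mem_Ioc]; omega
          · intro k hk
            rw [Finset.mem_Ioc] at hk
            rw [Finset.mem_Icc]; omega
          · intro j _; omega
          · intro k hk
            rw [Finset.mem_Ioc] at hk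
            omega
          · intro j _
            rw [show i + j - i = j by omega]
      _ ≤ 1 := hsum m

/-- a fractional moment bound forces zero free energy -/
theorem h98_f_le_zero (D : Data) (c0 : ℝ) (n0 : ℕ) (hK : KHyp D.K D.α c0 n0) (h θ : ℝ) (hh : 0 ≤ h)
    (c : ENNReal) (hθ0 : 0 < θ) (hθ1 : θ ≤ 1)
    (hc : ∀ n, ∫⁻ ω, ENNReal.ofReal (Real.exp (θ * D.w h ω n)) ∂D.P = c) (hc1 : c ≤ 1)
    (hsum : ∀ n, ∑ j ∈ Finset.Icc 1 n, ENNReal.ofReal (D.K j / 2) ^ θ * (1 + c) ≤ 1) :
    D.f h ≤ 0 := by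
  have hn0 := hK.n0_pos
  refine le_of_tendsto (h98_tendsto D c0 n0 hK h hh) ?_
  filter_upwards [eventually_ge_atTop n0] with ℓ hℓ
  apply div_nonpos_of_nonpos_of_nonneg _ (Nat.cast_nonneg _)
  have h1 := h98_fm D h θ c hθ0 hθ1 hc hc1 hsum ℓ 0
  rw [Nat.zero_add] at h1
  have hKnn : ∀ n, 0 ≤ D.K n := fun n => ENNReal.toReal_nonneg
  have hGpos : ∀ ω, 0 < G D.K (D.w h ω) 0 ℓ := fun ω => by
    have := (M_strE.jE_Glow D c0 n0 hK (D.w h ω) ℓ hℓ 0 1 (by omega)).2
    rwa [Nat.zero_mul, Nat.one_mul] at this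
  have hmG : Measurable (fun ω : ℕ → ℝ => G D.K (D.w h ω) 0 ℓ ^ θ) :=
    (M_meas.J_meas D h 0 ℓ).1.pow_const θ
  have h2 : ∀ ω, ENNReal.ofReal (G D.K (D.w h ω) 0 ℓ) ^ θ =
      ENNReal.ofReal (G D.K (D.w h ω) 0 ℓ ^ θ) := fun ω =>
    ENNReal.ofReal_rpow_of_pos (hGpos ω)
  simp only [h2] at h1
  have hint : Integrable (fun ω : ℕ → ℝ => G D.K (D.w h ω) 0 ℓ ^ θ) D.P := by
    refine ⟨hmG.aestronglyMeasurable, ?_⟩
    rw [hasFiniteIntegral_iff_ofReal (Filter.Eventually.of_forall fun ω =>
      Real.rpow_nonneg (hGpos ω).le _)]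
    exact lt_of_le_of_lt h1 ENNReal.one_lt_top
  have h3 : ∫ ω, G D.K (D.w h ω) 0 ℓ ^ θ ∂D.P ≤ 1 := by
    rw [integral_eq_lintegral_of_nonneg_ae (Filter.Eventually.of_forall fun ω =>
      Real.rpow_nonneg (hGpos ω).le _) hmG.aestronglyMeasurable]
    exact ENNReal.toReal_le_of_le_ofReal zero_le_one (by rw [ENNReal.ofReal_one]; exact h1)
  have hlG := (M_int.J_int D c0 n0 hK h hh).2.1 0 ℓ (by omega)
  have h4 : ∀ ω, D.lG h 0 ℓ ω ≤ θ⁻¹ * (G D.K (D.w h ω) 0 ℓ ^ θ - 1) := by
    intro ω
    have h5 := Real.log_le_sub_one_of_pos (Real.rpow_pos_of_pos (hGpos ω) θ)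
    rw [Real.log_rpow (hGpos ω)] at h5
    have h6 := mul_le_mul_of_nonneg_left h5 (inv_nonneg.2 hθ0.le)
    rw [← mul_assoc, inv_mul_cancel₀ hθ0.ne', one_mul] at h6
    exact h6
  calc ∫ ω, D.lG h 0 ℓ ω ∂D.P ≤ ∫ ω, θ⁻¹ * (G D.K (D.w h ω) 0 ℓ ^ θ - 1) ∂D.P :=
        integral_mono hlG ((hint.sub (integrable_const _)).const_mul _) h4
    _ = θ⁻¹ * (∫ ω, G D.K (D.w h ω) 0 ℓ ^ θ ∂D.P - 1) := by
        rw [integral_const_mul, integral_sub hint (integrable_const _)]
        simp
    _ ≤ 0 := mul_nonpos_of_nonneg_of_nonpos (inv_nonneg.2 hθ0.le) (by linarith)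

end Cop764
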