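import Mathlib

set_option autoImplicit false

/-! # Renewal sequences of log-convex sequences are log-convex -/

namespace H98Cop

/-- renewal sequence: `u 0 = 1`, `u (n+1) = ∑_{k ≤ n} f (k+1) * u (n-k)` -/
noncomputable def ren (f : ℕ → ℝ) : ℕ → ℝ
  | 0 => 1
  | (n+1) => ∑ k : Fin (n+1), f (k+1) * ren f (n - k)
decreasing_by omega

theorem ren_zero (f : ℕ → ℝ) : ren f 0 = 1 := by rw [ren]

theorem ren_succ (f : ℕ → ℝ) (n : ℕ) :
    ren f (n+1) = ∑ k ∈ Finset.range (n+1), f (k+1) * ren f (n - k) := by
  rw [ren, Finset.sum_range]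

theorem ren_pos (f : ℕ → ℝ) (hf : ∀ k, 1 ≤ k → 0 < f k) (n : ℕ) : 0 < ren f n := by
  induction n using Nat.strong_induction_on with
  | _ n ih =>
    cases n with
    | zero => rw [ren_zero]; exact one_pos
    | succ n =>
      rw [ren_succ]
      apply Finset.sum_pos
      · intro k hk
        exact mul_pos (hf _ (by omega)) (ih _ (by omega))
      · exact ⟨0, Finset.mem_range.2 (by omega)⟩

/-- ratio monotonicity from local log-convexity -/
theorem ratio_mono (u : ℕ → ℝ) (M : ℕ) (hu : ∀ n, 0 < u n)
    (h : ∀ n, n < M → u (n+1) ^ 2 ≤ u n * u (n+2)) :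
    ∀ x y, x ≤ y → y ≤ M → u (x+1) * u y ≤ u (y+1) * u x := by
  intro x y hxy
  induction y, hxy using Nat.le_induction with
  | base => intro _; exact le_refl _
  | succ y hxy ih =>
    intro hy
    have h1 := ih (by omega)
    have h2 := h y (by omega)
    -- u (x+1) * u (y+1) ≤ u (y+2) * u x
    have hy0 := hu y
    have hy1 := hu (y+1)
    have hx0 := hu x
    -- multiply h1 by u(y+1): u(x+1) u(y) u(y+1) ≤ u(y+1)^2 u x ≤ u y u(y+2) u x
    have h3 : (u (x+1) * u (y+1)) * u y ≤ (u (y+1+1) * u x) * u y := by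
      calc (u (x+1) * u (y+1)) * u y = (u (x+1) * u y) * u (y+1) := by ring
        _ ≤ (u (y+1) * u x) * u (y+1) := by gcongr
        _ = u (y+1)^2 * u x := by ring
        _ ≤ (u y * u (y+2)) * u x := by gcongr
        _ = (u (y+1+1) * u x) * u y := by ring_nf
    exact le_of_mul_le_mul_right h3 hy0

theorem ren_logconvex (f : ℕ → ℝ) (hf : ∀ k, 1 ≤ k → 0 < f k)
    (hlc : ∀ k, 1 ≤ k → f (k+1) ^ 2 ≤ f k * f (k+2)) :
    ∀ n, ren f (n+1) ^ 2 ≤ ren f n * ren f (n+2) := by
  have hfm : ∀ x y, x ≤ y → f (x+2) * f (y+1) ≤ f (y+2) * f (x+1) := by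
    intro x y hxy
    exact ratio_mono (fun n => f (n+1)) y (fun n => hf _ (by omega))
      (fun n _ => hlc (n+1) (by omega)) x y hxy le_rfl
  intro n
  induction n using Nat.strong_induction_on with
  | _ n ih =>
    cases n with
    | zero =>
      have e1 : ren f (0+1) = f 1 := by
        rw [ren_succ]; simp [ren_zero]
      have e2 : ren f (0+2) = f 1 * f 1 + f 2 := by
        rw [show 0+2 = 1+1 from rfl, ren_succ, Finset.sum_range_succ, Finset.sum_range_one]
        have : ren f (1 - 0) = f 1 := by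
          rw [show 1 - 0 = 0+1 from rfl]; exact e1
        rw [this, show 1 - 1 = 0 from rfl, ren_zero]; ring
      rw [e1, e2, ren_zero]
      have := (hf 2 (by omega)).le
      nlinarith
    | succ n =>
      set u := ren f with hu
      have hup : ∀ n, 0 < u n := ren_pos f hf
      set r := u (n+1+1) / u (n+1) with hr
      have hrp : 0 < r := div_pos (hup _) (hup _)
      have hru : r * u (n+1) = u (n+1+1) := by rw [hr]; field_simp [(hup (n+1)).ne']
      have hmono := ratio_mono u (n+1) hup (fun m hm => ih m (by omega))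
      set d : ℕ → ℝ := fun j => r * u (n+1-j) - u (n+1+1-j) with hd
      have hd0 : d 0 = 0 := by simp only [hd, Nat.sub_zero]; rw [hru]; ring
      have hdn : ∀ j, j ≤ n+1 → 0 ≤ d j := by
        intro j hj
        have h1 := hmono (n+1-j) (n+1) (by omega) le_rfl
        have e : n+1-j+1 = n+1+1-j := by omega
        rw [e] at h1
        simp only [hd]
        have h2 : u (n+1+1-j) * u (n+1) ≤ (r * u (n+1-j)) * u (n+1) := by
          calc u (n+1+1-j) * u (n+1) ≤ u (n+1+1) * u (n+1-j) := h1
            _ = (r * u (n+1)) * u (n+1-j) := by rw [hru]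
            _ = _ := by ring
        have h3 := le_of_mul_le_mul_right h2 (hup (n+1))
        linarith
      -- identity
      have hid : f (n+2) = ∑ j ∈ Finset.range (n+1), f (j+1) * d (j+1) := by
        have e1 : u (n+1+1) = ∑ j ∈ Finset.range (n+1), f (j+1) * u (n+1-j) + f (n+2) := by
          rw [hu, ren_succ, Finset.sum_range_succ]
          rw [show n+1-(n+1) = 0 by omega, ren_zero, mul_one]
        have e2 : u (n+1) = ∑ j ∈ Finset.range (n+1), f (j+1) * u (n-j) := by
          rw [hu, ren_succ]
        have e3 : ∑ j ∈ Finset.range (n+1), f (j+1) * d (j+1)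
            = r * ∑ j ∈ Finset.range (n+1), f (j+1) * u (n-j)
              - ∑ j ∈ Finset.range (n+1), f (j+1) * u (n+1-j) := by
          rw [Finset.mul_sum, ← Finset.sum_sub_distrib]
          apply Finset.sum_congr rfl
          intro j hj
          simp only [hd]
          rw [show n+1-(j+1) = n-j by omega, show n+1+1-(j+1) = n+1-j by omega]
          ring
        rw [e3, ← e2, hru, e1]; ring
      -- main difference
      have hdiff : u (n+1+2) - r * u (n+1+1) = f (n+1+2) - ∑ j ∈ Finset.range (n+1+1), f (j+1) * d j := by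
        have e1 : u (n+1+2) = ∑ j ∈ Finset.range (n+1+1), f (j+1) * u (n+1+1-j) + f (n+1+2) := by
          rw [hu, show n+1+2 = n+1+1+1 from rfl, ren_succ, Finset.sum_range_succ]
          rw [show n+1+1-(n+1+1) = 0 by omega, ren_zero, mul_one]
        have e2 : u (n+1+1) = ∑ j ∈ Finset.range (n+1+1), f (j+1) * u (n+1-j) := by
          rw [hu, ren_succ]
        have e3 : ∑ j ∈ Finset.range (n+1+1), f (j+1) * d j
            = r * ∑ j ∈ Finset.range (n+1+1), f (j+1) * u (n+1-j)
              - ∑ j ∈ Finset.range (n+1+1), f (j+1) * u (n+1+1-j) := by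
          rw [Finset.mul_sum, ← Finset.sum_sub_distrib]
          apply Finset.sum_congr rfl
          intro j hj
          simp only [hd]
          ring
        rw [e3, ← e2, e1]; ring
      have hsum : ∑ j ∈ Finset.range (n+1+1), f (j+1) * d j ≤ f (n+1+2) := by
        rw [Finset.sum_range_succ', hd0, mul_zero, add_zero]
        have hfn : 0 < f (n+2) := hf _ (by omega)
        have h1 : (∑ j ∈ Finset.range (n+1), f (j+1+1) * d (j+1)) * f (n+2)
            ≤ f (n+1+2) * ∑ j ∈ Finset.range (n+1), f (j+1) * d (j+1) := by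
          rw [Finset.sum_mul, Finset.mul_sum]
          apply Finset.sum_le_sum
          intro j hj
          have hj' := Finset.mem_range.1 hj
          have h2 := hfm j (n+1) (by omega)
          have h3 := hdn (j+1) (by omega)
          calc f (j+1+1) * d (j+1) * f (n+2) = (f (j+2) * f (n+1+1)) * d (j+1) := by ring
            _ ≤ (f (n+1+2) * f (j+1)) * d (j+1) := by gcongr
            _ = _ := by ring
        rw [← hid] at h1
        exact le_of_mul_le_mul_right h1 hfn
      have hfin : r * u (n+1+1) ≤ u (n+1+2) := by linarith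
      calc u (n+1+1)^2 = u (n+1) * (r * u (n+1+1)) := by
              rw [show u (n+1) * (r * u (n+1+1)) = (r * u (n+1)) * u (n+1+1) by ring, hru]; ring
        _ ≤ u (n+1) * u (n+1+2) := by
              apply mul_le_mul_of_nonneg_left hfin (hup _).le

/-- `g (x+d) * g y ≤ g (y+d) * g x` for `x ≤ y` -/
theorem ratio_mono_shift (u : ℕ → ℝ) (hu : ∀ n, 0 < u n)
    (h : ∀ n, u (n+1) ^ 2 ≤ u n * u (n+2)) :
    ∀ d x y, x ≤ y → u (x+d) * u y ≤ u (y+d) * u x := by
  intro d
  induction d with
  | zero => intro x y _; simp only [Nat.add_zero]; exact (mul_comm _ _).le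
  | succ d ih =>
    intro x y hxy
    have h1 := ih x y hxy
    have h2 := ratio_mono u (y+d) hu (fun n _ => h n) (x+d) (y+d) (by omega) le_rfl
    have p1 := hu (x+d)
    have p2 := hu (y+d)
    have p3 := hu x
    have p4 := hu y
    -- u(x+d+1) u(y+d) ≤ u(y+d+1) u(x+d) ;  u(x+d) u y ≤ u(y+d) u x
    have h3 : (u (x+(d+1)) * u y) * (u (x+d) * u (y+d)) ≤ (u (y+(d+1)) * u x) * (u (x+d) * u (y+d)) := by
      calc (u (x+(d+1)) * u y) * (u (x+d) * u (y+d))
          = (u (x+d+1) * u (y+d)) * (u (x+d) * u y) := by ring_nf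
        _ ≤ (u (y+d+1) * u (x+d)) * (u (y+d) * u x) := by
            apply mul_le_mul h2 h1 (mul_pos p1 p4).le (mul_pos (hu _) p1).le
        _ = _ := by ring_nf
    exact le_of_mul_le_mul_right h3 (mul_pos p1 p2)

end H98Cop
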