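import Mathlib

set_option autoImplicit false

/-! # From the multiscale recursion to a power gain -/

namespace H98Cop

theorem rec_exponent (Φ : ℝ → ℝ) (δ0 M C1 C2 : ℝ) (J : ℕ) (hδ0 : 0 < δ0) (hC1 : 0 < C1) (hC2 : 0 < C2)
    (hM : 0 < M) (hJ : 1 ≤ J) (hJC : 64 * C1 ≤ J)
    (hΦM : ∀ δ, 0 < δ → δ ≤ δ0 → Φ δ ≤ M)
    (hrec : ∀ δ, 0 < δ → 2^(J+1) * δ ≤ δ0 →
      Φ δ ≤ C1 / J^2 * (∑ j ∈ Finset.range J, ((1:ℝ)/4)^j * Φ (2^(j+2) * δ)) + C2 * δ / 2^J * Φ (2^(J+1) * δ)) :
    ∃ B, 0 < B ∧ ∀ δ, 0 < δ → δ ≤ δ0 → Φ δ ≤ B * δ ^ (2 + 1 / ((J:ℝ) + 1)) := by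
  have hJ' : (0:ℝ) < J := by exact_mod_cast hJ
  set η : ℝ := 1 / ((J:ℝ) + 1) with hη
  have hη0 : 0 < η := by positivity
  set δ1 : ℝ := min (δ0 / 2^(J+1)) (1 / (16 * C2 * 2^J)) with hδ1
  have hδ1pos : 0 < δ1 := lt_min (by positivity) (by positivity)
  have hδ1le : δ1 ≤ δ0 := (min_le_left _ _).trans (by
    apply div_le_self hδ0.le; exact one_le_pow₀ (by norm_num))
  set B : ℝ := M / δ1 ^ (2 + η) with hB
  have hBpos : 0 < B := by positivity
  refine ⟨B, hBpos, ?_⟩
  have hbase : ∀ δ, 0 < δ → δ ≤ δ0 → δ1 ≤ δ → Φ δ ≤ B * δ ^ (2 + η) := by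
    intro δ h1 h2 h3
    have h4 : δ1 ^ (2 + η) ≤ δ ^ (2 + η) := Real.rpow_le_rpow hδ1pos.le h3 (by positivity)
    have h5 : 0 < δ1 ^ (2 + η) := by positivity
    calc Φ δ ≤ M := hΦM δ h1 h2
      _ = B * δ1 ^ (2 + η) := by rw [hB]; field_simp
      _ ≤ B * δ ^ (2 + η) := mul_le_mul_of_nonneg_left h4 hBpos.le
  have hclaim : ∀ n : ℕ, ∀ δ, 0 < δ → δ ≤ δ0 → δ1 / 2^n ≤ δ → Φ δ ≤ B * δ ^ (2 + η) := by
    intro n
    induction n with
    | zero => intro δ h1 h2 h3; exact hbase δ h1 h2 (by simpa using h3)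
    | succ n ih =>
      intro δ h1 h2 h3
      by_cases h4 : δ1 ≤ δ
      · exact hbase δ h1 h2 h4
      · push Not at h4
        have h5 : 2^(J+1) * δ ≤ δ0 := by
          have : δ ≤ δ0 / 2^(J+1) := h4.le.trans (min_le_left _ _)
          rw [le_div_iff₀ (by positivity)] at this
          calc 2^(J+1) * δ = δ * 2^(J+1) := by ring
            _ ≤ δ0 := this
        have h6 : 16 * C2 * 2^J * δ ≤ 1 := by
          have : δ ≤ 1 / (16 * C2 * 2^J) := h4.le.trans (min_le_right _ _)
          rw [le_div_iff₀ (by positivity)] at this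
          calc 16 * C2 * 2^J * δ = δ * (16 * C2 * 2^J) := by ring
            _ ≤ 1 := this
        have hpow : ∀ k : ℕ, 1 ≤ k → k ≤ J + 1 → Φ (2^k * δ) ≤ B * (2 * (4^k * δ ^ (2 + η))) := by
          intro k hk1 hk2
          have g1 : 0 < 2^k * δ := by positivity
          have g2 : (2:ℝ)^k ≤ 2^(J+1) := pow_le_pow_right₀ (by norm_num) hk2
          have g3 : 2^k * δ ≤ δ0 := (mul_le_mul_of_nonneg_right g2 h1.le).trans h5
          have g4 : δ1 / 2^n ≤ 2^k * δ := by
            have : (2:ℝ)^1 ≤ 2^k := pow_le_pow_right₀ (by norm_num) hk1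
            calc δ1 / 2^n = 2 * (δ1 / 2^(n+1)) := by rw [pow_succ]; field_simp
              _ ≤ 2 * δ := by linarith
              _ ≤ 2^k * δ := by nlinarith
          have g5 := ih (2^k * δ) g1 g3 g4
          refine g5.trans ?_
          apply mul_le_mul_of_nonneg_left _ hBpos.le
          rw [Real.mul_rpow (by positivity) h1.le]
          have g6 : ((2:ℝ)^k) ^ (2 + η) ≤ 2 * 4^k := by
            rw [Real.rpow_add (by positivity)]
            have g7 : ((2:ℝ)^k) ^ (2:ℝ) = 4^k := by
              rw [Real.rpow_two, ← pow_mul, mul_comm k 2, pow_mul]; norm_num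
            have g8 : ((2:ℝ)^k) ^ η ≤ 2 := by
              calc ((2:ℝ)^k) ^ η ≤ ((2:ℝ)^(J+1)) ^ η := Real.rpow_le_rpow (by positivity) g2 hη0.le
                _ = 2 := by
                  rw [← Real.rpow_natCast, ← Real.rpow_mul (by norm_num)]
                  have : ((J+1 : ℕ) : ℝ) * η = 1 := by rw [hη]; push_cast; field_simp
                  rw [this, Real.rpow_one]
            rw [g7]
            have g9 : (0:ℝ) ≤ 4^k := by positivity
            calc (4:ℝ)^k * ((2:ℝ)^k) ^ η ≤ 4^k * 2 := mul_le_mul_of_nonneg_left g8 g9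
              _ = 2 * 4^k := by ring
          calc ((2:ℝ)^k) ^ (2 + η) * δ ^ (2 + η) ≤ (2 * 4^k) * δ ^ (2 + η) :=
                mul_le_mul_of_nonneg_right g6 (by positivity)
            _ = _ := by ring
        have hE : 0 < B * δ ^ (2 + η) := by positivity
        set E := B * δ ^ (2 + η) with hEdef
        have hsum : ∑ j ∈ Finset.range J, ((1:ℝ)/4)^j * Φ (2^(j+2) * δ) ≤ J * (32 * E) := by
          calc _ ≤ ∑ j ∈ Finset.range J, (32 * E) := by
                apply Finset.sum_le_sum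
                intro j hj
                have hj' := Finset.mem_range.1 hj
                have h7 := hpow (j+2) (by omega) (by omega)
                calc ((1:ℝ)/4)^j * Φ (2^(j+2) * δ) ≤ ((1:ℝ)/4)^j * (B * (2 * (4^(j+2) * δ ^ (2 + η)))) :=
                      mul_le_mul_of_nonneg_left h7 (by positivity)
                  _ = 32 * E := by
                    rw [hEdef, pow_add, one_div, inv_pow]
                    field_simp
                    ring
            _ = _ := by rw [Finset.sum_const, Finset.card_range, nsmul_eq_mul]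
        have hlast := hpow (J+1) (by omega) le_rfl
        have hr := hrec δ h1 h5
        have t1 : C1 / J^2 * (∑ j ∈ Finset.range J, ((1:ℝ)/4)^j * Φ (2^(j+2) * δ)) ≤ E / 2 := by
          calc _ ≤ C1 / J^2 * (J * (32 * E)) := mul_le_mul_of_nonneg_left hsum (by positivity)
            _ = (32 * C1 / J) * E := by field_simp
            _ ≤ (1/2) * E := by
                apply mul_le_mul_of_nonneg_right _ hE.le
                rw [div_le_iff₀ hJ']; linarith
            _ = E / 2 := by ring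
        have t2 : C2 * δ / 2^J * Φ (2^(J+1) * δ) ≤ E / 2 := by
          calc _ ≤ C2 * δ / 2^J * (B * (2 * (4^(J+1) * δ ^ (2 + η)))) :=
                mul_le_mul_of_nonneg_left hlast (by positivity)
            _ = (8 * C2 * 2^J * δ) * E := by
                have : (4:ℝ)^(J+1) = 4 * (2^J * 2^J) := by
                  rw [pow_succ, ← mul_pow]; norm_num; ring
                rw [this, hEdef]; field_simp; ring
            _ ≤ (1/2) * E := by
                apply mul_le_mul_of_nonneg_right _ hE.le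
                linarith
            _ = E / 2 := by ring
        linarith
  intro δ h1 h2
  obtain ⟨n, hn⟩ : ∃ n : ℕ, δ1 / δ < 2^n := pow_unbounded_of_one_lt _ (by norm_num)
  apply hclaim n δ h1 h2
  rw [div_lt_iff₀ h1] at hn
  rw [div_le_iff₀ (by positivity)]
  linarith

end H98Cop
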