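import Pool.Agent.Helper98.Cop.Strong
import Pool.Agent.Helper98.Cop.Rec
import Pool.Agent.Helper98.Cop.Crit

set_option autoImplicit false

/-! # The recursion at a good coupling, and the improved exponent -/

namespace H98Cop

open MeasureTheory ProbabilityTheory Filter Topology
open Cop764 (Data)

/-- telescoping: a function below zero which is above the parabola somewhere beats it locally -/
theorem telescope (vc : ℝ → ℝ) (hv : ∀ b, 0 < b → vc b ≤ 0) (β1 : ℝ) (hβ1 : 0 < β1)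
    (h1 : -β1 ^ 2 / 2 < vc β1) : ∃ b t, 0 < b ∧ 0 < t ∧ 0 < t * b + vc (b + t) - vc b := by
  by_contra hcon
  push Not at hcon
  obtain ⟨n, hn⟩ := exists_nat_gt (β1 ^ 2 / (2 * (vc β1 + β1 ^ 2 / 2)))
  have hη : 0 < vc β1 + β1 ^ 2 / 2 := by linarith
  have hnpos : (0:ℝ) < n := lt_of_le_of_lt (by positivity) hn
  have hn1 : 1 ≤ n := by exact_mod_cast hnpos
  have key : ∀ i : ℕ, vc (β1 / n * (i + 1)) ≤ -(β1 / n) ^ 2 * (i * (i + 1)) / 2 := by
    intro i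
    induction i with
    | zero =>
      have := hv (β1 / n * ((0:ℕ) + 1)) (by positivity)
      simpa using this
    | succ i ih =>
      have h2 := hcon (β1 / n * (i + 1)) (β1 / n) (by positivity) (by positivity)
      have e : β1 / n * (i + 1) + β1 / n = β1 / n * (((i + 1 : ℕ) : ℝ) + 1) := by push_cast; ring
      rw [e] at h2
      push_cast at h2 ih ⊢
      nlinarith
  have h3 := key (n - 1)
  have e1 : (((n - 1 : ℕ) : ℝ) + 1) = n := by rw [Nat.cast_sub hn1]; push_cast; ring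
  have e2 : ((n - 1 : ℕ) : ℝ) = n - 1 := by rw [Nat.cast_sub hn1]; push_cast; ring
  rw [e1, e2, div_mul_cancel₀ _ hnpos.ne'] at h3
  have e3 : -(β1 / n) ^ 2 * ((n - 1) * n) / 2 = -β1 ^ 2 / 2 + β1 ^ 2 / (2 * n) := by
    field_simp; ring
  rw [e3] at h3
  rw [div_lt_iff₀ (by positivity)] at hn
  have h4 : β1 ^ 2 / (2 * n) < vc β1 + β1 ^ 2 / 2 := by
    rw [div_lt_iff₀ (by positivity)]; nlinarith
  linarith

/-- the model at inverse temperature parameter `b` -/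
noncomputable def Ker.M (k : Ker) (b : ℝ) (hb : 0 < b) : Data := k.D (b / 2) (half_pos hb)

/-- critical point in the `h` variable -/
noncomputable def Ker.hc (k : Ker) (b : ℝ) (hb : 0 < b) : ℝ := (Cop764.M_hc.J_hc (k.M b hb)).choose

theorem Ker.hc_spec (k : Ker) (b : ℝ) (hb : 0 < b) : 0 < k.hc b hb ∧
    (∀ h, 0 ≤ h → (0 < (k.M b hb).f h ↔ h < k.hc b hb)) :=
  ⟨(Cop764.M_hc.J_hc (k.M b hb)).choose_spec.1, (Cop764.M_hc.J_hc (k.M b hb)).choose_spec.2.1⟩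

/-- critical point in the `v` variable -/
noncomputable def Ker.vc (k : Ker) (b : ℝ) : ℝ := if hb : 0 < b then -b * k.hc b hb else 0

theorem Ker.vc_eq (k : Ker) (b : ℝ) (hb : 0 < b) : k.vc b = -b * k.hc b hb := by
  unfold Ker.vc; rw [dif_pos hb]

theorem Ker.vc_neg (k : Ker) (b : ℝ) (hb : 0 < b) : k.vc b < 0 := by
  rw [k.vc_eq b hb]
  have := (k.hc_spec b hb).1
  nlinarith

/-- free energy in the `v` variable -/
noncomputable def Ker.Fv (k : Ker) (b : ℝ) (hb : 0 < b) (v : ℝ) : ℝ := (k.M b hb).f (-v / b)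

theorem Ker.Fv_nonneg (k : Ker) (b : ℝ) (hb : 0 < b) (v : ℝ) (hv : v ≤ 0) : 0 ≤ k.Fv b hb v := by
  unfold Ker.Fv
  apply Cop764.M_fnn.J_fnn
  apply div_nonneg _ hb.le
  linarith

theorem Ker.Fv_pos_iff (k : Ker) (b : ℝ) (hb : 0 < b) (v : ℝ) (hv : v ≤ 0) :
    0 < k.Fv b hb v ↔ k.vc b < v := by
  unfold Ker.Fv
  rw [(k.hc_spec b hb).2 (-v / b) (div_nonneg (by linarith) hb.le), k.vc_eq b hb,
    div_lt_iff₀ hb]
  constructor <;> intro h <;> nlinarith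

theorem Ker.Fv_vc (k : Ker) (b : ℝ) (hb : 0 < b) : k.Fv b hb (k.vc b) = 0 := by
  apply le_antisymm _ (k.Fv_nonneg b hb _ (k.vc_neg b hb).le)
  by_contra h
  rw [not_le, k.Fv_pos_iff b hb _ (k.vc_neg b hb).le] at h
  exact lt_irrefl _ h

theorem Ker.Fv_mono (k : Ker) (b : ℝ) (hb : 0 < b) (v v' : ℝ) (hv : v ≤ v') (hv' : v' ≤ 0) :
    k.Fv b hb v ≤ k.Fv b hb v' := by
  unfold Ker.Fv
  apply (Cop764.M_fanti.J_fanti (k.M b hb) (-v' / b) (-v / b) (div_nonneg (by linarith) hb.le) _).1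
  apply div_le_div_of_nonneg_right _ hb.le
  linarith

theorem Ker.exists_KHyp (k : Ker) (b : ℝ) (hb : 0 < b) :
    ∃ (c0 : ℝ) (n0 : ℕ), Cop764.KHyp (k.M b hb).K (k.M b hb).α c0 n0 :=
  Cop764.M_K.J_K (k.M b hb)

theorem Ker.L_eq (k : Ker) (b : ℝ) (hb : 0 < b) (v : ℝ) (ℓ : ℕ) :
    ∫ ω, (k.M b hb).lG (-v / b) 0 ℓ ω ∂(k.M b hb).P = L (k.p ℓ) b v := by
  unfold Ker.M
  rw [k.integral_lG (b / 2) (half_pos hb) (-v / b) ℓ]
  congr 1
  · ring
  · field_simp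

theorem Ker.L_tendsto (k : Ker) (b : ℝ) (hb : 0 < b) (v : ℝ) (hv : v ≤ 0) :
    Tendsto (fun ℓ : ℕ => L (k.p ℓ) b v / ℓ) atTop (𝓝 (k.Fv b hb v)) := by
  obtain ⟨c0, n0, hK⟩ := k.exists_KHyp b hb
  have := Cop764.h98_tendsto (k.M b hb) c0 n0 hK (-v / b) (div_nonneg (by linarith) hb.le)
  simp only [k.L_eq b hb v] at this
  exact this

theorem Ker.L_le (k : Ker) (b : ℝ) (hb : 0 < b) (v : ℝ) (hv : v ≤ 0) :
    ∀ᶠ ℓ : ℕ in atTop, L (k.p ℓ) b v ≤ ℓ * k.Fv b hb v := by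
  obtain ⟨c0, n0, hK⟩ := k.exists_KHyp b hb
  filter_upwards [eventually_ge_atTop n0] with ℓ hℓ
  rw [← k.L_eq b hb v]
  exact Cop764.h98_E_lG_le (k.M b hb) c0 n0 hK (-v / b) (div_nonneg (by linarith) hb.le) ℓ hℓ

theorem Ker.crit (k : Ker) (b : ℝ) (hb : 0 < b) :
    ∃ C, 0 ≤ C ∧ ∀ᶠ ℓ : ℕ in atTop,
      Real.log (∫ x, Real.exp ((2 * (1 + k.α))⁻¹ * Real.log (Zq (k.p ℓ) (bs b (k.vc b) x)))
        ∂(gm (Ix ℓ))) ≤ C * (1 + Real.log ℓ) := by
  obtain ⟨c0, n0, hK⟩ := k.exists_KHyp b hb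
  have hv := k.vc_neg b hb
  obtain ⟨C, hC, h1⟩ := Cop764.h98_crit (k.M b hb) c0 n0 hK (-k.vc b / b)
    (div_nonneg (by linarith) hb.le) (k.Fv_vc b hb).le
  refine ⟨C, hC, ?_⟩
  filter_upwards [eventually_ge_atTop n0] with ℓ hℓ
  have h2 := h1 ℓ hℓ
  have h3 := k.integral_bridge (b / 2) (half_pos hb) (-k.vc b / b) ℓ
    (fun y => Real.exp ((2 * (1 + k.α))⁻¹ * Real.log y))
    (Real.continuous_exp.comp_continuousOn (continuousOn_const.mul
      (Real.continuousOn_log.mono fun x hx => (ne_of_gt hx))))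
  have e1 : 2 * (b / 2) = b := by ring
  have e2 : -(2 * (b / 2)) * (-k.vc b / b) = k.vc b := by field_simp
  rw [e2, e1] at h3
  rw [← h3]
  exact h2

end H98Cop
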