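import Mathlib

set_option autoImplicit false

/-! # `log det (1 + A) ≥ tr A - tr (A²)/2` for positive semidefinite `A` -/

namespace H98Cop

open Matrix

variable {ι : Type*} [Fintype ι] [DecidableEq ι]

theorem log_one_add_ge {x : ℝ} (hx : 0 ≤ x) : x - x^2/2 ≤ Real.log (1 + x) := by
  have hcont : ∀ y ∈ Set.Ici (0:ℝ), 0 ≤ Real.log (1+y) - (y - y^2/2) := by
    have hmono : MonotoneOn (fun y : ℝ => Real.log (1+y) - (y - y^2/2)) (Set.Ici 0) := by
      apply monotoneOn_of_deriv_nonneg (convex_Ici 0)
      · apply ContinuousOn.sub
        · apply ContinuousOn.log (by fun_prop)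
          intro y hy; have : (0:ℝ) ≤ y := hy; linarith
        · fun_prop
      · intro y hy
        rw [interior_Ici] at hy
        have hy' : (0:ℝ) < y := hy
        have : DifferentiableAt ℝ (fun y : ℝ => Real.log (1+y) - (y - y^2/2)) y := by
          have : (1 + y) ≠ 0 := by linarith
          fun_prop (disch := assumption)
        exact this.differentiableWithinAt
      · intro y hy
        rw [interior_Ici] at hy
        have hy' : (0:ℝ) < y := hy
        have h1 : HasDerivAt (fun y : ℝ => Real.log (1+y) - (y - y^2/2)) (1/(1+y) - (1 - y)) y := by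
          have a1 : HasDerivAt (fun y : ℝ => 1 + y) 1 y := by simpa using (hasDerivAt_id y).const_add 1
          have a2 := a1.log (by linarith)
          have a3 : HasDerivAt (fun y : ℝ => y - y^2/2) (1 - y) y := by
            have := (hasDerivAt_id y).sub (((hasDerivAt_id y).pow 2).div_const 2)
            simp only [id] at this
            convert! this using 1
            simp
          exact a2.sub a3
        rw [h1.deriv]
        have : 1/(1+y) - (1-y) = y^2/(1+y) := by field_simp; ring
        rw [this]; positivity
    intro y hy
    have := hmono (Set.mem_Ici.2 le_rfl) hy hy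
    simpa using this
  have := hcont x hx
  linarith

theorem logdet_ge (A : Matrix ι ι ℝ) (hA : A.PosSemidef) :
    0 < (1 + A).det ∧ A.trace - (A * A).trace / 2 ≤ Real.log (1 + A).det := by
  have hH := hA.isHermitian
  set lam := hH.eigenvalues with hlam
  have hlam0 : ∀ i, 0 ≤ lam i := fun i => hA.eigenvalues_nonneg i
  set U : Matrix ι ι ℝ := (hH.eigenvectorUnitary : Matrix ι ι ℝ) with hU
  have hUU : U * star U = 1 := Unitary.coe_mul_star_self hH.eigenvectorUnitary
  have hUU' : star U * U = 1 := Unitary.coe_star_mul_self hH.eigenvectorUnitary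
  set D : Matrix ι ι ℝ := diagonal lam with hD
  have hAe : A = U * D * star U := by
    have := hH.spectral_theorem
    rw [Unitary.conjStarAlgAut_apply] at this
    exact this
  have hdet : (1 + A).det = ∏ i, (1 + lam i) := by
    have h1 : 1 + A = U * (1 + D) * star U := by
      rw [mul_add, add_mul, mul_one, hUU, ← hAe]
    rw [h1, det_mul, det_mul, mul_comm, ← mul_assoc, ← det_mul, hUU', det_one, one_mul]
    rw [hD, ← diagonal_one, diagonal_add, det_diagonal]
  have htr : A.trace = ∑ i, lam i := by
    rw [hAe, trace_mul_comm, ← mul_assoc, hUU', one_mul, hD, trace_diagonal]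
  have htr2 : (A * A).trace = ∑ i, lam i ^ 2 := by
    have h1 : A * A = U * (D * D) * star U := by
      calc A * A = U * D * star U * (U * D * star U) := by rw [← hAe]
        _ = U * D * (star U * U) * D * star U := by simp only [mul_assoc]
        _ = _ := by rw [hUU', mul_one]; simp only [mul_assoc]
    rw [h1, trace_mul_comm, ← mul_assoc, hUU', one_mul, hD, diagonal_mul_diagonal, trace_diagonal]
    apply Finset.sum_congr rfl; intro i _; ring
  constructor
  · rw [hdet]
    exact Finset.prod_pos fun i _ => by have := hlam0 i; linarith
  · rw [hdet, htr, htr2, Real.log_prod (fun i _ => by have := hlam0 i; linarith)]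
    rw [Finset.sum_div, ← Finset.sum_sub_distrib]
    exact Finset.sum_le_sum fun i _ => log_one_add_ge (hlam0 i)

end H98Cop
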