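import Pool.Agent.Helper98.Cop.Kaluza
import Pool.Graph.R_seed8.Helper764.CopDefs

set_option autoImplicit false

/-! # Sign patterns of the pinned copolymer and log-supermodularity of their weights -/

namespace H98Cop

/-- `s` is constant on `(i, k]` -/
def cst (s : Finset ℕ) (i k : ℕ) : Prop :=
  (∀ n ∈ Finset.Ioc i k, n ∈ s) ∨ (∀ n ∈ Finset.Ioc i k, n ∉ s)

instance (s : Finset ℕ) (i k : ℕ) : Decidable (cst s i k) := by
  unfold cst; infer_instance

/-- pattern weight on `(i, j]` -/
noncomputable def W (f : ℕ → ℝ) (s : Finset ℕ) (i j : ℕ) : ℝ :=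
  if i = j then 1 else
    ∑ k ∈ (Finset.Ioc i j).attach, if cst s i k.1 then f (k.1 - i) * W f s k.1 j else 0
termination_by j - i
decreasing_by
  have := Finset.mem_Ioc.mp k.2
  omega

theorem W_eq (f : ℕ → ℝ) (s : Finset ℕ) (i j : ℕ) :
    W f s i j = if i = j then 1 else
      ∑ k ∈ Finset.Ioc i j, if cst s i k then f (k - i) * W f s k j else 0 := by
  rw [W]
  split_ifs
  · rfl
  · exact Finset.sum_attach (Finset.Ioc i j) (fun k => if cst s i k then f (k - i) * W f s k j else 0)

theorem W_self (f : ℕ → ℝ) (s : Finset ℕ) (i : ℕ) : W f s i i = 1 := by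
  rw [W_eq]; simp

theorem W_lt (f : ℕ → ℝ) (s : Finset ℕ) {i j : ℕ} (h : i < j) :
    W f s i j = ∑ k ∈ Finset.Ioc i j, if cst s i k then f (k - i) * W f s k j else 0 := by
  rw [W_eq, if_neg h.ne]

theorem W_nonneg (f : ℕ → ℝ) (hf : ∀ n, 0 ≤ f n) (s : Finset ℕ) (i j : ℕ) : 0 ≤ W f s i j := by
  induction hd : j - i using Nat.strong_induction_on generalizing i with
  | _ d ih =>
    rw [W_eq]
    split_ifs with h
    · exact zero_le_one
    · apply Finset.sum_nonneg
      intro k hk
      have hk' := Finset.mem_Ioc.1 hk
      split_ifs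
      · exact mul_nonneg (hf _) (ih (j - k) (by omega) k rfl)
      · exact le_rfl

theorem cst_congr {s t : Finset ℕ} {i k : ℕ} (h : ∀ n ∈ Finset.Ioc i k, (n ∈ s ↔ n ∈ t)) :
    cst s i k ↔ cst t i k := by
  unfold cst
  constructor
  · rintro (h1 | h1)
    · exact Or.inl fun n hn => (h n hn).1 (h1 n hn)
    · exact Or.inr fun n hn hn' => h1 n hn ((h n hn).2 hn')
  · rintro (h1 | h1)
    · exact Or.inl fun n hn => (h n hn).2 (h1 n hn)
    · exact Or.inr fun n hn hn' => h1 n hn ((h n hn).1 hn')

theorem W_congr (f : ℕ → ℝ) {s t : Finset ℕ} (i j : ℕ)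
    (h : ∀ n ∈ Finset.Ioc i j, (n ∈ s ↔ n ∈ t)) : W f s i j = W f t i j := by
  induction hd : j - i using Nat.strong_induction_on generalizing i with
  | _ d ih =>
    rw [W_eq, W_eq f t]
    split_ifs with hij
    · rfl
    · apply Finset.sum_congr rfl
      intro k hk
      have hk' := Finset.mem_Ioc.1 hk
      have h1 : cst s i k ↔ cst t i k := by
        apply cst_congr
        intro n hn
        have := Finset.mem_Ioc.1 hn
        exact h n (Finset.mem_Ioc.2 ⟨this.1, by omega⟩)
      have h2 : W f s k j = W f t k j := by
        apply ih (j - k) (by omega) k _ rfl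
        intro n hn
        have := Finset.mem_Ioc.1 hn
        exact h n (Finset.mem_Ioc.2 ⟨by omega, this.2⟩)
      by_cases h3 : cst s i k
      · rw [if_pos h3, if_pos (h1.1 h3), h2]
      · rw [if_neg h3, if_neg (fun h4 => h3 (h1.2 h4))]

theorem cst_mono {s : Finset ℕ} {i i' k k' : ℕ} (hi : i ≤ i') (hk : k' ≤ k) (h : cst s i k) :
    cst s i' k' := by
  rcases h with h | h
  · left; intro n hn; apply h; rw [Finset.mem_Ioc] at *; omega
  · right; intro n hn; apply h; rw [Finset.mem_Ioc] at *; omega

/-- `m` is a cut of the pattern `s` on `(·, j]` -/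
def cut (s : Finset ℕ) (m j : ℕ) : Prop := m = j ∨ (m < j ∧ (m ∈ s ↔ m + 1 ∉ s))

theorem cst_iff_of_cut {s : Finset ℕ} {i m j k : ℕ} (him : i < m) (hc : cst s i m)
    (hcut : cut s m j) (hk : k ≤ j) : cst s i k ↔ k ≤ m := by
  constructor
  · intro h
    by_contra hlt
    push Not at hlt
    rcases hcut with h1 | ⟨h1, h2⟩
    · omega
    · rcases h with h | h
      · have a1 := h m (Finset.mem_Ioc.2 ⟨him, hlt.le⟩)
        have a2 := h (m+1) (Finset.mem_Ioc.2 ⟨by omega, by omega⟩)
        exact (h2.1 a1) a2
      · have a1 := h m (Finset.mem_Ioc.2 ⟨him, hlt.le⟩)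
        have a2 := h (m+1) (Finset.mem_Ioc.2 ⟨by omega, by omega⟩)
        exact a1 (h2.2 a2)
  · intro h
    exact cst_mono le_rfl h hc

theorem W_block (f : ℕ → ℝ) (s : Finset ℕ) (i m j : ℕ) (him : i ≤ m) (hmj : m ≤ j)
    (hc : cst s i m) (hcut : cut s m j) : W f s i j = ren f (m - i) * W f s m j := by
  induction hd : m - i using Nat.strong_induction_on generalizing i with
  | _ d ih =>
    rcases him.eq_or_lt with rfl | him'
    · have : d = 0 := by omega
      subst this
      rw [ren_zero, one_mul]
    · have hij : i < j := by omega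
      rw [W_lt f s hij]
      have h1 : ∑ k ∈ Finset.Ioc i j, (if cst s i k then f (k - i) * W f s k j else 0)
          = ∑ k ∈ Finset.Ioc i m, f (k - i) * W f s k j := by
        rw [← Finset.sum_filter]
        apply Finset.sum_congr
        · ext k
          simp only [Finset.mem_filter, Finset.mem_Ioc]
          constructor
          · rintro ⟨⟨a, b⟩, c⟩
            exact ⟨a, (cst_iff_of_cut him' hc hcut b).1 c⟩
          · rintro ⟨a, b⟩
            exact ⟨⟨a, by omega⟩, (cst_iff_of_cut him' hc hcut (by omega)).2 b⟩
        · intro _ _; rfl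
      rw [h1]
      have h2 : ∀ k ∈ Finset.Ioc i m, f (k - i) * W f s k j
          = (f (k - i) * ren f (m - k)) * W f s m j := by
        intro k hk
        have hk' := Finset.mem_Ioc.1 hk
        rw [ih (m - k) (by omega) k hk'.2 (cst_mono (by omega) le_rfl hc) rfl]
        ring
      rw [Finset.sum_congr rfl h2, ← Finset.sum_mul]
      congr 1
      obtain ⟨e, rfl⟩ : ∃ e, d = e + 1 := ⟨d - 1, by omega⟩
      rw [ren_succ]
      symm
      apply Finset.sum_nbij' (fun k => i + 1 + k) (fun k => k - i - 1)
      · intro k hk; have := Finset.mem_range.1 hk; rw [Finset.mem_Ioc]; omega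
      · intro k hk; have := Finset.mem_Ioc.1 hk; rw [Finset.mem_range]; omega
      · intro k hk; have := Finset.mem_range.1 hk; omega
      · intro k hk; have := Finset.mem_Ioc.1 hk; omega
      · intro k hk
        have hk' := Finset.mem_range.1 hk
        rw [show i + 1 + k - i = k + 1 by omega, show m - (i + 1 + k) = e - k by omega]

theorem exists_block (s : Finset ℕ) (i j : ℕ) (hij : i < j) :
    ∃ m, i < m ∧ m ≤ j ∧ cst s i m ∧ cut s m j ∧ ∀ k, k ≤ j → cst s i k → k ≤ m := by
  classical
  have h0 : cst s i (i+1) := by
    by_cases h : i + 1 ∈ s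
    · left; intro n hn; rw [Finset.mem_Ioc] at hn
      have : n = i + 1 := by omega
      rw [this]; exact h
    · right; intro n hn; rw [Finset.mem_Ioc] at hn
      have : n = i + 1 := by omega
      rw [this]; exact h
  set m := Nat.findGreatest (fun m => cst s i m) j with hm
  have h1 : i + 1 ≤ m := Nat.le_findGreatest (P := fun m => cst s i m) (by omega) h0
  have h2 : m ≤ j := Nat.findGreatest_le j
  have h3 : cst s i m := Nat.findGreatest_spec (P := fun m => cst s i m) (m := i+1) (by omega) h0
  have h4 : ∀ k, k ≤ j → cst s i k → k ≤ m := fun k hk hc => Nat.le_findGreatest hk hc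
  refine ⟨m, by omega, h2, h3, ?_, h4⟩
  rcases h2.eq_or_lt with h5 | h5
  · exact Or.inl h5
  · right
    refine ⟨h5, ?_⟩
    have h6 : ¬ cst s i (m+1) := fun h => by have := h4 (m+1) (by omega) h; omega
    rcases h3 with h3 | h3
    · have hm1 : m ∈ s := h3 m (Finset.mem_Ioc.2 ⟨by omega, le_rfl⟩)
      constructor
      · intro _ hm2
        apply h6
        left
        intro n hn
        rw [Finset.mem_Ioc] at hn
        rcases (show n ≤ m ∨ n = m + 1 by omega) with h | h
        · exact h3 n (Finset.mem_Ioc.2 ⟨hn.1, h⟩)
        · rw [h]; exact hm2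
      · intro _; exact hm1
    · have hm1 : m ∉ s := h3 m (Finset.mem_Ioc.2 ⟨by omega, le_rfl⟩)
      constructor
      · intro h; exact absurd h hm1
      · intro hm2
        exfalso
        apply h6
        right
        intro n hn
        rw [Finset.mem_Ioc] at hn
        rcases (show n ≤ m ∨ n = m + 1 by omega) with h | h
        · exact h3 n (Finset.mem_Ioc.2 ⟨hn.1, h⟩)
        · rw [h]; exact hm2

/-- log-supermodularity of the pattern weights -/
theorem W_lsm (f : ℕ → ℝ) (hf0 : ∀ n, 0 ≤ f n) (hf : ∀ k, 1 ≤ k → 0 < f k)
    (hlc : ∀ k, 1 ≤ k → f (k+1) ^ 2 ≤ f k * f (k+2)) (i j : ℕ) (hij : i ≤ j)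
    (s t : Finset ℕ) : W f s i j * W f t i j ≤ W f (s ∩ t) i j * W f (s ∪ t) i j := by
  have hup := ren_pos f hf
  have hmono := ratio_mono_shift (ren f) hup (ren_logconvex f hf hlc)
  induction hd : j - i using Nat.strong_induction_on generalizing i s t with
  | _ d ih =>
    rcases hij.eq_or_lt with rfl | hij'
    · simp [W_self]
    · -- symmetric reduction
      have key : ∀ s t : Finset ℕ, ∀ ms mt, i < ms → ms ≤ j → cst s i ms → cut s ms j →
          i < mt → mt ≤ j → cst t i mt → cut t mt j → ms ≤ mt →
          W f s i j * W f t i j ≤ W f (s ∩ t) i j * W f (s ∪ t) i j := by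
        intro s t a mt ha1 ha2 ha3 ha4 hm1 hm2 hm3 hm4 hle
        obtain ⟨mi, hi1, hi2, hi3, hi4, hi5⟩ := exists_block (s ∩ t) i j hij'
        obtain ⟨mu, hu1, hu2, hu3, hu4, hu5⟩ := exists_block (s ∪ t) i j hij'
        have hta : cst t i a := cst_mono le_rfl hle hm3
        have hia : cst (s ∩ t) i a := by
          rcases ha3 with h | h
          · rcases hta with h' | h'
            · left; intro n hn; exact Finset.mem_inter.2 ⟨h n hn, h' n hn⟩
            · right; intro n hn hn'; exact h' n hn (Finset.mem_inter.1 hn').2
          · right; intro n hn hn'; exact h n hn (Finset.mem_inter.1 hn').1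
        have hua : cst (s ∪ t) i a := by
          rcases ha3 with h | h
          · left; intro n hn; exact Finset.mem_union.2 (Or.inl (h n hn))
          · rcases hta with h' | h'
            · left; intro n hn; exact Finset.mem_union.2 (Or.inr (h' n hn))
            · right; intro n hn hn'
              rcases Finset.mem_union.1 hn' with h'' | h''
              · exact h n hn h''
              · exact h' n hn h''
        have hami : a ≤ mi := hi5 a ha2 hia
        have hamu : a ≤ mu := hu5 a ha2 hua
        -- relation between weights from `i` and from `a`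
        have rel : ∀ (r : Finset ℕ) (m : ℕ), a ≤ m → m ≤ j → cst r i m → cut r m j →
            W f r i j * ren f (m - a) = ren f (m - i) * W f r a j := by
          intro r m h1 h2 h3 h4
          rw [W_block f r i m j (by omega) h2 h3 h4,
            W_block f r a m j h1 h2 (cst_mono (by omega) le_rfl h3) h4]
          ring
        have rels := rel s a le_rfl ha2 ha3 ha4
        rw [Nat.sub_self, ren_zero, mul_one] at rels
        have relt := rel t mt hle hm2 hm3 hm4
        have reli := rel (s ∩ t) mi hami hi2 hi3 hi4
        have relu := rel (s ∪ t) mu hamu hu2 hu3 hu4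
        have hIH := ih (j - a) (by omega) a ha2 s t rfl
        have wn := fun (r : Finset ℕ) => W_nonneg f hf0 r a j
        -- R function
        set R : ℕ → ℝ := fun m => ren f (m - i) / ren f (m - a) with hR
        have hRpos : ∀ m, 0 < R m := fun m => div_pos (hup _) (hup _)
        have hRmono : ∀ m m', a ≤ m → m ≤ m' → R m ≤ R m' := by
          intro m m' h1 h2
          rw [hR]
          simp only
          rw [div_le_div_iff₀ (hup _) (hup _)]
          have := hmono (a - i) (m - a) (m' - a) (by omega)
          rw [show m - a + (a - i) = m - i by omega, show m' - a + (a - i) = m' - i by omega] at this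
          exact this
        have es : W f s i j = R a * W f s a j := by
          rw [hR]; simp only [Nat.sub_self, ren_zero, div_one]; exact rels
        have conv : ∀ (r : Finset ℕ) (m : ℕ), W f r i j * ren f (m - a) = ren f (m - i) * W f r a j →
            W f r i j = R m * W f r a j := by
          intro r m h
          have := hup (m - a)
          rw [hR]; simp only
          rw [div_mul_eq_mul_div, eq_div_iff this.ne']; exact h
        have et := conv t mt relt
        have ei := conv _ mi reli
        have eu := conv _ mu relu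
        rw [es, et, ei, eu]
        have hR1 : R a ≤ R mi := hRmono a mi le_rfl hami
        have hR2 : R a ≤ R mu := hRmono a mu le_rfl hamu
        have hRR : R a * R mt ≤ R mi * R mu := by
          rcases hm3 with h | h
          · have : cst (s ∪ t) i mt := by
              left; intro n hn; exact Finset.mem_union.2 (Or.inr (h n hn))
            have h7 : R mt ≤ R mu := hRmono mt mu hle (hu5 mt hm2 this)
            exact mul_le_mul hR1 h7 (hRpos _).le (hRpos _).le
          · have : cst (s ∩ t) i mt := by
              right; intro n hn hn'; exact h n hn (Finset.mem_inter.1 hn').2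
            have h7 : R mt ≤ R mi := hRmono mt mi hle (hi5 mt hm2 this)
            calc R a * R mt ≤ R mu * R mi := mul_le_mul hR2 h7 (hRpos _).le (hRpos _).le
              _ = _ := mul_comm _ _
        calc R a * W f s a j * (R mt * W f t a j)
            = (R a * R mt) * (W f s a j * W f t a j) := by ring
          _ ≤ (R mi * R mu) * (W f (s ∩ t) a j * W f (s ∪ t) a j) :=
              mul_le_mul hRR hIH (mul_nonneg (wn _) (wn _)) (mul_pos (hRpos _) (hRpos _)).le
          _ = _ := by ring
      obtain ⟨ms, h1, h2, h3, h4, -⟩ := exists_block s i j hij'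
      obtain ⟨mt, g1, g2, g3, g4, -⟩ := exists_block t i j hij'
      rcases le_total ms mt with h | h
      · exact key s t ms mt h1 h2 h3 h4 g1 g2 g3 g4 h
      · have := key t s mt ms g1 g2 g3 g4 h1 h2 h3 h4 h
        rw [mul_comm, Finset.inter_comm, Finset.union_comm]
        exact this

/-- expansion of the pinned partition function over sign patterns -/
theorem G_eq_sum (K w : ℕ → ℝ) (i j : ℕ) (hij : i ≤ j) :
    Cop764.G K w i j = ∑ A ∈ (Finset.Ioc i j).powerset,
      W (fun k => K k / 2) A i j * Real.exp (∑ n ∈ A, w n) := by
  set f : ℕ → ℝ := fun k => K k / 2 with hf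
  induction hd : j - i using Nat.strong_induction_on generalizing i with
  | _ d ih =>
    rcases hij.eq_or_lt with rfl | hij'
    · rw [Cop764.G_eq]; simp [W_self]
    · rw [Cop764.G_eq, if_neg hij'.ne]
      have hR : ∑ A ∈ (Finset.Ioc i j).powerset, W f A i j * Real.exp (∑ n ∈ A, w n)
          = ∑ k ∈ Finset.Ioc i j, ∑ A ∈ (Finset.Ioc i j).powerset,
            (if cst A i k then f (k - i) * W f A k j * Real.exp (∑ n ∈ A, w n) else 0) := by
        rw [Finset.sum_comm]
        apply Finset.sum_congr rfl
        intro A _
        rw [W_lt f A hij', Finset.sum_mul]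
        apply Finset.sum_congr rfl
        intro k _
        split_ifs <;> simp
      rw [hR]
      apply Finset.sum_congr rfl
      intro k hk
      have hk' := Finset.mem_Ioc.1 hk
      rw [ih (j - k) (by omega) k hk'.2 rfl]
      rw [← Finset.sum_filter]
      -- split the filter into the two kinds
      have hsplit : (Finset.Ioc i j).powerset.filter (fun A => cst A i k)
          = ((Finset.Ioc k j).powerset) ∪ ((Finset.Ioc k j).powerset.image (fun B => B ∪ Finset.Ioc i k)) := by
        ext A
        simp only [Finset.mem_filter, Finset.mem_powerset, Finset.mem_union, Finset.mem_image]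
        constructor
        · rintro ⟨hA, h | h⟩
          · right
            refine ⟨A ∩ Finset.Ioc k j, Finset.inter_subset_right, ?_⟩
            ext n
            simp only [Finset.mem_union, Finset.mem_inter, Finset.mem_Ioc]
            constructor
            · rintro (⟨h1, _⟩ | h1)
              · exact h1
              · exact h n (Finset.mem_Ioc.2 h1)
            · intro hn
              have := Finset.mem_Ioc.1 (hA hn)
              by_cases h2 : n ≤ k
              · right; exact ⟨this.1, h2⟩
              · left; exact ⟨hn, by omega, this.2⟩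
          · left
            intro n hn
            have := Finset.mem_Ioc.1 (hA hn)
            rw [Finset.mem_Ioc]
            refine ⟨?_, this.2⟩
            by_contra h2
            push Not at h2
            exact h n (Finset.mem_Ioc.2 ⟨this.1, h2⟩) hn
        · rintro (h | ⟨B, hB, rfl⟩)
          · refine ⟨fun n hn => ?_, Or.inr fun n hn hn' => ?_⟩
            · have := Finset.mem_Ioc.1 (h hn); rw [Finset.mem_Ioc]; omega
            · have h1 := Finset.mem_Ioc.1 (h hn'); have h2 := Finset.mem_Ioc.1 hn; omega
          · refine ⟨fun n hn => ?_, Or.inl fun n hn => ?_⟩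
            · rcases Finset.mem_union.1 hn with h1 | h1
              · have := Finset.mem_Ioc.1 (hB h1); rw [Finset.mem_Ioc]; omega
              · have := Finset.mem_Ioc.1 h1; rw [Finset.mem_Ioc]; omega
            · exact Finset.mem_union.2 (Or.inr hn)
      have hdisj : Disjoint ((Finset.Ioc k j).powerset)
          ((Finset.Ioc k j).powerset.image (fun B => B ∪ Finset.Ioc i k)) := by
        rw [Finset.disjoint_left]
        intro A hA hA'
        rw [Finset.mem_image] at hA'
        obtain ⟨B, hB, rfl⟩ := hA'
        have h1 : k ∈ B ∪ Finset.Ioc i k := Finset.mem_union.2 (Or.inr (Finset.mem_Ioc.2 ⟨hk'.1, le_rfl⟩))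
        have h2 := Finset.mem_Ioc.1 (Finset.mem_powerset.1 hA h1)
        omega
      rw [hsplit, Finset.sum_union hdisj]
      have hinj : Set.InjOn (fun B : Finset ℕ => B ∪ Finset.Ioc i k) ((Finset.Ioc k j).powerset : Set (Finset ℕ)) := by
        intro B hB B' hB' h
        rw [Finset.mem_coe, Finset.mem_powerset] at hB hB'
        simp only at h
        ext n
        constructor
        · intro hn
          have h1 : n ∈ B' ∪ Finset.Ioc i k := by rw [← h]; exact Finset.mem_union.2 (Or.inl hn)
          rcases Finset.mem_union.1 h1 with h2 | h2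
          · exact h2
          · have a1 := Finset.mem_Ioc.1 (hB hn); have a2 := Finset.mem_Ioc.1 h2; omega
        · intro hn
          have h1 : n ∈ B ∪ Finset.Ioc i k := by rw [h]; exact Finset.mem_union.2 (Or.inl hn)
          rcases Finset.mem_union.1 h1 with h2 | h2
          · exact h2
          · have a1 := Finset.mem_Ioc.1 (hB' hn); have a2 := Finset.mem_Ioc.1 h2; omega
      rw [Finset.sum_image hinj]
      rw [Finset.mul_sum, ← Finset.sum_add_distrib]
      apply Finset.sum_congr rfl
      intro B hB
      have hB' := Finset.mem_powerset.1 hB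
      have hW : W f (B ∪ Finset.Ioc i k) k j = W f B k j := by
        apply W_congr
        intro n hn
        have a1 := Finset.mem_Ioc.1 hn
        simp only [Finset.mem_union, Finset.mem_Ioc]
        constructor
        · rintro (h | h)
          · exact h
          · omega
        · intro h; exact Or.inl h
      have hdis : Disjoint B (Finset.Ioc i k) := by
        rw [Finset.disjoint_left]
        intro n hn hn'
        have a1 := Finset.mem_Ioc.1 (hB' hn); have a2 := Finset.mem_Ioc.1 hn'; omega
      rw [hW, Finset.sum_union hdis, Real.exp_add]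
      unfold Cop764.phi Cop764.S
      rw [hf]
      ring

end H98Cop
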