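import Pool.Agent.Helper98.Cop.Main

set_option autoImplicit false

/-! # Overlap, recursion and the exponent -/

namespace H98Cop

open MeasureTheory ProbabilityTheory Filter Topology
open Cop764 (Data)

/-- existence of a good coupling -/
theorem Ker.exists_good (k : Ker) : ∃ b t, 0 < b ∧ 0 < t ∧ 0 < t * b + k.vc (b + t) - k.vc b := by
  obtain ⟨lam, hlam, h1, h10, h1l, hf⟩ := k.exists_lt
  have hb : 0 < 2 * lam := by positivity
  apply telescope k.vc (fun b hb => (k.vc_neg b hb).le) (2 * lam) hb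
  rw [k.vc_eq _ hb]
  have hM : k.M (2 * lam) hb = k.D lam hlam := by
    unfold Ker.M
    congr 1
    ring
  have h2 := ((k.hc_spec (2 * lam) hb).2 h1 h10).2
  rw [hM] at h2
  have h3 : k.hc (2 * lam) hb ≤ h1 := by
    by_contra h
    exact absurd (h2 (not_le.1 h)) (not_lt.2 hf)
  nlinarith

theorem Ker.overlap (k : Ker) (b t : ℝ) (hb : 0 < b) (ht : 0 < t)
    (_hD0 : 0 < t * b + k.vc (b + t) - k.vc b) (δ : ℝ) (hδ : 0 < δ)
    (hδD : δ ≤ (t * b + k.vc (b + t) - k.vc b) / 2) (hv : k.vc b + δ ≤ 0) :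
    ∀ᶠ ℓ : ℕ in atTop, (t * b + k.vc (b + t) - k.vc b) / (2 * t * b) *
      R1 (k.p ℓ) b (k.vc b + δ) ≤ R2 (k.p ℓ) b (k.vc b + δ) := by
  have hpos : 0 < k.Fv b hb (k.vc b + δ) := (k.Fv_pos_iff b hb _ hv).2 (by linarith)
  have h1 : ∀ᶠ ℓ : ℕ in atTop, 0 < L (k.p ℓ) b (k.vc b + δ) / ℓ :=
    (k.L_tendsto b hb _ hv).eventually_const_lt hpos
  have hbt : 0 < b + t := by positivity
  have h2 := k.L_le (b + t) hbt (k.vc (b + t)) (k.vc_neg _ hbt).le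
  filter_upwards [h1, h2, eventually_ge_atTop 1] with ℓ a1 a2 hℓ
  have hℓr : (0:ℝ) < ℓ := by exact_mod_cast hℓ
  rw [k.Fv_vc, mul_zero] at a2
  have a3 : 0 < L (k.p ℓ) b (k.vc b + δ) := by
    by_contra h
    have := div_nonpos_of_nonpos_of_nonneg (not_lt.1 h) hℓr.le
    linarith
  have a4 := (k.pw ℓ).L_hyperplane b (k.vc b + δ) t (k.vc (b + t))
  have a5 := (k.pw ℓ).R1_nonneg b (k.vc b + δ)
  set r1 := R1 (k.p ℓ) b (k.vc b + δ) with hr1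
  set r2 := R2 (k.p ℓ) b (k.vc b + δ) with hr2
  set D0 := t * b + k.vc (b + t) - k.vc b with hD
  have a6 : t * (b * (r1 - r2)) + (k.vc (b + t) - (k.vc b + δ)) * r1 ≤ 0 := by linarith
  have a7 : (D0 - δ) * r1 ≤ t * b * r2 := by
    rw [hD]; nlinarith
  have a8 : D0 / 2 * r1 ≤ t * b * r2 := by nlinarith
  rw [div_mul_eq_mul_div, div_le_iff₀ (by positivity)]
  nlinarith

/-- the recursive inequality for the free energy near the critical point -/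
theorem Ker.recursion (k : Ker) (b : ℝ) (hb : 0 < b) (c0 : ℝ) (hc0 : 0 < c0) (δ : ℝ) (hδ : 0 < δ)
    (hov : ∀ᶠ ℓ : ℕ in atTop, c0 * R1 (k.p ℓ) b (k.vc b + δ) ≤ R2 (k.p ℓ) b (k.vc b + δ))
    (J : ℕ) (hJ : 1 ≤ J) (hv : 2 ^ (J + 1) * δ ≤ -k.vc b) :
    k.Fv b hb (k.vc b + δ) ≤
      (2 * (1 + k.α) / c0 ^ 2) / J ^ 2 *
        (∑ j ∈ Finset.range J, ((1:ℝ) / 4) ^ j * k.Fv b hb (k.vc b + 2 ^ (j + 2) * δ)) +
      ((1 + k.α) / (b ^ 2 * c0 ^ 2)) * δ / 2 ^ J * k.Fv b hb (k.vc b + 2 ^ (J + 1) * δ) := by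
  have hα := k.hα
  have hJr : (0:ℝ) < J := by exact_mod_cast hJ
  set θ : ℝ := (2 * (1 + k.α))⁻¹ with hθ
  have hθp : 0 < θ := by positivity
  set κ : ℝ := δ / (b * c0) with hκ
  have hκp : 0 < κ := by positivity
  set v0 := k.vc b with hv0
  obtain ⟨C, hC, hcrit⟩ := k.crit b hb
  set g : ℕ → ℝ → ℝ := fun ℓ v => L (k.p ℓ) b v / ℓ with hg
  have hrange : ∀ j, j ≤ J + 1 → v0 + 2 ^ j * δ ≤ 0 := by
    intro j hj
    have : (2:ℝ) ^ j ≤ 2 ^ (J + 1) := pow_le_pow_right₀ (by norm_num) hj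
    nlinarith
  have hgt : ∀ v, v ≤ 0 → Tendsto (fun ℓ => g ℓ v) atTop (𝓝 (k.Fv b hb v)) := fun v hv =>
    k.L_tendsto b hb v hv
  -- the finite volume inequality divided by the volume
  have hfin : ∀ᶠ ℓ : ℕ in atTop, θ * g ℓ (v0 + δ) ≤ C * ((1 + Real.log ℓ) / ℓ) +
      (κ / J * b) ^ 2 / 2 * (∑ j ∈ Finset.range J, 4 * (((g ℓ (v0 + 2 ^ (j + 2) * δ) -
        g ℓ (v0 + 2 ^ (j + 1) * δ)) / (2 ^ (j + 1) * δ)) / δ * (1 / 2) ^ j)) +
      κ ^ 2 / 2 * ((g ℓ (v0 + 2 ^ (J + 1) * δ) - g ℓ (v0 + 2 ^ J * δ)) / (2 ^ J * δ)) := by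
    filter_upwards [hov, hcrit, eventually_ge_atTop 1] with ℓ a1 a2 hℓ
    have hℓr : (0:ℝ) < ℓ := by exact_mod_cast hℓ
    have a3 : δ * R1 (k.p ℓ) b (v0 + δ) ≤ b * κ * R2 (k.p ℓ) b (v0 + δ) := by
      have h1 := mul_le_mul_of_nonneg_left a1 (by positivity : 0 ≤ δ / c0)
      have e1 : δ / c0 * (c0 * R1 (k.p ℓ) b (v0 + δ)) = δ * R1 (k.p ℓ) b (v0 + δ) := by field_simp
      have e2 : b * κ = δ / c0 := by rw [hκ]; field_simp
      rw [e1] at h1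
      rw [e2]; exact h1
    have a4 := (k.pw ℓ).fv_main hb hθp hδ hκp hJ a3
    have hR : ∀ v a, 0 < a → R1 (k.p ℓ) b v ≤ ℓ * ((g ℓ (v + a) - g ℓ v) / a) := by
      intro v a ha
      have := (k.pw ℓ).R1_le b v ha
      refine this.trans (le_of_eq ?_)
      simp only [hg]
      field_simp
    have a5 : ∑ j ∈ Finset.range J, 4 * (R1 (k.p ℓ) b (v0 + 2 * sc δ j) / δ * (1 / 2) ^ j) ≤
        ℓ * (∑ j ∈ Finset.range J, 4 * (((g ℓ (v0 + 2 ^ (j + 2) * δ) -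
        g ℓ (v0 + 2 ^ (j + 1) * δ)) / (2 ^ (j + 1) * δ)) / δ * (1 / 2) ^ j)) := by
      rw [Finset.mul_sum]
      apply Finset.sum_le_sum
      intro j _
      have h1 := hR (v0 + 2 * sc δ j) (2 ^ (j + 1) * δ) (by positivity)
      have e1 : v0 + 2 * sc δ j + 2 ^ (j + 1) * δ = v0 + 2 ^ (j + 2) * δ := by unfold sc; ring
      have e2 : v0 + 2 * sc δ j = v0 + 2 ^ (j + 1) * δ := by unfold sc; ring
      rw [e1] at h1
      rw [e2] at h1 ⊢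
      have h2 := div_le_div_of_nonneg_right h1 hδ.le
      have h3 := mul_le_mul_of_nonneg_right h2 (by positivity : (0:ℝ) ≤ (1 / 2) ^ j)
      calc 4 * (R1 (k.p ℓ) b (v0 + 2 ^ (j + 1) * δ) / δ * (1 / 2) ^ j)
          ≤ 4 * (↑ℓ * ((g ℓ (v0 + 2 ^ (j + 2) * δ) - g ℓ (v0 + 2 ^ (j + 1) * δ)) /
            (2 ^ (j + 1) * δ)) / δ * (1 / 2) ^ j) := by linarith
        _ = _ := by ring
    have a6 : R1 (k.p ℓ) b (v0 + sc δ J) ≤
        ℓ * ((g ℓ (v0 + 2 ^ (J + 1) * δ) - g ℓ (v0 + 2 ^ J * δ)) / (2 ^ J * δ)) := by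
      have h1 := hR (v0 + sc δ J) (2 ^ J * δ) (by positivity)
      have e1 : v0 + sc δ J + 2 ^ J * δ = v0 + 2 ^ (J + 1) * δ := by unfold sc; ring
      rw [e1] at h1
      exact h1
    have e3 : θ * g ℓ (v0 + δ) = (θ * L (k.p ℓ) b (v0 + δ)) / ℓ := by simp only [hg]; ring
    rw [e3, div_le_iff₀ hℓr]
    have h7 := mul_le_mul_of_nonneg_left a5 (by positivity : 0 ≤ (κ / J * b) ^ 2 / 2)
    have h8 := mul_le_mul_of_nonneg_left a6 (by positivity : 0 ≤ κ ^ 2 / 2)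
    calc θ * L (k.p ℓ) b (v0 + δ) ≤ _ := a4
      _ ≤ C * (1 + Real.log ℓ) + (κ / J * b) ^ 2 / 2 * (ℓ * (∑ j ∈ Finset.range J,
            4 * (((g ℓ (v0 + 2 ^ (j + 2) * δ) -
            g ℓ (v0 + 2 ^ (j + 1) * δ)) / (2 ^ (j + 1) * δ)) / δ * (1 / 2) ^ j))) +
            κ ^ 2 / 2 * (ℓ * ((g ℓ (v0 + 2 ^ (J + 1) * δ) - g ℓ (v0 + 2 ^ J * δ)) / (2 ^ J * δ))) := by
          linarith
      _ = _ := by
          have hcl : C * ((1 + Real.log ℓ) / ℓ) * ℓ = C * (1 + Real.log ℓ) := by field_simp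
          linear_combination -hcl
  -- pass to the limit
  have hlog : Tendsto (fun ℓ : ℕ => C * ((1 + Real.log ℓ) / ℓ)) atTop (𝓝 0) := by
    have h1 : Tendsto (fun ℓ : ℕ => ((ℓ:ℝ))⁻¹) atTop (𝓝 0) :=
      tendsto_inv_atTop_zero.comp tendsto_natCast_atTop_atTop
    have h2 : Tendsto (fun ℓ : ℕ => Real.log (ℓ:ℝ) / ℓ) atTop (𝓝 0) :=
      (Real.isLittleO_log_id_atTop.tendsto_div_nhds_zero).comp tendsto_natCast_atTop_atTop
    have h3 := (h1.add h2).const_mul C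
    rw [add_zero, mul_zero] at h3
    refine h3.congr fun ℓ => ?_
    rw [add_div, one_div]
  have hlim : Tendsto (fun ℓ : ℕ => C * ((1 + Real.log ℓ) / ℓ) +
      (κ / J * b) ^ 2 / 2 * (∑ j ∈ Finset.range J, 4 * (((g ℓ (v0 + 2 ^ (j + 2) * δ) -
        g ℓ (v0 + 2 ^ (j + 1) * δ)) / (2 ^ (j + 1) * δ)) / δ * (1 / 2) ^ j)) +
      κ ^ 2 / 2 * ((g ℓ (v0 + 2 ^ (J + 1) * δ) - g ℓ (v0 + 2 ^ J * δ)) / (2 ^ J * δ))) atTop
      (𝓝 (0 + (κ / J * b) ^ 2 / 2 * (∑ j ∈ Finset.range J, 4 * (((k.Fv b hb (v0 + 2 ^ (j + 2) * δ) -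
        k.Fv b hb (v0 + 2 ^ (j + 1) * δ)) / (2 ^ (j + 1) * δ)) / δ * (1 / 2) ^ j)) +
      κ ^ 2 / 2 * ((k.Fv b hb (v0 + 2 ^ (J + 1) * δ) - k.Fv b hb (v0 + 2 ^ J * δ)) / (2 ^ J * δ)))) := by
    refine (hlog.add (Tendsto.const_mul _ (tendsto_finsetSum _ fun j hj => ?_))).add
      (Tendsto.const_mul _ (((hgt _ (hrange _ le_rfl)).sub (hgt _ (hrange _ (by omega)))).div_const _))
    rw [Finset.mem_range] at hj
    exact ((((hgt _ (hrange _ (by omega))).sub (hgt _ (hrange _ (by omega)))).div_const _).div_const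
      _).mul_const _ |>.const_mul _
  have hv1 : v0 + δ ≤ 0 := by
    have := hrange 0 (by omega)
    simpa using this
  have hmain := le_of_tendsto_of_tendsto ((hgt _ hv1).const_mul θ) hlim hfin
  rw [zero_add] at hmain
  -- drop the negative terms
  have hnn : ∀ j, j ≤ J + 1 → 0 ≤ k.Fv b hb (v0 + 2 ^ j * δ) := fun j hj =>
    k.Fv_nonneg b hb _ (hrange j hj)
  have hs : (∑ j ∈ Finset.range J, 4 * (((k.Fv b hb (v0 + 2 ^ (j + 2) * δ) -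
        k.Fv b hb (v0 + 2 ^ (j + 1) * δ)) / (2 ^ (j + 1) * δ)) / δ * (1 / 2) ^ j)) ≤
      2 / δ ^ 2 * ∑ j ∈ Finset.range J, ((1:ℝ) / 4) ^ j * k.Fv b hb (v0 + 2 ^ (j + 2) * δ) := by
    rw [Finset.mul_sum]
    apply Finset.sum_le_sum
    intro j hj
    rw [Finset.mem_range] at hj
    have h1 := hnn (j + 1) (by omega)
    have h2 : (k.Fv b hb (v0 + 2 ^ (j + 2) * δ) - k.Fv b hb (v0 + 2 ^ (j + 1) * δ)) ≤
      k.Fv b hb (v0 + 2 ^ (j + 2) * δ) := by linarith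
    have e0 : ((1:ℝ) / 4) ^ j = (1 / 2) ^ j * (1 / 2) ^ j := by
      rw [← mul_pow]; norm_num
    have e1 : 4 * (((k.Fv b hb (v0 + 2 ^ (j + 2) * δ)) / (2 ^ (j + 1) * δ)) / δ * (1 / 2) ^ j) =
        2 / δ ^ 2 * (((1:ℝ) / 4) ^ j * k.Fv b hb (v0 + 2 ^ (j + 2) * δ)) := by
      generalize k.Fv b hb (v0 + 2 ^ (j + 2) * δ) = Y
      rw [e0, pow_succ, one_div, inv_pow]
      field_simp
      ring
    rw [← e1]
    gcongr
  have hl : (k.Fv b hb (v0 + 2 ^ (J + 1) * δ) - k.Fv b hb (v0 + 2 ^ J * δ)) / (2 ^ J * δ) ≤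
      k.Fv b hb (v0 + 2 ^ (J + 1) * δ) / (2 ^ J * δ) := by
    have h1 := hnn J (by omega)
    gcongr
    linarith
  have h7 := mul_le_mul_of_nonneg_left hs (by positivity : 0 ≤ (κ / J * b) ^ 2 / 2)
  have h8 := mul_le_mul_of_nonneg_left hl (by positivity : 0 ≤ κ ^ 2 / 2)
  have h9 : θ * k.Fv b hb (v0 + δ) ≤ (κ / J * b) ^ 2 / 2 * (2 / δ ^ 2 *
      ∑ j ∈ Finset.range J, ((1:ℝ) / 4) ^ j * k.Fv b hb (v0 + 2 ^ (j + 2) * δ)) +
      κ ^ 2 / 2 * (k.Fv b hb (v0 + 2 ^ (J + 1) * δ) / (2 ^ J * δ)) := by linarith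
  have h10 := mul_le_mul_of_nonneg_left h9 (by positivity : 0 ≤ 2 * (1 + k.α))
  rw [← mul_assoc, hθ, mul_inv_cancel₀ (by positivity), one_mul] at h10
  refine h10.trans (le_of_eq ?_)
  rw [hκ]
  field_simp

/-- the improved smoothing bound in the `v` variable -/
theorem Ker.exponent (k : Ker) : ∃ (b : ℝ) (hb : 0 < b) (γ B δ0 : ℝ), 2 < γ ∧ 0 < B ∧ 0 < δ0 ∧
    ∀ δ, 0 < δ → δ ≤ δ0 → k.Fv b hb (k.vc b + δ) ≤ B * δ ^ γ := by
  have hα := k.hα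
  obtain ⟨b, t, hb, ht, hD0⟩ := k.exists_good
  refine ⟨b, hb, ?_⟩
  set D0 := t * b + k.vc (b + t) - k.vc b with hD
  set c0 := D0 / (2 * t * b) with hc0
  have hc0p : 0 < c0 := by positivity
  have hvneg := k.vc_neg b hb
  set δ0 := min (-k.vc b) (D0 / 2) with hδ0
  have hδ0p : 0 < δ0 := lt_min (by linarith) (by positivity)
  obtain ⟨J, hJ1⟩ := exists_nat_ge (max 1 (64 * (2 * (1 + k.α) / c0 ^ 2)))
  have hJ : 1 ≤ J := by exact_mod_cast (le_max_left _ _).trans hJ1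
  have hJC : 64 * (2 * (1 + k.α) / c0 ^ 2) ≤ J := (le_max_right _ _).trans hJ1
  obtain ⟨B, hB, hmain⟩ := rec_exponent (fun δ => k.Fv b hb (k.vc b + δ)) δ0
    (k.Fv b hb 0 + 1) (2 * (1 + k.α) / c0 ^ 2) ((1 + k.α) / (b ^ 2 * c0 ^ 2)) J hδ0p
    (by positivity) (by positivity) (by have := k.Fv_nonneg b hb 0 le_rfl; linarith) hJ hJC
    (fun δ hδ hδ' => by
      have h1 : k.vc b + δ ≤ 0 := by
        have := hδ'.trans (min_le_left _ _); linarith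
      have := k.Fv_mono b hb (k.vc b + δ) 0 h1 le_rfl
      linarith)
    (fun δ hδ hδ' => by
      have h2 : (1:ℝ) ≤ 2 ^ (J + 1) := one_le_pow₀ (by norm_num)
      have h3 : δ ≤ δ0 := by nlinarith
      have h4 := k.overlap b t hb ht hD0 δ hδ (h3.trans (min_le_right _ _))
        (by have := h3.trans (min_le_left _ _); linarith)
      exact k.recursion b hb c0 hc0p δ hδ h4 J hJ (hδ'.trans (min_le_left _ _)))
  refine ⟨2 + 1 / ((J:ℝ) + 1), B, δ0, ?_, hB, hδ0p, hmain⟩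
  have : (0:ℝ) < 1 / ((J:ℝ) + 1) := by positivity
  linarith

end H98Cop
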