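import Pool.Agent.Helper98.Cop.FracMom

set_option autoImplicit false

/-! # The critical point is strictly below the annealed one for strong coupling -/

namespace H98Cop

open MeasureTheory ProbabilityTheory Filter Topology
open Cop764 (Data)

theorem Ker.sum_one (k : Ker) : HasSum (fun n => (k.κ n).toReal) 1 := by
  have h1 : Summable (fun n => (k.κ n).toReal) :=
    ENNReal.summable_toReal (by rw [k.κ.tsum_coe]; exact ENNReal.one_ne_top)
  have h2 : ∑' n, (k.κ n).toReal = 1 := by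
    rw [← ENNReal.tsum_toReal_eq (fun n => k.κ.apply_ne_top n), k.κ.tsum_coe, ENNReal.toReal_one]
  rw [← h2]
  exact h1.hasSum

theorem Ker.exists_theta (k : Ker) : ∃ θ : ℝ, 0 < θ ∧ θ < 1 ∧
    ∀ n, ∑ j ∈ Finset.Icc 1 n, ((k.κ j).toReal / 2) ^ θ ≤ 3 / 4 := by
  have hα := k.hα
  obtain ⟨C, hC⟩ := k.htail.bddAbove_range
  have hC' : ∀ n : ℕ, (n:ℝ) ^ (1 + k.α) * (k.κ n).toReal ≤ C := fun n => hC ⟨n, rfl⟩
  have hC0 : 0 ≤ C := le_trans (by positivity) (hC' 0)
  set θ0 : ℝ := (1 + k.α / 2) / (1 + k.α) with hθ0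
  have hθ0p : 0 < θ0 := by positivity
  have hθ01 : θ0 < 1 := by rw [hθ0, div_lt_one (by positivity)]; linarith
  have hkn : ∀ n, 0 ≤ (k.κ n).toReal := fun n => ENNReal.toReal_nonneg
  have hk1 : ∀ n, (k.κ n).toReal ≤ 1 := fun n => by
    have := ENNReal.toReal_mono ENNReal.one_ne_top (k.κ.coe_le_one n)
    rwa [ENNReal.toReal_one] at this
  have hbound : Summable (fun n => ((k.κ n).toReal / 2) ^ θ0) := by
    have h1 : Summable (fun n : ℕ => C ^ θ0 * (n:ℝ) ^ (-(1 + k.α / 2))) :=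
      (Real.summable_nat_rpow.2 (by linarith)).mul_left _
    refine Summable.of_nonneg_of_le (fun n => by have := hkn n; positivity) (fun n => ?_) h1
    rcases Nat.eq_zero_or_pos n with rfl | hn
    · rw [k.κ0]
      simp only [ENNReal.toReal_zero, zero_div]
      rw [Real.zero_rpow hθ0p.ne']
      positivity
    · have hnr : (0:ℝ) < n := by exact_mod_cast hn
      have h2 : (k.κ n).toReal / 2 ≤ C * (n:ℝ) ^ (-(1 + k.α)) := by
        have h3 := hC' n
        rw [Real.rpow_neg hnr.le, ← div_eq_mul_inv, le_div_iff₀ (by positivity)]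
        have := hkn n
        have h5 : 0 < (n:ℝ) ^ (1 + k.α) := by positivity
        nlinarith [mul_nonneg h5.le this]
      calc ((k.κ n).toReal / 2) ^ θ0 ≤ (C * (n:ℝ) ^ (-(1 + k.α))) ^ θ0 :=
            Real.rpow_le_rpow (by have := hkn n; positivity) h2 hθ0p.le
        _ = C ^ θ0 * (n:ℝ) ^ (-(1 + k.α / 2)) := by
            rw [Real.mul_rpow hC0 (by positivity), ← Real.rpow_mul hnr.le]
            congr 2
            rw [hθ0]; field_simp
  have hlim := tendsto_tsum_of_dominated_convergence (𝓕 := 𝓝[<] (1:ℝ))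
    (f := fun θ n => ((k.κ n).toReal / 2) ^ θ) (g := fun n => (k.κ n).toReal / 2) hbound
    (fun n => by
      have h1 : Tendsto (fun θ : ℝ => ((k.κ n).toReal / 2) ^ θ) (𝓝 1) (𝓝 (((k.κ n).toReal / 2) ^ (1:ℝ))) :=
        (Real.continuousAt_const_rpow' (a := (k.κ n).toReal / 2) one_ne_zero).tendsto
      rw [Real.rpow_one] at h1
      exact h1.mono_left nhdsWithin_le_nhds)
    (by
      have h1 : ∀ᶠ θ : ℝ in 𝓝[<] 1, θ0 < θ := by
        apply mem_nhdsWithin_of_mem_nhds
        exact Ioi_mem_nhds hθ01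
      filter_upwards [h1] with θ hθ n
      rw [Real.norm_of_nonneg (by have := hkn n; positivity)]
      rcases (hkn n).eq_or_lt with h0 | h0
      · rw [← h0, zero_div, Real.zero_rpow hθ0p.ne', Real.zero_rpow (hθ0p.trans hθ).ne']
      · exact Real.rpow_le_rpow_of_exponent_ge (by positivity) (by have := hk1 n; linarith) hθ.le)
  have hg : ∑' n, (k.κ n).toReal / 2 = 1 / 2 := by
    rw [tsum_div_const, k.sum_one.tsum_eq]
  rw [hg] at hlim
  have h34 : ∀ᶠ θ : ℝ in 𝓝[<] 1, ∑' n, ((k.κ n).toReal / 2) ^ θ < 3 / 4 :=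
    hlim.eventually_lt_const (by norm_num)
  have h1 : ∀ᶠ θ : ℝ in 𝓝[<] 1, θ0 < θ := by
    apply mem_nhdsWithin_of_mem_nhds
    exact Ioi_mem_nhds hθ01
  have h2 : ∀ᶠ θ : ℝ in 𝓝[<] 1, θ < 1 := self_mem_nhdsWithin
  obtain ⟨θ, ha, hb, hc⟩ := (h34.and (h1.and h2)).exists
  refine ⟨θ, hθ0p.trans hb, hc, fun n => ?_⟩
  have hs : Summable (fun n => ((k.κ n).toReal / 2) ^ θ) := by
    refine Summable.of_nonneg_of_le (fun n => by have := hkn n; positivity) (fun n => ?_) hbound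
    rcases (hkn n).eq_or_lt with h0 | h0
    · rw [← h0, zero_div, Real.zero_rpow hθ0p.ne', Real.zero_rpow (hθ0p.trans hb).ne']
    · exact Real.rpow_le_rpow_of_exponent_ge (by positivity) (by have := hk1 n; linarith) hb.le
  exact (hs.sum_le_tsum _ fun n _ => by have := hkn n; positivity).trans ha.le

theorem gauss_lexp (lam h θ : ℝ) :
    ∫⁻ x, ENNReal.ofReal (Real.exp (θ * (-2 * lam * (x + h)))) ∂(gaussianReal 0 1) =
      ENNReal.ofReal (Real.exp (2 * θ ^ 2 * lam ^ 2 - 2 * θ * lam * h)) := by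
  have h1 : ∀ x : ℝ, Real.exp (θ * (-2 * lam * (x + h))) =
      Real.exp (-2 * θ * lam * h) * Real.exp ((-2 * θ * lam) * x) := fun x => by
    rw [← Real.exp_add]; congr 1; ring
  have hint : Integrable (fun x : ℝ => Real.exp (θ * (-2 * lam * (x + h)))) (gaussianReal 0 1) := by
    simp only [h1]
    exact (integrable_exp_mul_gaussianReal (-2 * θ * lam)).const_mul _
  rw [← ofReal_integral_eq_lintegral_ofReal hint (Eventually.of_forall fun x => (Real.exp_pos _).le)]
  congr 1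
  simp only [h1]
  rw [integral_const_mul]
  have h2 := congrFun (mgf_id_gaussianReal (μ := 0) (v := 1)) (-2 * θ * lam)
  unfold mgf at h2
  simp only [id_eq, NNReal.coe_one] at h2
  rw [h2, ← Real.exp_add]
  congr 1
  ring

theorem Ker.exists_lt (k : Ker) : ∃ (lam : ℝ) (hlam : 0 < lam) (h1 : ℝ), 0 ≤ h1 ∧ h1 < lam ∧
    (k.D lam hlam).f h1 ≤ 0 := by
  obtain ⟨θ, hθ0, hθ1, hθ⟩ := k.exists_theta
  -- choose lam
  obtain ⟨lam, hlam1, hlam2⟩ : ∃ lam : ℝ, 1 ≤ lam ∧ Real.exp (-(θ * (1 - θ) * lam)) ≤ 1 / 3 := by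
    refine ⟨max 1 (2 / (θ * (1 - θ))), le_max_left _ _, ?_⟩
    have hp : 0 < θ * (1 - θ) := mul_pos hθ0 (by linarith)
    have h1 : 2 ≤ θ * (1 - θ) * max 1 (2 / (θ * (1 - θ))) := by
      have := mul_le_mul_of_nonneg_left (le_max_right 1 (2 / (θ * (1 - θ)))) hp.le
      rwa [mul_div_cancel₀ _ hp.ne'] at this
    have h2 : Real.exp (-2) ≤ 1 / 3 := by
      rw [Real.exp_neg, inv_le_comm₀ (Real.exp_pos _) (by norm_num)]
      have := Real.add_one_le_exp (2:ℝ)
      norm_num at this ⊢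
      linarith
    exact (Real.exp_le_exp.2 (by linarith)).trans h2
  have hlam : 0 < lam := by linarith
  refine ⟨lam, hlam, lam * (1 + θ) / 2, by positivity, by nlinarith, ?_⟩
  obtain ⟨c0, n0, hK⟩ := Cop764.M_K.J_K (k.D lam hlam)
  have hc13 : Real.exp (-(θ * (1 - θ) * lam ^ 2)) ≤ 1 / 3 := by
    refine (Real.exp_le_exp.2 ?_).trans hlam2
    have hp : 0 < θ * (1 - θ) := mul_pos hθ0 (by linarith)
    have h5 : lam ≤ lam ^ 2 := by nlinarith
    have h6 := mul_le_mul_of_nonneg_left h5 hp.le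
    linarith
  apply Cop764.h98_f_le_zero (k.D lam hlam) c0 n0 hK _ θ (by positivity)
    (ENNReal.ofReal (Real.exp (-(θ * (1 - θ) * lam ^ 2)))) hθ0 hθ1.le
  · intro n
    have hmp := measurePreserving_eval_infinitePi (fun _ : ℕ => gaussianReal 0 1) n
    have h1 := hmp.lintegral_comp (f := fun x : ℝ => ENNReal.ofReal (Real.exp
      (θ * (-2 * lam * (x + lam * (1 + θ) / 2))))) (by fun_prop)
    rw [gauss_lexp] at h1
    rw [show -(θ * (1 - θ) * lam ^ 2) = 2 * θ ^ 2 * lam ^ 2 - 2 * θ * lam * (lam * (1 + θ) / 2) by ring]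
    rw [← h1]
    rfl
  · rw [← ENNReal.ofReal_one]
    exact ENNReal.ofReal_le_ofReal (hc13.trans (by norm_num))
  · intro n
    have h1 : ∀ j, ENNReal.ofReal ((k.D lam hlam).K j / 2) ^ θ =
        ENNReal.ofReal (((k.κ j).toReal / 2) ^ θ) := fun j => by
      rw [ENNReal.ofReal_rpow_of_nonneg (by unfold Data.K; positivity) hθ0.le]
      rfl
    simp only [h1]
    rw [← Finset.sum_mul, ← ENNReal.ofReal_sum_of_nonneg (fun j _ => by positivity),
      ← ENNReal.ofReal_one, ← ENNReal.ofReal_add zero_le_one (Real.exp_pos _).le,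
      ← ENNReal.ofReal_mul (Finset.sum_nonneg fun j _ => by positivity)]
    apply ENNReal.ofReal_le_ofReal
    have h2 := hθ n
    have h3 : 0 ≤ ∑ j ∈ Finset.Icc 1 n, ((k.κ j).toReal / 2) ^ θ :=
      Finset.sum_nonneg fun j _ => by positivity
    have h4 := Real.exp_pos (-(θ * (1 - θ) * lam ^ 2))
    nlinarith

end H98Cop
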