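import Pool.Agent.Helper98.Cop.Bridge

set_option autoImplicit false

/-! # Thermodynamic limit of the pinned free energy -/

namespace Cop764

open MeasureTheory ProbabilityTheory Filter Topology

theorem h98_lG_meas (D : Data) (h : ℝ) (a b : ℕ) : Measurable (D.lG h a b) := M_strE.jE_meas D h a b

theorem h98_lG_shift (D : Data) (h : ℝ) (k ℓ : ℕ) :
    ∫ ω, D.lG h k (k + ℓ) ω ∂D.P = ∫ ω, D.lG h 0 ℓ ω ∂D.P := by
  have hmp := M_stat.J_stat D.ν k
  have hm : Measurable (fun ω : ℕ → ℝ => D.lG h 0 ℓ ω) := h98_lG_meas D h 0 ℓ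
  have h1 : ∀ ω : ℕ → ℝ, D.lG h 0 ℓ (fun n => ω (n + k)) = D.lG h k (k + ℓ) ω := by
    intro ω
    unfold Data.lG
    have := M_loc.J_loc.1 D.K (D.w h ω) k 0 ℓ
    rw [Nat.zero_add, Nat.add_comm ℓ k] at this
    rw [← this]
    rfl
  have h2 : ∫ ω, D.lG h 0 ℓ ω ∂(disorder D.ν) =
      ∫ ω, D.lG h 0 ℓ (fun n => ω (n + k)) ∂(disorder D.ν) := by
    conv_lhs => rw [← hmp.map_eq]
    rw [integral_map hmp.measurable.aemeasurable hm.aestronglyMeasurable]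
  unfold Data.P
  rw [h2]
  simp only [h1]

/-- pinned free energies are below the free energy -/
theorem h98_E_lG_le (D : Data) (c0 : ℝ) (n0 : ℕ) (hK : KHyp D.K D.α c0 n0) (h : ℝ) (hh : 0 ≤ h)
    (ℓ : ℕ) (hℓ : n0 ≤ ℓ) : ∫ ω, D.lG h 0 ℓ ω ∂D.P ≤ ℓ * D.f h := by
  have hn0 := hK.n0_pos
  have hℓ1 : 1 ≤ ℓ := hn0.trans hℓ
  obtain ⟨intF, intG, intZ⟩ := M_int.J_int D c0 n0 hK h hh
  have hint : ∀ i : ℕ, Integrable (D.lG h (i * ℓ) ((i + 1) * ℓ)) D.P := by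
    intro i
    exact intG _ _ (by rw [Nat.add_mul, Nat.one_mul]; omega)
  obtain ⟨E, hE⟩ : ∃ E, E = ∫ ω, D.lG h 0 ℓ ω ∂D.P := ⟨_, rfl⟩
  rw [← hE]
  have hblock : ∀ i : ℕ, ∫ ω, D.lG h (i * ℓ) ((i + 1) * ℓ) ω ∂D.P = E := by
    intro i
    have e : (i + 1) * ℓ = i * ℓ + ℓ := by ring
    rw [hE, e]
    exact h98_lG_shift D h (i * ℓ) ℓ
  have hsuper : ∀ (ω : ℕ → ℝ) (Q : ℕ), 1 ≤ Q →
      ∑ i ∈ Finset.range Q, D.lG h (i * ℓ) ((i + 1) * ℓ) ω ≤ D.lG h 0 (Q * ℓ) ω := by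
    intro ω Q hQ
    induction Q, hQ using Nat.le_induction with
    | base => simp
    | succ Q hQ ih =>
      rw [Finset.sum_range_succ]
      have p1 := (M_strE.jE_Glow D c0 n0 hK (D.w h ω) ℓ hℓ 0 Q (by omega)).2
      have p2 := (M_strE.jE_Glow D c0 n0 hK (D.w h ω) ℓ hℓ Q (Q+1) (by omega)).2
      rw [Nat.zero_mul] at p1
      have h4 := (M_G.J_G D.K (D.w h ω) hK.nonneg).2.2.2 0 (Q * ℓ) ((Q+1) * ℓ) (Nat.zero_le _)
        (Nat.mul_le_mul_right _ (by omega))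
      have h5 := Real.log_le_log (mul_pos p1 p2) h4
      rw [Real.log_mul p1.ne' p2.ne'] at h5
      have h6 : D.lG h 0 (Q * ℓ) ω + D.lG h (Q * ℓ) ((Q + 1) * ℓ) ω ≤ D.lG h 0 ((Q+1) * ℓ) ω := h5
      linarith
  have key : ∀ Q : ℕ, 1 ≤ Q → E ≤ ℓ * feN D.κ D.ν D.lam h (Q * ℓ) := by
    intro Q hQ
    have hQr : (0 : ℝ) < Q := by exact_mod_cast hQ
    have hQℓ : n0 ≤ Q * ℓ := hℓ.trans (Nat.le_mul_of_pos_left _ hQ)
    have hZint := intZ (Q * ℓ) hQℓ
    have hmono : ∫ ω, (∑ i ∈ Finset.range Q, D.lG h (i * ℓ) ((i + 1) * ℓ) ω) ∂D.P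
        ≤ ∫ ω, Real.log (Z D.κ D.lam h (Q * ℓ) ω) ∂D.P := by
      apply integral_mono (integrable_finsetSum _ fun i _ => hint i) hZint
      intro ω
      refine (hsuper ω Q hQ).trans ?_
      have p2 := (M_strE.jE_Glow D c0 n0 hK (D.w h ω) ℓ hℓ 0 Q (by omega)).2
      rw [Nat.zero_mul] at p2
      exact Real.log_le_log p2 (M_Z.J_Z D h ω (Q * ℓ)).1
    rw [integral_finsetSum _ (fun i _ => hint i)] at hmono
    simp only [hblock, Finset.sum_const, Finset.card_range, nsmul_eq_mul] at hmono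
    have hℓr : (0:ℝ) < ℓ := by exact_mod_cast hℓ1
    have hfe : ∫ ω, Real.log (Z D.κ D.lam h (Q * ℓ) ω) ∂D.P =
        Q * (ℓ * feN D.κ D.ν D.lam h (Q * ℓ)) := by
      unfold feN Data.P
      push_cast
      field_simp
    rw [hfe] at hmono
    exact le_of_mul_le_mul_left hmono hQr
  have hlim := (M_fe.J_fe D h hh).1
  have hsub : Tendsto (fun Q : ℕ => Q * ℓ) atTop atTop :=
    tendsto_id.atTop_mul_const' (by omega)
  have h2 := (hlim.comp hsub).const_mul (ℓ : ℝ)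
  exact ge_of_tendsto h2 (by
    filter_upwards [eventually_ge_atTop 1] with Q hQ
    exact key Q hQ)

theorem h98_S_shift_abs (D : Data) (h : ℝ) (a m : ℕ) :
    ∫ ω, |S (D.w h ω) a (a + m)| ∂D.P = ∫ ω, |S (D.w h ω) 0 m| ∂D.P := by
  have hmp := M_stat.J_stat D.ν a
  have hm : Measurable (fun ω : ℕ → ℝ => |S (D.w h ω) 0 m|) :=
    measurable_norm.comp (M_meas.J_meas D h 0 m).2.2
  have h1 : ∀ ω : ℕ → ℝ, |S (D.w h (fun n => ω (n + a))) 0 m| = |S (D.w h ω) a (a + m)| := by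
    intro ω
    have := M_loc.J_loc.2.2.1 (D.w h ω) a 0 m
    rw [Nat.zero_add, Nat.add_comm m a] at this
    rw [← this]
    rfl
  have h2 : ∫ ω, |S (D.w h ω) 0 m| ∂(disorder D.ν) =
      ∫ ω, |S (D.w h (fun n => ω (n + a))) 0 m| ∂(disorder D.ν) := by
    conv_lhs => rw [← hmp.map_eq]
    rw [integral_map hmp.measurable.aemeasurable hm.aestronglyMeasurable]
  unfold Data.P
  rw [h2]
  simp only [h1]

theorem h98_S_int (D : Data) (h : ℝ) (a b : ℕ) : Integrable (fun ω => S (D.w h ω) a b) D.P := by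
  unfold S
  apply integrable_finsetSum
  intro n _
  unfold Data.w
  have h1 : Integrable (fun ω : ℕ → ℝ => ω n) D.P := by
    have hid : Integrable (fun x : ℝ => x) D.ν := by
      have h1 := D.expm 1
      have h2 := D.expm (-1)
      refine (h1.add h2).mono' (by fun_prop) (Filter.Eventually.of_forall fun x => ?_)
      simp only [Pi.add_apply, one_mul, Real.norm_eq_abs]
      have a1 := Real.add_one_le_exp x
      have a2 := Real.add_one_le_exp (-x)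
      have a3 := Real.exp_pos x
      have a4 := Real.exp_pos (-x)
      rw [show -1 * x = -x by ring]
      rcases abs_cases x with ⟨h, _⟩ | ⟨h, _⟩ <;> rw [h] <;> linarith
    have hmap : Measure.map (fun ω : ℕ → ℝ => ω n) D.P = D.ν := by
      unfold Data.P disorder
      exact (measurePreserving_eval_infinitePi (fun _ : ℕ => D.ν) n).map_eq
    rw [← hmap] at hid
    have h3 := (integrable_map_measure (μ := D.P) (f := fun ω : ℕ → ℝ => ω n) (g := fun x : ℝ => x)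
      (by rw [hmap]; exact measurable_id.aestronglyMeasurable) (measurable_pi_apply n).aemeasurable).1 hid
    exact h3
  exact (h1.add (integrable_const h)).const_mul _

theorem h98_E_lG_ge (D : Data) (c0 : ℝ) (n0 : ℕ) (hK : KHyp D.K D.α c0 n0) (h : ℝ) (hh : 0 ≤ h) :
    ∃ C, 0 ≤ C ∧ ∀ ℓ : ℕ, 1 ≤ ℓ →
      ℓ * D.f h - C * (1 + Real.log ((ℓ:ℝ) + 2 * n0)) ≤ ∫ ω, D.lG h 0 (ℓ + 2 * n0) ω ∂D.P := by
  obtain ⟨intF, intG, intZ⟩ := M_int.J_int D c0 n0 hK h hh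
  have hn0 := hK.n0_pos
  have hα := hK.alpha_pos
  have hc0 := hK.c0_pos
  have hc1 := hK.c0_le
  have hlc : 0 ≤ Real.log c0⁻¹ := Real.log_nonneg ((one_le_inv₀ hc0).2 hc1)
  set S0 := ∫ ω, |S (D.w h ω) 0 n0| ∂D.P with hS0
  have hS0n : 0 ≤ S0 := integral_nonneg fun ω => abs_nonneg _
  have hlog6 : 0 ≤ Real.log 6 := Real.log_nonneg (by norm_num)
  refine ⟨2 * Real.log c0⁻¹ + 2 * S0 + Real.log 6 + 2 + 2 * (1 + D.α), by positivity, ?_⟩
  intro ℓ hℓ
  have hℓr : (1:ℝ) ≤ ℓ := by exact_mod_cast hℓ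
  have hn0r : (1:ℝ) ≤ n0 := by exact_mod_cast hn0
  have h1 := (M_fe.J_fe D h hh).2 ℓ hℓ
  -- stationarity of lF
  have hlFm : ∀ a b, Measurable (D.lF h a b) := fun a b =>
    Real.measurable_log.comp (M_meas.J_meas D h a b).2.1
  have hshift : ∫ ω, D.lF h n0 (ℓ + n0) ω ∂D.P = ∫ ω, D.lF h 0 ℓ ω ∂D.P := by
    have hst := M_stat.J_stat D.ν n0
    have h2 := integral_map (μ := disorder D.ν) (φ := fun (ω : ℕ → ℝ) (n : ℕ) => ω (n + n0))
        hst.measurable.aemeasurable (f := fun ω => D.lF h 0 ℓ ω) (hlFm 0 ℓ).aestronglyMeasurable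
    rw [hst.map_eq] at h2
    unfold Data.P
    rw [h2]
    apply integral_congr_ae
    filter_upwards with ω
    have h3 := M_loc.J_loc.2.1 D.K (D.w h ω) n0 0 ℓ
    rw [Nat.zero_add] at h3
    unfold Data.lF
    rw [← h3]
    rfl
  have hSi : Integrable (fun ω => |S (D.w h ω) 0 n0|) D.P := (h98_S_int D h 0 n0).abs
  have hSi2 : Integrable (fun ω => |S (D.w h ω) (ℓ + n0) (ℓ + 2 * n0)|) D.P :=
    (h98_S_int D h _ _).abs
  have hSe : ∫ ω, |S (D.w h ω) (ℓ + n0) (ℓ + 2 * n0)| ∂D.P = S0 := by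
    have := h98_S_shift_abs D h (ℓ + n0) n0
    rw [show ℓ + n0 + n0 = ℓ + 2 * n0 by ring] at this
    exact this
  have hGi := intG 0 (ℓ + 2 * n0) (by omega)
  have hdet := fun ω => M_T4.t4_det D hK h ℓ hℓ ω
  have hmono := integral_mono (intF n0 (ℓ + n0) (by omega))
    (((integrable_const (2 * Real.log c0⁻¹ + 2 * Real.log ((ℓ:ℝ) + 1) +
      2 * (1 + D.α) * Real.log ((ℓ:ℝ) + n0))).add (hSi.add hSi2)).add hGi) hdet
  rw [integral_add' ((integrable_const _).add (hSi.add hSi2)) hGi,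
    integral_add' (integrable_const _) (hSi.add hSi2), integral_add' hSi hSi2, hSe,
    integral_const, hshift] at hmono
  simp only [probReal_univ, smul_eq_mul, one_mul] at hmono
  have hL1 : Real.log ((ℓ:ℝ) + 1) ≤ Real.log ((ℓ:ℝ) + 2 * n0) :=
    Real.log_le_log (by positivity) (by linarith)
  have hL2 : Real.log ((ℓ:ℝ) + n0) ≤ Real.log ((ℓ:ℝ) + 2 * n0) :=
    Real.log_le_log (by positivity) (by linarith)
  have hL0 : 0 ≤ Real.log ((ℓ:ℝ) + 2 * n0) := Real.log_nonneg (by linarith)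
  have hα' : 0 < 1 + D.α := by linarith
  have hL3 := mul_le_mul_of_nonneg_left hL2 (by positivity : 0 ≤ 2 * (1 + D.α))
  set Lg := Real.log ((ℓ:ℝ) + 2 * n0) with hLg
  have hx : 0 ≤ (2 * Real.log c0⁻¹ + 2 * S0 + Real.log 6) * Lg := by positivity
  nlinarith

/-- the pinned free energy per site converges to the free energy -/
theorem h98_tendsto (D : Data) (c0 : ℝ) (n0 : ℕ) (hK : KHyp D.K D.α c0 n0) (h : ℝ) (hh : 0 ≤ h) :
    Tendsto (fun ℓ : ℕ => (∫ ω, D.lG h 0 ℓ ω ∂D.P) / ℓ) atTop (𝓝 (D.f h)) := by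
  obtain ⟨C, hC, hlow⟩ := h98_E_lG_ge D c0 n0 hK h hh
  have hn0 := hK.n0_pos
  -- lower function
  have hlowlim : Tendsto (fun ℓ : ℕ => (((ℓ - 2 * n0 : ℕ) : ℝ) * D.f h - C * (1 + Real.log (ℓ:ℝ))) / ℓ)
      atTop (𝓝 (D.f h)) := by
    have h1 : Tendsto (fun ℓ : ℕ => D.f h - (2 * n0 * D.f h + C) * ((ℓ:ℝ))⁻¹ - C * (Real.log (ℓ:ℝ) / ℓ))
        atTop (𝓝 (D.f h - (2 * n0 * D.f h + C) * 0 - C * 0)) := by
      have hinv : Tendsto (fun ℓ : ℕ => ((ℓ:ℝ))⁻¹) atTop (𝓝 0) :=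
        tendsto_inv_atTop_zero.comp tendsto_natCast_atTop_atTop
      have hlog : Tendsto (fun ℓ : ℕ => Real.log (ℓ:ℝ) / ℓ) atTop (𝓝 0) := by
        have := Real.isLittleO_log_id_atTop.tendsto_div_nhds_zero
        exact this.comp tendsto_natCast_atTop_atTop
      exact (tendsto_const_nhds.sub (hinv.const_mul _)).sub (hlog.const_mul _)
    rw [mul_zero, mul_zero, sub_zero, sub_zero] at h1
    refine h1.congr' ?_
    filter_upwards [eventually_ge_atTop (2 * n0 + 1)] with ℓ hℓ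
    have hℓ0 : (ℓ:ℝ) ≠ 0 := by
      have : 0 < ℓ := by omega
      exact_mod_cast this.ne'
    rw [Nat.cast_sub (by omega)]
    push_cast
    field_simp
    ring
  refine tendsto_of_tendsto_of_tendsto_of_le_of_le' hlowlim tendsto_const_nhds ?_ ?_
  · filter_upwards [eventually_ge_atTop (2 * n0 + 1)] with ℓ hℓ
    have hℓ0 : (0:ℝ) < ℓ := by exact_mod_cast (by omega : 0 < ℓ)
    apply div_le_div_of_nonneg_right _ hℓ0.le
    have := hlow (ℓ - 2 * n0) (by omega)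
    rw [show ℓ - 2 * n0 + 2 * n0 = ℓ by omega] at this
    have e : (((ℓ - 2 * n0 : ℕ) : ℝ) + 2 * n0) = ℓ := by
      rw [Nat.cast_sub (by omega)]; push_cast; ring
    rw [e] at this
    exact this
  · filter_upwards [eventually_ge_atTop (n0 + 1)] with ℓ hℓ
    have hℓ0 : (0:ℝ) < ℓ := by exact_mod_cast (by omega : 0 < ℓ)
    rw [div_le_iff₀ hℓ0, mul_comm]
    exact h98_E_lG_le D c0 n0 hK h hh ℓ (by omega)

end Cop764
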